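import Pool.Agent.ERG.Tor

/-!
# Module Apx (size 3): approximation of a periodic set by continuous periodic functions

Let `f x = inR A (sec x)` on the torus `T2` (compact, finite Haar measure, regular): bounded measurable, so in `L¹`. By density of the continuous functions in `L¹`
(`MeasureTheory.MemLp.exists_boundedContinuous_eLpNorm_sub_le` or `MeasureTheory.Integrable.exists_hasCompactSupport_lintegral_sub_le`) there is a continuous `g : T2 → ℝ` with
`∫⁻ x, ‖f x - g x‖ₑ ≤ ofReal ε`. Put `φ z = g (pr z)`: continuous (`pr` is continuous), periodic (`pr_add_zc`), and `∫⁻ y in Q, ofReal |inR A y - φ y| = ∫⁻ x, ofReal |f x - g x|` by `tor`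
and `per_sec`.
-/

set_option autoImplicit false

namespace Pool.Agent.ERG

open Pool.Agent.NUH MeasureTheory Filter Topology
open scoped ENNReal ContDiff NNReal

theorem apx {A : Set (ℝ × ℝ)} (hA : MeasurableSet A) (hper : ∀ z k, z + zc k ∈ A ↔ z ∈ A)
    {ε : ℝ} (hε : 0 < ε) : ∃ φ : ℝ × ℝ → ℝ, Continuous φ ∧ (∀ z k, φ (z + zc k) = φ z) ∧
      ∫⁻ y in Q, ENNReal.ofReal |inR A y - φ y| ≤ ENNReal.ofReal ε := by
  classical
  have hmA : Measurable (inR A) := by
    unfold inR
    exact measurable_const.indicator hA
  set f : T2 → ℝ := fun x => inR A (sec x) with hf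
  have hfm : Measurable f := hmA.comp sec_meas
  have hfi : Integrable f (volume : Measure T2) := by
    refine Integrable.of_bound (C := 1) hfm.aestronglyMeasurable (Eventually.of_forall fun x => ?_)
    simp only [hf, inR]
    refine (norm_indicator_le_norm_self _ _).trans ?_
    simp
  obtain ⟨g, hg, -⟩ := hfi.exists_boundedContinuous_lintegral_sub_le
    (ε := ENNReal.ofReal ε) (by simpa using hε)
  have hpc : Continuous pr := by
    have h1 : Continuous fun z : ℝ × ℝ => ((z.1 : UnitAddCircle), (z.2 : UnitAddCircle)) :=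
      ((AddCircle.continuous_mk' 1).comp continuous_fst).prodMk
        ((AddCircle.continuous_mk' 1).comp continuous_snd)
    exact h1
  refine ⟨fun z => g (pr z), g.continuous.comp hpc, fun z k => by simp only [pr_add_zc], ?_⟩
  have hinR : ∀ z k, inR A (z + zc k) = inR A z := by
    intro z k
    unfold inR
    by_cases h : z ∈ A
    · rw [Set.indicator_of_mem ((hper z k).2 h), Set.indicator_of_mem h]
    · rw [Set.indicator_of_notMem (fun h' => h ((hper z k).1 h')), Set.indicator_of_notMem h]
  have e1 : ∀ y : ℝ × ℝ, ENNReal.ofReal |inR A y - g (pr y)| =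
      (fun x : T2 => ENNReal.ofReal |f x - g x|) (pr y) := by
    intro y
    simp only [hf]
    rw [per_sec hinR y]
  have hmeas : Measurable fun x : T2 => ENNReal.ofReal |f x - g x| := by
    refine ENNReal.measurable_ofReal.comp ?_
    have := (hfm.sub g.continuous.measurable)
    exact this.norm
  calc ∫⁻ y in Q, ENNReal.ofReal |inR A y - g (pr y)|
      = ∫⁻ y in Q, (fun x : T2 => ENNReal.ofReal |f x - g x|) (pr y) := by
        refine lintegral_congr fun y => e1 y
    _ = ∫⁻ x : T2, ENNReal.ofReal |f x - g x| := tor hmeas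
    _ = ∫⁻ x : T2, ‖f x - g x‖ₑ := by
        refine lintegral_congr fun x => ?_
        rw [← Real.norm_eq_abs, ofReal_norm]
    _ ≤ ENNReal.ofReal ε := hg

end Pool.Agent.ERG
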