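import Pool.Agent.ERG.Cha

/-!
# Module Msr (size 3): measurability

All the functions are continuous: `(a, y) ↦ Vv G n a y = Dn G n y (wv a)` (`D.contDG`, `Continuous.clm_apply`), `H^[n]`, `G^[n]`, `Dn`,
`wt`. So `{(a, y) | Good ..}` is closed (a countable, even finite, intersection of closed sets `isClosed_le`; write `Good` as `⋂ j, ⋂ l, ⋂ (h : j + l ≤ n)`),
and `Pair` is a closed condition in `(a, a', x, z)`. `Vb` continuous in `(a, x)`, `cv` continuous in `(a, x, t)`: the norm `‖Vb‖` is positive (`D.Vv_pos`).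
-/

set_option autoImplicit false

namespace Pool.Agent.ERG

open Pool.Agent.NUH MeasureTheory Filter Topology
open scoped ENNReal ContDiff NNReal

variable {M : Mt} {R : Finset (ℤ × ℤ)} {G H : ℝ × ℝ → ℝ × ℝ}
  {H' : ℝ × ℝ → (ℝ × ℝ →L[ℝ] ℝ × ℝ)} {K K₂ lam s C : ℝ}

theorem Dat.contVv (D : Dat M R G H H' K K₂ lam s C) (n : ℕ) :
    Continuous fun p : ℝ × (ℝ × ℝ) => Vv G n p.1 p.2 := by
  have h : Continuous fun p : ℝ × (ℝ × ℝ) => wv p.1 := by
    unfold wv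
    exact continuous_const.prodMk continuous_fst
  exact ((D.contDG n).comp continuous_snd).clm_apply h

private theorem Msr.shift (D : Dat M R G H H' K K₂ lam s C) (n : ℕ) (k : ℤ × ℤ) :
    Continuous fun x : ℝ × ℝ => H^[n] (x + zc k) :=
  (D.contHn n).comp (continuous_id.add continuous_const)

theorem Dat.contVb (D : Dat M R G H H' K K₂ lam s C) (n : ℕ) (k : ℤ × ℤ) :
    Continuous fun p : ℝ × (ℝ × ℝ) => Vb G H n k p.1 p.2 := by
  have h : Continuous fun p : ℝ × (ℝ × ℝ) => (p.1, H^[n] (p.2 + zc k)) :=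
    continuous_fst.prodMk ((Msr.shift D n k).comp continuous_snd)
  exact (D.contVv n).comp h

theorem Dat.closed_good (D : Dat M R G H H' K K₂ lam s C) (κ : ℝ) (n : ℕ) :
    IsClosed {p : ℝ × (ℝ × ℝ) | Good G lam κ n p.1 p.2} := by
  have h : {p : ℝ × (ℝ × ℝ) | Good G lam κ n p.1 p.2} =
      ⋂ j : ℕ, ⋂ l : ℕ, ⋂ _ : j + l ≤ n, {p : ℝ × (ℝ × ℝ) |
        κ * ‖Dn G l (G^[j] p.2)‖ * ‖Vv G j p.1 p.2‖ ≤ lam ^ (n - j) * ‖Vv G (j + l) p.1 p.2‖} := by
    ext p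
    simp only [Good, Set.mem_ofPred_eq, Set.mem_iInter]
  rw [h]
  refine isClosed_iInter fun j => isClosed_iInter fun l => isClosed_iInter fun _ => ?_
  refine isClosed_le ?_ ?_
  · have h1 : Continuous fun p : ℝ × (ℝ × ℝ) => Dn G l (G^[j] p.2) :=
      (D.contDG l).comp ((D.contGn j).comp continuous_snd)
    exact (continuous_const.mul h1.norm).mul (D.contVv j).norm
  · exact continuous_const.mul (D.contVv (j + l)).norm

theorem Dat.closed_pair (D : Dat M R G H H' K K₂ lam s C) (κ θ : ℝ) (n : ℕ) (k k' : ℤ × ℤ) :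
    IsClosed {p : (ℝ × ℝ) × ((ℝ × ℝ) × (ℝ × ℝ)) |
      Pair G H lam κ θ n k k' p.1.1 p.1.2 p.2.1 p.2.2} := by
  have c1 : Continuous fun p : (ℝ × ℝ) × ((ℝ × ℝ) × (ℝ × ℝ)) => (p.1.1, p.2.1) := by fun_prop
  have c2 : Continuous fun p : (ℝ × ℝ) × ((ℝ × ℝ) × (ℝ × ℝ)) => (p.1.2, p.2.2) := by fun_prop
  have d1 : Continuous fun p : (ℝ × ℝ) × ((ℝ × ℝ) × (ℝ × ℝ)) => p.1.1 := by fun_prop
  have d2 : Continuous fun p : (ℝ × ℝ) × ((ℝ × ℝ) × (ℝ × ℝ)) => p.1.2 := by fun_prop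
  have d3 : Continuous fun p : (ℝ × ℝ) × ((ℝ × ℝ) × (ℝ × ℝ)) => p.2.1 := by fun_prop
  have d4 : Continuous fun p : (ℝ × ℝ) × ((ℝ × ℝ) × (ℝ × ℝ)) => p.2.2 := by fun_prop
  have g1 : Continuous fun p : (ℝ × ℝ) × ((ℝ × ℝ) × (ℝ × ℝ)) =>
      (p.1.1, H^[n] (p.2.1 + zc k)) :=
    d1.prodMk ((Msr.shift D n k).comp d3)
  have g2 : Continuous fun p : (ℝ × ℝ) × ((ℝ × ℝ) × (ℝ × ℝ)) =>
      (p.1.2, H^[n] (p.2.2 + zc k')) :=
    d2.prodMk ((Msr.shift D n k').comp d4)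
  have v1 : Continuous fun p : (ℝ × ℝ) × ((ℝ × ℝ) × (ℝ × ℝ)) => Vb G H n k p.1.1 p.2.1 :=
    (D.contVb n k).comp c1
  have v2 : Continuous fun p : (ℝ × ℝ) × ((ℝ × ℝ) × (ℝ × ℝ)) => Vb G H n k' p.1.2 p.2.2 :=
    (D.contVb n k').comp c2
  have k1 : IsClosed {p : (ℝ × ℝ) × ((ℝ × ℝ) × (ℝ × ℝ)) |
      Good G lam κ n p.1.1 (H^[n] (p.2.1 + zc k))} := (D.closed_good κ n).preimage g1
  have k2 : IsClosed {p : (ℝ × ℝ) × ((ℝ × ℝ) × (ℝ × ℝ)) |
      Good G lam κ n p.1.2 (H^[n] (p.2.2 + zc k'))} := (D.closed_good κ n).preimage g2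
  have k3 : IsClosed {p : (ℝ × ℝ) × ((ℝ × ℝ) × (ℝ × ℝ)) |
      θ * ‖Vb G H n k p.1.1 p.2.1‖ * ‖Vb G H n k' p.1.2 p.2.2‖ ≤
        |wd (Vb G H n k p.1.1 p.2.1) (Vb G H n k' p.1.2 p.2.2)|} := by
    refine isClosed_le ((continuous_const.mul v1.norm).mul v2.norm) ?_
    unfold wd
    exact (((continuous_fst.comp v1).mul (continuous_snd.comp v2)).sub
      ((continuous_snd.comp v1).mul (continuous_fst.comp v2))).abs
  exact k1.inter (k2.inter k3)

theorem Dat.contcv (D : Dat M R G H H' K K₂ lam s C) (n : ℕ) (k : ℤ × ℤ) (a : ℝ) :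
    Continuous fun p : (ℝ × ℝ) × ℝ => cv G H n k a p.1 p.2 := by
  have c0 : Continuous fun p : (ℝ × ℝ) × ℝ => (a, p.1) := continuous_const.prodMk continuous_fst
  have c1 : Continuous fun p : (ℝ × ℝ) × ℝ => ‖Vb G H n k a p.1‖ := ((D.contVb n k).comp c0).norm
  have c2 : Continuous fun p : (ℝ × ℝ) × ℝ => p.2 / ‖Vb G H n k a p.1‖ :=
    continuous_snd.div c1 fun p => (D.Vv_pos n a (H^[n] (p.1 + zc k))).ne'
  have c3 : Continuous fun p : (ℝ × ℝ) × ℝ =>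
      H^[n] (p.1 + zc k) + (p.2 / ‖Vb G H n k a p.1‖) • wv a :=
    ((Msr.shift D n k).comp continuous_fst).add (c2.smul continuous_const)
  exact ((D.contGn n).comp c3).sub continuous_const

theorem meas_inR {A : Set (ℝ × ℝ)} (hA : MeasurableSet A) : Measurable (inR A) := by
  have h : Measurable (A.indicator fun _ : ℝ × ℝ => (1 : ℝ)) := measurable_const.indicator hA
  exact h

theorem Dat.meas_Ek (D : Dat M R G H H' K K₂ lam s C) {A : Set (ℝ × ℝ)} (hA : MeasurableSet A)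
    {φ : ℝ × ℝ → ℝ} (hφ : Continuous φ) (n : ℕ) (k : ℤ × ℤ) : MeasurableSet {x | Ek H A φ n k x} := by
  have h1 : Measurable fun x : ℝ × ℝ => φ (H^[n] (x + zc k)) :=
    (hφ.comp (Msr.shift D n k)).measurable
  have h2 : Measurable fun x : ℝ × ℝ => |inR A x - φ (H^[n] (x + zc k))| :=
    continuous_abs.measurable.comp ((meas_inR hA).sub h1)
  exact measurableSet_le measurable_const h2

theorem Dat.closed_Dis (D : Dat M R G H H' K K₂ lam s C) {φ : ℝ × ℝ → ℝ} (hφ : Continuous φ)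
    (n : ℕ) (k k' : ℤ × ℤ) : IsClosed {x | Dis H φ n k k' x} := by
  exact isClosed_le continuous_const
    ((hφ.comp (Msr.shift D n k)).sub (hφ.comp (Msr.shift D n k'))).abs

theorem Dat.meas_wt (D : Dat M R G H H' K K₂ lam s C) (n : ℕ) (k : ℤ × ℤ) :
    Measurable fun x : ℝ × ℝ => ENNReal.ofReal (wt H n (x + zc k)) := by
  have h1 : Continuous fun x : ℝ × ℝ => wt H n (x + zc k) :=
    (D.contwt n).comp (continuous_id.add continuous_const)
  exact ENNReal.measurable_ofReal.comp h1.measurable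

end Pool.Agent.ERG
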