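import Pool.Agent.ERG.Gpr
import Pool.Agent.ERG.Msr

/-!
# Module Lbd (size 4): the lower bound

`κ` from `gpr3`; `θ ∈ (0,1]` with `(8 θ) ^ (s/2) * CR ≤ 1/2` (the power tends to `0`). For fixed `k'`, `a'` let `V' = Vb G H n k' a' z ≠ 0`; `dir2` (`q = V'`,
`t = θ`) gives `Sm n (fun X => volume {a ∈ [0,1] | |wd V' (Vv G n a (H^[n] X))| ≤ θ ‖V'‖ ‖Vv ..‖}) x ≤ 1/2`. Pointwise
`1 ≤ ind Pair + ind (¬ Good at (k, a, x)) + ind (¬ Good at (k', a', z)) + ind (|wd V' V| ≤ θ ‖V'‖ ‖V‖)` (`|wd V V'| = |wd V' V|`). Multiply by the weights, sum over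
`k, k'` and integrate over `a, a' ∈ [0,1]` (length `1`, `Sm_one`): `1 ≤ F + 1/8 + 1/8 + 1/2`, where `F` is the right side below; so `1/4 ≤ F`
(`ENNReal`: from `1 ≤ F + 3/4`). For the last term the integration over `a` is done first: swap the integrals over `a` and `a'`
(`lintegral_lintegral_swap`; the set is closed, `D.contVb`). Write `Sm` of a volume as a sum of integrals of `ind` (`lintegral_ind` and
`Measure.restrict_apply`).
-/

set_option autoImplicit false

namespace Pool.Agent.ERG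

open Pool.Agent.NUH MeasureTheory Filter Topology
open scoped ENNReal ContDiff NNReal

variable {M : Mt} {R : Finset (ℤ × ℤ)} {G H : ℝ × ℝ → ℝ × ℝ}
  {H' : ℝ × ℝ → (ℝ × ℝ →L[ℝ] ℝ × ℝ)} {K K₂ lam s C : ℝ}

private theorem Lbd.theta {s CC : ℝ} (hs : 0 < s) (hCC : 2 ≤ CC) :
    ∃ θ : ℝ, 0 < θ ∧ θ ≤ 1 ∧ (8 * θ) ^ (s / 2) * CC = 1 / 2 := by
  have hb0 : 0 < 1 / (2 * CC) := by positivity
  have hb1 : 1 / (2 * CC) ≤ 1 := by
    rw [div_le_one (by positivity)]
    linarith
  refine ⟨(1 / (2 * CC)) ^ (2 / s) / 8, by positivity, ?_, ?_⟩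
  · have := Real.rpow_le_one hb0.le hb1 (by positivity : 0 ≤ 2 / s)
    linarith
  · have h1 : 8 * ((1 / (2 * CC)) ^ (2 / s) / 8) = (1 / (2 * CC)) ^ (2 / s) := by ring
    have h2 : 2 / s * (s / 2) = 1 := by field_simp
    rw [h1, ← Real.rpow_mul hb0.le, h2, Real.rpow_one]
    field_simp

private theorem Lbd.wd_symm (p q : ℝ × ℝ) : |wd p q| = |wd q p| := by
  have : wd p q = - wd q p := by unfold wd; ring
  rw [this, abs_neg]

/-- the algebra of the weights -/
private theorem Lbd.alg {ι : Type} (T : Finset ι) (W W' : ι → ℝ≥0∞) (P Q : ι → ι → ℝ≥0∞)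
    (A B : ι → ℝ≥0∞) (hW : ∑ k ∈ T, W k = 1) (hW' : ∑ k ∈ T, W' k = 1)
    (h : ∀ k k', 1 ≤ P k k' + (A k + (B k' + Q k k')))
    (hA : ∑ k ∈ T, W k * A k ≤ 1 / 8) (hB : ∑ k ∈ T, W' k * B k ≤ 1 / 8)
    (hQ : ∀ k', ∑ k ∈ T, W k * Q k k' ≤ 1 / 2) :
    1 / 4 ≤ ∑ k ∈ T, ∑ k' ∈ T, W k * (W' k' * P k k') := by
  have h1 : (1 : ℝ≥0∞) ≤ ∑ k ∈ T, ∑ k' ∈ T, W k * (W' k' * (P k k' + (A k + (B k' + Q k k')))) := by
    calc (1 : ℝ≥0∞) = ∑ k ∈ T, ∑ k' ∈ T, W k * (W' k' * 1) := by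
          simp only [mul_one]
          rw [← Finset.sum_mul_sum, hW, hW', one_mul]
      _ ≤ _ := by
          refine Finset.sum_le_sum fun k _ => Finset.sum_le_sum fun k' _ => ?_
          exact mul_le_mul_right (mul_le_mul_right (h k k') _) _
  have h2 : ∑ k ∈ T, ∑ k' ∈ T, W k * (W' k' * (P k k' + (A k + (B k' + Q k k')))) =
      ∑ k ∈ T, ∑ k' ∈ T, W k * (W' k' * P k k') + (∑ k ∈ T, W k * A k +
        (∑ k' ∈ T, W' k' * B k' + ∑ k' ∈ T, W' k' * ∑ k ∈ T, W k * Q k k')) := by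
    have e1 : ∑ k ∈ T, ∑ k' ∈ T, W k * (W' k' * A k) = ∑ k ∈ T, W k * A k := by
      refine Finset.sum_congr rfl fun k _ => ?_
      have : ∀ k' ∈ T, W k * (W' k' * A k) = W' k' * (W k * A k) := fun k' _ => by ring
      rw [Finset.sum_congr rfl this, ← Finset.sum_mul, hW', one_mul]
    have e2 : ∑ k ∈ T, ∑ k' ∈ T, W k * (W' k' * B k') = ∑ k' ∈ T, W' k' * B k' := by
      rw [← Finset.sum_mul_sum, hW, one_mul]
    have e3 : ∑ k ∈ T, ∑ k' ∈ T, W k * (W' k' * Q k k') =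
        ∑ k' ∈ T, W' k' * ∑ k ∈ T, W k * Q k k' := by
      rw [Finset.sum_comm]
      refine Finset.sum_congr rfl fun k' _ => ?_
      rw [Finset.mul_sum]
      exact Finset.sum_congr rfl fun k _ => by ring
    simp only [mul_add, Finset.sum_add_distrib]
    rw [e1, e2, e3]
  have h3 : ∑ k' ∈ T, W' k' * ∑ k ∈ T, W k * Q k k' ≤ 1 / 2 := by
    calc ∑ k' ∈ T, W' k' * ∑ k ∈ T, W k * Q k k' ≤ ∑ k' ∈ T, W' k' * (1 / 2) :=
          Finset.sum_le_sum fun k' _ => mul_le_mul_right (hQ k') _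
      _ = 1 / 2 := by rw [← Finset.sum_mul, hW', one_mul]
  rw [h2] at h1
  have h4 : (1 : ℝ≥0∞) ≤ ∑ k ∈ T, ∑ k' ∈ T, W k * (W' k' * P k k') + 3 / 4 := by
    refine h1.trans (add_le_add_right ?_ _)
    have e : (3 / 4 : ℝ≥0∞) = 1 / 8 + (1 / 8 + 1 / 2) := by
      rw [← ENNReal.toReal_eq_toReal_iff' (by finiteness) (by finiteness)]
      rw [ENNReal.toReal_add (by finiteness) (by finiteness),
        ENNReal.toReal_add (by finiteness) (by finiteness)]
      simp only [ENNReal.toReal_div, ENNReal.toReal_ofNat, ENNReal.toReal_one]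
      norm_num
    rw [e]
    exact add_le_add hA (add_le_add hB h3)
  have h5 : (1 : ℝ≥0∞) - 3 / 4 = 1 / 4 := by
    have e : (1 : ℝ≥0∞) = 1 / 4 + 3 / 4 := by
      rw [← ENNReal.toReal_eq_toReal_iff' (by finiteness) (by finiteness)]
      rw [ENNReal.toReal_add (by finiteness) (by finiteness)]
      simp only [ENNReal.toReal_div, ENNReal.toReal_ofNat, ENNReal.toReal_one]
      norm_num
    conv_lhs => rw [e]
    exact ENNReal.add_sub_cancel_right (by finiteness)
  rw [← h5]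
  exact tsub_le_iff_right.mpr h4

theorem lbd (D : Dat M R G H H' K K₂ lam s C) : ∃ κ θ : ℝ, 0 < κ ∧ κ ≤ 1 ∧ 0 < θ ∧ θ ≤ 1 ∧
    ∀ (n : ℕ) (x z : ℝ × ℝ), 1 / 4 ≤ ∑ k ∈ Rn M R n, ∑ k' ∈ Rn M R n,
      ENNReal.ofReal (wt H n (x + zc k)) * (ENNReal.ofReal (wt H n (z + zc k')) *
        ∫⁻ a in Set.Icc (0 : ℝ) 1, ∫⁻ a' in Set.Icc (0 : ℝ) 1,
          ind (Pair G H lam κ θ n k k' a a' x z)) := by
  obtain ⟨κ, κ0, κ1, hκ⟩ := gpr3 D
  obtain ⟨θ, θ0, θ1, hθ⟩ := Lbd.theta D.s0 (CR_pos D)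
  refine ⟨κ, θ, κ0, κ1, θ0, θ1, fun n x z => ?_⟩
  have one : ∀ y : ℝ × ℝ, ∑ k ∈ Rn M R n, ENNReal.ofReal (wt H n (y + zc k)) = 1 := by
    intro y
    have h := Sm_one D n y
    unfold Sm at h
    simpa using h
  set μ : Measure ℝ := volume.restrict (Set.Icc (0 : ℝ) 1) with hμ
  have hμu : μ Set.univ = 1 := by
    rw [hμ, Measure.restrict_apply MeasurableSet.univ, Set.univ_inter, Real.volume_Icc]
    norm_num
  have : IsProbabilityMeasure μ := ⟨hμu⟩
  set ν : Measure (ℝ × ℝ) := μ.prod μ with hν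
  -- the four sets
  have cP : ∀ k k', IsClosed {p : ℝ × ℝ | Pair G H lam κ θ n k k' p.1 p.2 x z} := by
    intro k k'
    have c : Continuous fun p : ℝ × ℝ => (p, (x, z)) := by fun_prop
    exact (D.closed_pair κ θ n k k').preimage c
  have cG : ∀ (y : ℝ × ℝ) (k : ℤ × ℤ),
      IsClosed {a : ℝ | Good G lam κ n a (H^[n] (y + zc k))} := by
    intro y k
    have c : Continuous fun a : ℝ => (a, H^[n] (y + zc k)) := by fun_prop
    exact (D.closed_good κ n).preimage c
  have cQ : ∀ k k', IsClosed {p : ℝ × ℝ | |wd (Vb G H n k' p.2 z) (Vb G H n k p.1 x)| ≤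
      θ * ‖Vb G H n k' p.2 z‖ * ‖Vb G H n k p.1 x‖} := by
    intro k k'
    have v1 : Continuous fun p : ℝ × ℝ => Vb G H n k p.1 x := by
      have c : Continuous fun p : ℝ × ℝ => (p.1, x) := by fun_prop
      exact (D.contVb n k).comp c
    have v2 : Continuous fun p : ℝ × ℝ => Vb G H n k' p.2 z := by
      have c : Continuous fun p : ℝ × ℝ => (p.2, z) := by fun_prop
      exact (D.contVb n k').comp c
    refine isClosed_le ?_ ((continuous_const.mul v2.norm).mul v1.norm)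
    unfold wd
    exact (((continuous_fst.comp v2).mul (continuous_snd.comp v1)).sub
      ((continuous_snd.comp v2).mul (continuous_fst.comp v1))).abs
  -- the integral of the indicator of the pairs
  have eP : ∀ k k', ∫⁻ a, ∫⁻ a', ind (Pair G H lam κ θ n k k' a a' x z) ∂μ ∂μ =
      ν {p : ℝ × ℝ | Pair G H lam κ θ n k k' p.1 p.2 x z} := by
    intro k k'
    rw [← lintegral_ind (cP k k').measurableSet, hν,
      lintegral_prod _ (measurable_ind (cP k k').measurableSet).aemeasurable]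
  simp only [eP]
  refine Lbd.alg (Rn M R n) (fun k => ENNReal.ofReal (wt H n (x + zc k)))
    (fun k => ENNReal.ofReal (wt H n (z + zc k)))
    (fun k k' => ν {p : ℝ × ℝ | Pair G H lam κ θ n k k' p.1 p.2 x z})
    (fun k k' => ν {p : ℝ × ℝ | |wd (Vb G H n k' p.2 z) (Vb G H n k p.1 x)| ≤
      θ * ‖Vb G H n k' p.2 z‖ * ‖Vb G H n k p.1 x‖})
    (fun k => μ {a : ℝ | ¬ Good G lam κ n a (H^[n] (x + zc k))})
    (fun k => μ {a : ℝ | ¬ Good G lam κ n a (H^[n] (z + zc k))})
    (one x) (one z) ?_ ?_ ?_ ?_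
  · intro k k'
    have hsub : (Set.univ : Set (ℝ × ℝ)) ⊆
        {p : ℝ × ℝ | Pair G H lam κ θ n k k' p.1 p.2 x z} ∪
        ({a : ℝ | ¬ Good G lam κ n a (H^[n] (x + zc k))} ×ˢ (Set.univ : Set ℝ) ∪
        ((Set.univ : Set ℝ) ×ˢ {a : ℝ | ¬ Good G lam κ n a (H^[n] (z + zc k'))} ∪
        {p : ℝ × ℝ | |wd (Vb G H n k' p.2 z) (Vb G H n k p.1 x)| ≤
          θ * ‖Vb G H n k' p.2 z‖ * ‖Vb G H n k p.1 x‖})) := by
      rintro ⟨a, a'⟩ -
      by_cases h1 : Good G lam κ n a (H^[n] (x + zc k))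
      · by_cases h2 : Good G lam κ n a' (H^[n] (z + zc k'))
        · by_cases h3 : θ * ‖Vb G H n k a x‖ * ‖Vb G H n k' a' z‖ ≤
            |wd (Vb G H n k a x) (Vb G H n k' a' z)|
          · exact Or.inl ⟨h1, h2, h3⟩
          · refine Or.inr (Or.inr (Or.inr ?_))
            show |wd (Vb G H n k' a' z) (Vb G H n k a x)| ≤
              θ * ‖Vb G H n k' a' z‖ * ‖Vb G H n k a x‖
            rw [Lbd.wd_symm]
            have := (not_le.mp h3).le
            calc _ ≤ θ * ‖Vb G H n k a x‖ * ‖Vb G H n k' a' z‖ := this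
              _ = _ := by ring
        · exact Or.inr (Or.inr (Or.inl ⟨trivial, h2⟩))
      · exact Or.inr (Or.inl ⟨h1, trivial⟩)
    have hu : ν Set.univ = 1 := by
      rw [hν, ← Set.univ_prod_univ, Measure.prod_prod, hμu, one_mul]
    calc (1 : ℝ≥0∞) = ν Set.univ := hu.symm
      _ ≤ _ := measure_mono hsub
      _ ≤ _ := measure_union_le _ _
      _ ≤ _ := by
        refine add_le_add le_rfl ((measure_union_le _ _).trans (add_le_add ?_
          ((measure_union_le _ _).trans (add_le_add ?_ le_rfl))))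
        · rw [hν, Measure.prod_prod, hμu, mul_one]
        · rw [hν, Measure.prod_prod, hμu, one_mul]
  · refine le_trans (le_of_eq ?_) (hκ n x)
    unfold Sm
    refine Finset.sum_congr rfl fun k _ => ?_
    congr 1
    have hm : MeasurableSet {a : ℝ | ¬ Good G lam κ n a (H^[n] (x + zc k))} :=
      (cG x k).measurableSet.compl
    rw [hμ, Measure.restrict_apply hm]
    show volume _ = volume _
    congr 1
    ext a
    exact and_comm
  · refine le_trans (le_of_eq ?_) (hκ n z)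
    unfold Sm
    refine Finset.sum_congr rfl fun k _ => ?_
    congr 1
    have hm : MeasurableSet {a : ℝ | ¬ Good G lam κ n a (H^[n] (z + zc k))} :=
      (cG z k).measurableSet.compl
    rw [hμ, Measure.restrict_apply hm]
    show volume _ = volume _
    congr 1
    ext a
    exact and_comm
  · intro k'
    have e1 : ∀ k, ν {p : ℝ × ℝ | |wd (Vb G H n k' p.2 z) (Vb G H n k p.1 x)| ≤
        θ * ‖Vb G H n k' p.2 z‖ * ‖Vb G H n k p.1 x‖} =
        ∫⁻ a', μ {a : ℝ | |wd (Vb G H n k' a' z) (Vb G H n k a x)| ≤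
          θ * ‖Vb G H n k' a' z‖ * ‖Vb G H n k a x‖} ∂μ := by
      intro k
      rw [hν, Measure.prod_apply_symm (cQ k k').measurableSet]
      rfl
    have m1 : ∀ k, Measurable fun a' : ℝ =>
        μ {a : ℝ | |wd (Vb G H n k' a' z) (Vb G H n k a x)| ≤
          θ * ‖Vb G H n k' a' z‖ * ‖Vb G H n k a x‖} := fun k =>
      measurable_measure_prodMk_right (cQ k k').measurableSet
    calc ∑ k ∈ Rn M R n, ENNReal.ofReal (wt H n (x + zc k)) *
          ν {p : ℝ × ℝ | |wd (Vb G H n k' p.2 z) (Vb G H n k p.1 x)| ≤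
            θ * ‖Vb G H n k' p.2 z‖ * ‖Vb G H n k p.1 x‖}
        = ∫⁻ a', ∑ k ∈ Rn M R n, ENNReal.ofReal (wt H n (x + zc k)) *
            μ {a : ℝ | |wd (Vb G H n k' a' z) (Vb G H n k a x)| ≤
              θ * ‖Vb G H n k' a' z‖ * ‖Vb G H n k a x‖} ∂μ := by
          rw [lintegral_finsetSum _ fun k _ => (m1 k).const_mul _]
          refine Finset.sum_congr rfl fun k _ => ?_
          rw [lintegral_const_mul _ (m1 k), e1 k]
      _ ≤ ∫⁻ _a', (1 / 2 : ℝ≥0∞) ∂μ := by
          refine lintegral_mono fun a' => ?_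
          have hV : Vb G H n k' a' z ≠ 0 := by
            intro h0
            have := D.Vv_pos n a' (H^[n] (z + zc k'))
            change 0 < ‖Vb G H n k' a' z‖ at this
            rw [h0, norm_zero] at this
            exact lt_irrefl _ this
          have h := dir2 D n x (Vb G H n k' a' z) hV θ0.le
          rw [hθ] at h
          have e2 : ENNReal.ofReal (1 / 2) = 1 / 2 := by
            rw [ENNReal.ofReal_div_of_pos (by norm_num)]
            simp
          rw [e2] at h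
          refine le_trans (le_of_eq ?_) h
          unfold Sm
          refine Finset.sum_congr rfl fun k _ => ?_
          congr 1
          have c : IsClosed {a : ℝ | |wd (Vb G H n k' a' z) (Vb G H n k a x)| ≤
              θ * ‖Vb G H n k' a' z‖ * ‖Vb G H n k a x‖} := by
            have c0 : Continuous fun a : ℝ => (a, a') := by fun_prop
            exact (cQ k k').preimage c0
          rw [hμ, Measure.restrict_apply c.measurableSet]
          congr 1
          ext a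
          exact and_comm
      _ = 1 / 2 := by rw [lintegral_const, hμu, mul_one]

end Pool.Agent.ERG
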