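import Pool.Agent.ERG.Upb
import Pool.Agent.ERG.Lbd
import Pool.Agent.ERG.Apx

/-!
# Module Asm (size 4): an invariant set is null or full on every small ball

`par`: `κ, θ` from `lbd`, `r` from `geo` with `θ/16` instead of `θ`, `ρ = θ r / 32`.
`asm1` (fixed `n`, `φ`): with `J = ∫⁻ z in B, ∫⁻ x in B, ind (¬ (x ∈ A ↔ z ∈ A))`: by `lbd`, `(1/4) J ≤ ∫⁻ z in B, ∫⁻ x in B, (∑ k, ∑ k', w_k(x) (w_{k'}(z) ∫⁻ a, ∫⁻ a', ind Pair)) ind (¬ ..)`, which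
is `∫⁻ a in [0,1], ∫⁻ a' in [0,1], ∑ k, ∑ k', ∫⁻ z in B, ∫⁻ x in B, w_k(x) (w_{k'}(z) ind (Pair ∧ ¬ ..))` by Tonelli (everything is jointly measurable: `D.closed_pair`, `D.meas_wt`, `hA`;
`lintegral_finsetSum`, `lintegral_lintegral_swap`, `ind_and`; it may be convenient to write iterated integrals as integrals over product measures) and this is at most `24 E` by `upb`,
`E = ∫⁻ y in Q, ofReal |inR A y - φ y|`.
`asm`: for every `ε > 0` choose `φ` by `apx`, `om` by `uc_per` (NUH/PertInv.lean, `κ = 1/8`; `Real.norm_eq_abs`), and `n` with `2 r ≤ om * (κ * lam ^ (3 n))` (`lam > 1`); so `(1/4) J ≤ 24 ε` for all `ε`, `J = 0`.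
-/

set_option autoImplicit false

namespace Pool.Agent.ERG

open Pool.Agent.NUH MeasureTheory Filter Topology
open scoped ENNReal ContDiff NNReal

variable {M : Mt} {R : Finset (ℤ × ℤ)} {G H : ℝ × ℝ → ℝ × ℝ}
  {H' : ℝ × ℝ → (ℝ × ℝ →L[ℝ] ℝ × ℝ)} {K K₂ lam s C : ℝ}

private theorem asm_ton {μ : Measure (ℝ × ℝ)} {ν : Measure ℝ} [SFinite μ] [SFinite ν]
    (f : (ℝ × ℝ) × ((ℝ × ℝ) × (ℝ × ℝ)) → ℝ≥0∞) (hf : Measurable f) :
    ∫⁻ z, ∫⁻ x, ∫⁻ a, ∫⁻ a', f ((a, a'), (x, z)) ∂ν ∂ν ∂μ ∂μ =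
      ∫⁻ a, ∫⁻ a', ∫⁻ z, ∫⁻ x, f ((a, a'), (x, z)) ∂μ ∂μ ∂ν ∂ν := by
  have h1 : ∀ x z : ℝ × ℝ, ∫⁻ a, ∫⁻ a', f ((a, a'), (x, z)) ∂ν ∂ν =
      ∫⁻ q, f (q, (x, z)) ∂(ν.prod ν) := by
    intro x z
    rw [lintegral_prod]
    exact (hf.comp (measurable_id.prodMk measurable_const)).aemeasurable
  have h2 : ∀ a a' : ℝ, ∫⁻ z, ∫⁻ x, f ((a, a'), (x, z)) ∂μ ∂μ =
      ∫⁻ p, f ((a, a'), (p.2, p.1)) ∂(μ.prod μ) := by
    intro a a'
    rw [lintegral_prod]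
    exact (hf.comp (measurable_const.prodMk
      (measurable_snd.prodMk measurable_fst))).aemeasurable
  simp only [h1, h2]
  have hm : Measurable fun w : (ℝ × ℝ) × ((ℝ × ℝ) × (ℝ × ℝ)) =>
      f (w.1, (w.2.2, w.2.1)) :=
    hf.comp (measurable_fst.prodMk ((measurable_snd.comp measurable_snd).prodMk
      (measurable_fst.comp measurable_snd)))
  have h3 : ∫⁻ z, ∫⁻ x, ∫⁻ q, f (q, (x, z)) ∂(ν.prod ν) ∂μ ∂μ =
      ∫⁻ p, ∫⁻ q, f (q, (p.2, p.1)) ∂(ν.prod ν) ∂(μ.prod μ) := by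
    rw [lintegral_prod]
    refine Measurable.aemeasurable ?_
    have := (hm.comp measurable_swap).lintegral_prod_right' (ν := ν.prod ν)
    exact this
  have h4 : ∫⁻ a, ∫⁻ a', ∫⁻ p, f ((a, a'), (p.2, p.1)) ∂(μ.prod μ) ∂ν ∂ν =
      ∫⁻ q, ∫⁻ p, f (q, (p.2, p.1)) ∂(μ.prod μ) ∂(ν.prod ν) := by
    rw [lintegral_prod]
    refine Measurable.aemeasurable ?_
    exact hm.lintegral_prod_right' (ν := μ.prod μ)
  rw [h3, h4]
  exact lintegral_lintegral_swap (hm.comp measurable_swap).aemeasurable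

theorem par (D : Dat M R G H H' K K₂ lam s C) : ∃ κ θ r ρ : ℝ, Par G lam κ θ r ρ ∧
    ∀ (n : ℕ) (x z : ℝ × ℝ), 1 / 4 ≤ ∑ k ∈ Rn M R n, ∑ k' ∈ Rn M R n,
      ENNReal.ofReal (wt H n (x + zc k)) * (ENNReal.ofReal (wt H n (z + zc k')) *
        ∫⁻ a in Set.Icc (0 : ℝ) 1, ∫⁻ a' in Set.Icc (0 : ℝ) 1,
          ind (Pair G H lam κ θ n k k' a a' x z)) := by
  obtain ⟨κ, θ, hκ, hκ1, hθ, hθ1, hl⟩ := lbd D
  obtain ⟨r, hr, hr1, hg⟩ := geo D hκ hκ1 (show 0 < θ / 16 by positivity) (by linarith)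
  refine ⟨κ, θ, r, θ * r / 32, ?_, hl⟩
  exact
    { κ0 := hκ
      κ1 := hκ1
      θ0 := hθ
      θ1 := hθ1
      r0 := hr
      r1 := hr1
      ρ0 := by positivity
      ρ1 := by linarith
      geo := hg }

theorem asm1 (D : Dat M R G H H' K K₂ lam s C) {κ θ r ρ : ℝ} (P : Par G lam κ θ r ρ)
    (n : ℕ) (hl : ∀ x z : ℝ × ℝ, 1 / 4 ≤ ∑ k ∈ Rn M R n, ∑ k' ∈ Rn M R n,
      ENNReal.ofReal (wt H n (x + zc k)) * (ENNReal.ofReal (wt H n (z + zc k')) *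
        ∫⁻ a in Set.Icc (0 : ℝ) 1, ∫⁻ a' in Set.Icc (0 : ℝ) 1,
          ind (Pair G H lam κ θ n k k' a a' x z)))
    {A : Set (ℝ × ℝ)} (hA : MeasurableSet A) (x0 : ℝ × ℝ) {E : ℝ≥0∞}
    (hup : ∀ a ∈ Set.Icc (0 : ℝ) 1, ∀ a' ∈ Set.Icc (0 : ℝ) 1,
      ∑ k ∈ Rn M R n, ∑ k' ∈ Rn M R n, ∫⁻ z in Metric.closedBall x0 ρ,
        ∫⁻ x in Metric.closedBall x0 ρ, ENNReal.ofReal (wt H n (x + zc k)) *
          (ENNReal.ofReal (wt H n (z + zc k')) *
            ind (Pair G H lam κ θ n k k' a a' x z ∧ ¬ (x ∈ A ↔ z ∈ A))) ≤ E) :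
    1 / 4 * ∫⁻ z in Metric.closedBall x0 ρ, ∫⁻ x in Metric.closedBall x0 ρ,
      ind (¬ (x ∈ A ↔ z ∈ A)) ≤ E := by
  set μ : Measure (ℝ × ℝ) := volume.restrict (Metric.closedBall x0 ρ) with hμ
  set ν : Measure ℝ := volume.restrict (Set.Icc (0 : ℝ) 1) with hν
  set F : (ℤ × ℤ) → (ℤ × ℤ) → (ℝ × ℝ) × ((ℝ × ℝ) × (ℝ × ℝ)) → ℝ≥0∞ := fun k k' p =>
    ENNReal.ofReal (wt H n (p.2.1 + zc k)) * (ENNReal.ofReal (wt H n (p.2.2 + zc k')) *
      ind (Pair G H lam κ θ n k k' p.1.1 p.1.2 p.2.1 p.2.2 ∧ ¬ (p.2.1 ∈ A ↔ p.2.2 ∈ A)))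
    with hF
  have mx : Measurable fun p : (ℝ × ℝ) × ((ℝ × ℝ) × (ℝ × ℝ)) => p.2.1 :=
    measurable_fst.comp measurable_snd
  have mz : Measurable fun p : (ℝ × ℝ) × ((ℝ × ℝ) × (ℝ × ℝ)) => p.2.2 :=
    measurable_snd.comp measurable_snd
  have hset : MeasurableSet {p : (ℝ × ℝ) × ((ℝ × ℝ) × (ℝ × ℝ)) |
      ¬ (p.2.1 ∈ A ↔ p.2.2 ∈ A)} := by
    have h1 : MeasurableSet {p : (ℝ × ℝ) × ((ℝ × ℝ) × (ℝ × ℝ)) | p.2.1 ∈ A} := mx hA
    have h2 : MeasurableSet {p : (ℝ × ℝ) × ((ℝ × ℝ) × (ℝ × ℝ)) | p.2.2 ∈ A} := mz hA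
    have e : {p : (ℝ × ℝ) × ((ℝ × ℝ) × (ℝ × ℝ)) | ¬ (p.2.1 ∈ A ↔ p.2.2 ∈ A)} =
        ({p : (ℝ × ℝ) × ((ℝ × ℝ) × (ℝ × ℝ)) | p.2.1 ∈ A} \
          {p : (ℝ × ℝ) × ((ℝ × ℝ) × (ℝ × ℝ)) | p.2.2 ∈ A}) ∪
        ({p : (ℝ × ℝ) × ((ℝ × ℝ) × (ℝ × ℝ)) | p.2.2 ∈ A} \
          {p : (ℝ × ℝ) × ((ℝ × ℝ) × (ℝ × ℝ)) | p.2.1 ∈ A}) := by
      ext p
      simp only [Set.mem_setOf_eq, Set.mem_union, Set.mem_diff]
      tauto
    rw [e]
    exact (h1.diff h2).union (h2.diff h1)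
  have mF : ∀ k k', Measurable (F k k') := by
    intro k k'
    refine ((D.meas_wt n k).comp mx).mul (((D.meas_wt n k').comp mz).mul ?_)
    exact measurable_ind (((D.closed_pair κ θ n k k').measurableSet).inter hset)
  set T : (ℝ × ℝ) × ((ℝ × ℝ) × (ℝ × ℝ)) → ℝ≥0∞ := fun p =>
    ∑ k ∈ Rn M R n, ∑ k' ∈ Rn M R n, F k k' p with hT
  have mT : Measurable T :=
    Finset.measurable_fun_sum _ fun k _ => Finset.measurable_fun_sum _ fun k' _ => mF k k'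
  -- pointwise bound
  have hpt : ∀ x z : ℝ × ℝ, 1 / 4 * ind (¬ (x ∈ A ↔ z ∈ A)) ≤
      ∫⁻ a, ∫⁻ a', T ((a, a'), (x, z)) ∂ν ∂ν := by
    intro x z
    by_cases hxz : ¬ (x ∈ A ↔ z ∈ A)
    · rw [ind_pos hxz, mul_one]
      refine (hl x z).trans (le_of_eq ?_)
      have mF' : ∀ k k' (a : ℝ), Measurable fun a' : ℝ => F k k' ((a, a'), (x, z)) :=
        fun k k' a => (mF k k').comp
          ((measurable_const.prodMk measurable_id).prodMk measurable_const)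
      have mF2 : ∀ k k', Measurable fun a : ℝ => ∫⁻ a', F k k' ((a, a'), (x, z)) ∂ν := by
        intro k k'
        have : Measurable fun q : ℝ × ℝ => F k k' (q, (x, z)) :=
          (mF k k').comp (measurable_id.prodMk measurable_const)
        exact this.lintegral_prod_right'
      have s1 : ∀ a : ℝ, ∫⁻ a', T ((a, a'), (x, z)) ∂ν =
          ∑ k ∈ Rn M R n, ∑ k' ∈ Rn M R n, ∫⁻ a', F k k' ((a, a'), (x, z)) ∂ν := by
        intro a
        simp only [hT]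
        rw [lintegral_finsetSum _ fun k _ => Finset.measurable_fun_sum _ fun k' _ => mF' k k' a]
        refine Finset.sum_congr rfl fun k _ => ?_
        rw [lintegral_finsetSum _ fun k' _ => mF' k k' a]
      simp only [s1]
      rw [lintegral_finsetSum _ fun k _ => Finset.measurable_fun_sum _ fun k' _ => mF2 k k']
      refine Finset.sum_congr rfl fun k _ => ?_
      rw [lintegral_finsetSum _ fun k' _ => mF2 k k']
      refine Finset.sum_congr rfl fun k' _ => ?_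
      have mI : ∀ a : ℝ, Measurable fun a' : ℝ => ind (Pair G H lam κ θ n k k' a a' x z) :=
        fun a => measurable_ind (((measurable_const.prodMk measurable_id).prodMk
          measurable_const : Measurable fun a' : ℝ => (((a, a'), (x, z)) :
            (ℝ × ℝ) × ((ℝ × ℝ) × (ℝ × ℝ)))) (D.closed_pair κ θ n k k').measurableSet)
      have mI2 : Measurable fun a : ℝ =>
          ∫⁻ a', ind (Pair G H lam κ θ n k k' a a' x z) ∂ν := by
        have : Measurable fun q : ℝ × ℝ => ind (Pair G H lam κ θ n k k' q.1 q.2 x z) :=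
          measurable_ind ((measurable_id.prodMk measurable_const :
            Measurable fun q : ℝ × ℝ => ((q, (x, z)) : (ℝ × ℝ) × ((ℝ × ℝ) × (ℝ × ℝ))))
              (D.closed_pair κ θ n k k').measurableSet)
        exact this.lintegral_prod_right'
      have e1 : ∀ a a' : ℝ, F k k' ((a, a'), (x, z)) =
          ENNReal.ofReal (wt H n (x + zc k)) * (ENNReal.ofReal (wt H n (z + zc k')) *
            ind (Pair G H lam κ θ n k k' a a' x z)) := by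
        intro a a'
        simp only [hF]
        rw [ind_and, ind_pos hxz, mul_one]
      simp only [e1]
      have e2 : ∀ a : ℝ, ∫⁻ a', ENNReal.ofReal (wt H n (x + zc k)) *
          (ENNReal.ofReal (wt H n (z + zc k')) *
            ind (Pair G H lam κ θ n k k' a a' x z)) ∂ν =
          ENNReal.ofReal (wt H n (x + zc k)) * (ENNReal.ofReal (wt H n (z + zc k')) *
            ∫⁻ a', ind (Pair G H lam κ θ n k k' a a' x z) ∂ν) := by
        intro a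
        rw [lintegral_const_mul _ ((mI a).const_mul _), lintegral_const_mul _ (mI a)]
      simp only [e2]
      rw [lintegral_const_mul _ (mI2.const_mul _), lintegral_const_mul _ mI2]
    · rw [ind_neg hxz, mul_zero]
      exact zero_le
  -- Tonelli
  have h1 : 1 / 4 * ∫⁻ z, ∫⁻ x, ind (¬ (x ∈ A ↔ z ∈ A)) ∂μ ∂μ ≤
      ∫⁻ z, ∫⁻ x, ∫⁻ a, ∫⁻ a', T ((a, a'), (x, z)) ∂ν ∂ν ∂μ ∂μ := by
    refine (lintegral_const_mul_le _ _).trans (lintegral_mono fun z => ?_)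
    refine (lintegral_const_mul_le _ _).trans (lintegral_mono fun x => ?_)
    exact hpt x z
  rw [asm_ton T mT] at h1
  refine h1.trans ?_
  have s2 : ∀ a a' : ℝ, ∫⁻ z, ∫⁻ x, T ((a, a'), (x, z)) ∂μ ∂μ =
      ∑ k ∈ Rn M R n, ∑ k' ∈ Rn M R n, ∫⁻ z, ∫⁻ x, F k k' ((a, a'), (x, z)) ∂μ ∂μ := by
    intro a a'
    have mG : ∀ k k' (z : ℝ × ℝ), Measurable fun x : ℝ × ℝ => F k k' ((a, a'), (x, z)) :=
      fun k k' z => (mF k k').comp (measurable_const.prodMk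
        (measurable_id.prodMk measurable_const))
    have mG2 : ∀ k k', Measurable fun z : ℝ × ℝ => ∫⁻ x, F k k' ((a, a'), (x, z)) ∂μ := by
      intro k k'
      have : Measurable fun q : (ℝ × ℝ) × (ℝ × ℝ) => F k k' ((a, a'), (q.2, q.1)) :=
        (mF k k').comp (measurable_const.prodMk (measurable_snd.prodMk measurable_fst))
      exact this.lintegral_prod_right'
    have s3 : ∀ z : ℝ × ℝ, ∫⁻ x, T ((a, a'), (x, z)) ∂μ =
        ∑ k ∈ Rn M R n, ∑ k' ∈ Rn M R n, ∫⁻ x, F k k' ((a, a'), (x, z)) ∂μ := by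
      intro z
      simp only [hT]
      rw [lintegral_finsetSum _ fun k _ => Finset.measurable_fun_sum _ fun k' _ => mG k k' z]
      refine Finset.sum_congr rfl fun k _ => ?_
      rw [lintegral_finsetSum _ fun k' _ => mG k k' z]
    simp only [s3]
    rw [lintegral_finsetSum _ fun k _ => Finset.measurable_fun_sum _ fun k' _ => mG2 k k']
    refine Finset.sum_congr rfl fun k _ => ?_
    rw [lintegral_finsetSum _ fun k' _ => mG2 k k']
  simp only [s2]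
  have h5 : ∫⁻ a, ∫⁻ a', ∑ k ∈ Rn M R n, ∑ k' ∈ Rn M R n,
      ∫⁻ z, ∫⁻ x, F k k' ((a, a'), (x, z)) ∂μ ∂μ ∂ν ∂ν ≤
      ∫⁻ _ in Set.Icc (0 : ℝ) 1, ∫⁻ _ in Set.Icc (0 : ℝ) 1, E := by
    refine setLIntegral_mono' measurableSet_Icc fun a ha => ?_
    refine setLIntegral_mono' measurableSet_Icc fun a' ha' => ?_
    exact hup a ha a' ha'
  refine h5.trans (le_of_eq ?_)
  simp

theorem asm (D : Dat M R G H H' K K₂ lam s C) : ∃ ρ : ℝ, 0 < ρ ∧ ∀ A : Set (ℝ × ℝ),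
    MeasurableSet A → (∀ z k, z + zc k ∈ A ↔ z ∈ A) → G ⁻¹' A = A → ∀ x0 : ℝ × ℝ,
      ∫⁻ z in Metric.closedBall x0 ρ, ∫⁻ x in Metric.closedBall x0 ρ,
        ind (¬ (x ∈ A ↔ z ∈ A)) = 0 := by
  obtain ⟨κ, θ, r, ρ, P, hl⟩ := par D
  refine ⟨ρ, P.ρ0, ?_⟩
  intro A hA hper hinv x0
  set J := ∫⁻ z in Metric.closedBall x0 ρ, ∫⁻ x in Metric.closedBall x0 ρ,
        ind (¬ (x ∈ A ↔ z ∈ A)) with hJ
  have key : ∀ ε : ℝ, 0 < ε → 1 / 4 * J ≤ ENNReal.ofReal ε := by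
    intro ε hε
    obtain ⟨φ, hφ, hφp, hap⟩ := apx hA hper (show 0 < ε / 24 by positivity)
    obtain ⟨om, hom, hU⟩ := uc_per hφ hφp (show (0 : ℝ) < 1 / 8 by norm_num)
    have hk : 0 < om * κ := mul_pos hom P.κ0
    obtain ⟨n, hn⟩ := pow_unbounded_of_one_lt (2 * r / (om * κ)) D.lam1
    have hn2 : 2 * r ≤ om * (κ * lam ^ (3 * n)) := by
      rw [div_lt_iff₀ hk] at hn
      have h1 : lam ^ n ≤ lam ^ (3 * n) := pow_le_pow_right₀ D.lam1.le (by omega)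
      have h2 : lam ^ n * (om * κ) ≤ lam ^ (3 * n) * (om * κ) :=
        mul_le_mul_of_nonneg_right h1 hk.le
      nlinarith
    have hU' : ∀ y y' : ℝ × ℝ, ‖y' - y‖ ≤ om → |φ y' - φ y| ≤ 1 / 8 := by
      intro y y' h
      have := hU y y' h
      rwa [Real.norm_eq_abs] at this
    have h3 := asm1 D P n (hl n) hA x0
      (E := 24 * ∫⁻ y in Q, ENNReal.ofReal |inR A y - φ y|)
      (fun a ha a' ha' => upb D P hA hper hinv hφ hφp hU' n hn2 ha ha' x0)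
    refine h3.trans ?_
    calc 24 * ∫⁻ y in Q, ENNReal.ofReal |inR A y - φ y|
        ≤ 24 * ENNReal.ofReal (ε / 24) := by gcongr
      _ = ENNReal.ofReal 24 * ENNReal.ofReal (ε / 24) := by norm_num
      _ = ENNReal.ofReal ε := by
        rw [← ENNReal.ofReal_mul (by norm_num)]
        congr 1
        ring
  have h4 : 1 / 4 * J ≤ 0 := by
    refine ENNReal.le_of_forall_pos_le_add fun ε hε _ => ?_
    rw [zero_add]
    have := key (ε : ℝ) (by exact_mod_cast hε)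
    rwa [ENNReal.ofReal_coe_nnreal] at this
  have h5 : 1 / 4 * J = 0 := nonpos_iff_eq_zero.1 h4
  rcases mul_eq_zero.1 h5 with h | h
  · exfalso
    rw [ENNReal.div_eq_zero_iff] at h
    rcases h with h | h
    · exact one_ne_zero h
    · exact absurd h (by norm_num)
  · exact h

end Pool.Agent.ERG
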