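import Pool.Agent.ERG.Cha

/-!
# Module Bra (size 4): the branch sums, recursion at the first step

`Rn_inj`: on `R ×ˢ Rn n` (even on `R ×ˢ univ`) the map `p ↦ p.1 + mv M p.2` is injective: if
`m + mv M k = m' + mv M k'` then `m = m' + mv M (k' - k)` (`mvL` in NUH/Resid.lean is the linear map `mv M`), so `m = m'` by
`D.uniq`, and `mv M k = mv M k'`, `k = k'` (`mvL_inj D.det0`).
`Sm_succ`: `Finset.sum_image`, `Finset.sum_product`. For `X = z + zc (m + mv M k) = z + zc m + zc (mv M k)` (`zc_add`):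
`H X = H (z + zc m) + zc k` (`D.lift.perH`), `Dn H (n+1) X = (Dn H n (H X)).comp (H' X)` and `H' X = H' (z + zc m)`
(`D.lift.perH'`), so `wt H (n+1) X = wt H n (H (z + zc m) + zc k) * |(H' (z + zc m)).det|`; and
`X = G (H X) = G (H (z + zc m) + zc k)`.
`Sm_one`: induction with `Sm_succ` and `D.mass` (`ENNReal.ofReal_sum_of_nonneg`).
-/

set_option autoImplicit false

namespace Pool.Agent.ERG

open Pool.Agent.NUH MeasureTheory Filter Topology
open scoped ENNReal ContDiff NNReal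

variable {M : Mt} {R : Finset (ℤ × ℤ)} {G H : ℝ × ℝ → ℝ × ℝ}
  {H' : ℝ × ℝ → (ℝ × ℝ →L[ℝ] ℝ × ℝ)} {K K₂ lam s C : ℝ}

theorem Rn_inj (D : Dat M R G H H' K K₂ lam s C) (n : ℕ) :
    Set.InjOn (fun p : (ℤ × ℤ) × (ℤ × ℤ) => p.1 + mv M p.2) (R ×ˢ Rn M R n : Finset _) := by
  rintro ⟨m, k⟩ hp ⟨m', k'⟩ hp' h
  rw [Finset.mem_coe, Finset.mem_product] at hp hp'
  obtain ⟨hm, _⟩ := hp
  obtain ⟨hm', _⟩ := hp'
  simp only at h hm hm'
  have e1 : m = m' + mv M (k' - k) := by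
    rw [← mvL_apply, map_sub, mvL_apply, mvL_apply]
    rw [← eq_sub_iff_add_eq] at h
    rw [h]; abel
  have e2 : m = m' := D.uniq m hm m' hm' _ e1
  subst e2
  have e3 : mvL M k = mvL M k' := add_left_cancel h
  have e4 := mvL_inj D.det0 e3
  rw [e4]

theorem Sm_zero (D : Dat M R G H H' K K₂ lam s C) (Ψ : ℝ × ℝ → ℝ≥0∞) (z : ℝ × ℝ) :
    Sm M R H 0 Ψ z = Ψ z := by
  unfold Sm
  have h0 : zc (0 : ℤ × ℤ) = 0 := by unfold zc; ext <;> simp
  have hw : wt H 0 (z + zc 0) = 1 := by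
    unfold wt
    rw [Dn_zero]
    have : (ContinuousLinearMap.id ℝ (ℝ × ℝ)).det = 1 := by
      unfold ContinuousLinearMap.det
      simp
    rw [this, abs_one]
  show ∑ k ∈ ({0} : Finset (ℤ × ℤ)), _ = _
  rw [Finset.sum_singleton, hw, h0, add_zero, ENNReal.ofReal_one, one_mul]

theorem Sm_succ (D : Dat M R G H H' K K₂ lam s C) (n : ℕ) (Ψ : ℝ × ℝ → ℝ≥0∞) (z : ℝ × ℝ) :
    Sm M R H (n + 1) Ψ z = ∑ m ∈ R, ENNReal.ofReal |(H' (z + zc m)).det| *
      Sm M R H n (fun X => Ψ (G X)) (H (z + zc m)) := by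
  have hd : ∀ m k : ℤ × ℤ, wt H (n + 1) (z + zc (m + mv M k)) =
      |(H' (z + zc m)).det| * wt H n (H (z + zc m) + zc k) := by
    intro m k
    unfold wt
    rw [Dn_add D.diffH n 1, Function.iterate_one, zc_add, ← add_assoc, D.lift.perH]
    have e : Dn H 1 (z + zc m + zc (mv M k)) = H' (z + zc m) := by
      unfold Dn
      rw [Function.iterate_one, D.fderivH, D.lift.perH']
    rw [e]
    have e2 : ((Dn H n (H (z + zc m) + zc k)).comp (H' (z + zc m))).det =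
        (Dn H n (H (z + zc m) + zc k)).det * (H' (z + zc m)).det := by
      unfold ContinuousLinearMap.det
      exact LinearMap.det_comp _ _
    rw [e2, abs_mul, mul_comm]
  have hX : ∀ m k : ℤ × ℤ, z + zc (m + mv M k) = G (H (z + zc m) + zc k) := by
    intro m k
    rw [D.lift.per, D.lift.right, zc_add, ← add_assoc]
  unfold Sm
  show ∑ k ∈ ((R ×ˢ Rn M R n).image fun p => p.1 + mv M p.2), _ = _
  rw [Finset.sum_image (Rn_inj D n), Finset.sum_product]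
  refine Finset.sum_congr rfl fun m _ => ?_
  rw [Finset.mul_sum]
  refine Finset.sum_congr rfl fun k _ => ?_
  simp only
  rw [hd, ENNReal.ofReal_mul (abs_nonneg _), hX, mul_assoc]

theorem Sm_mass (D : Dat M R G H H' K K₂ lam s C) (x : ℝ × ℝ) :
    ∑ m ∈ R, ENNReal.ofReal |(H' (x + zc m)).det| = 1 := by
  rw [← ENNReal.ofReal_sum_of_nonneg (fun m _ => abs_nonneg _), D.mass, ENNReal.ofReal_one]

theorem Sm_one (D : Dat M R G H H' K K₂ lam s C) (n : ℕ) (z : ℝ × ℝ) :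
    Sm M R H n (fun _ => 1) z = 1 := by
  induction n generalizing z with
  | zero => exact Sm_zero D _ z
  | succ n ih =>
    rw [Sm_succ D n _ z]
    simp only [ih, mul_one]
    exact Sm_mass D z

theorem Sm_mono (n : ℕ) {Ψ Ψ' : ℝ × ℝ → ℝ≥0∞} {z : ℝ × ℝ}
    (h : ∀ k : ℤ × ℤ, Ψ (z + zc k) ≤ Ψ' (z + zc k)) : Sm M R H n Ψ z ≤ Sm M R H n Ψ' z := by
  exact Finset.sum_le_sum fun k _ => mul_le_mul_right (h k) _

theorem Sm_add_fun (n : ℕ) (Ψ Ψ' : ℝ × ℝ → ℝ≥0∞) (z : ℝ × ℝ) :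
    Sm M R H n (fun X => Ψ X + Ψ' X) z = Sm M R H n Ψ z + Sm M R H n Ψ' z := by
  unfold Sm
  rw [← Finset.sum_add_distrib]
  exact Finset.sum_congr rfl fun k _ => mul_add _ _ _

theorem Sm_mul (n : ℕ) (c : ℝ≥0∞) (Ψ : ℝ × ℝ → ℝ≥0∞) (z : ℝ × ℝ) :
    Sm M R H n (fun X => c * Ψ X) z = c * Sm M R H n Ψ z := by
  unfold Sm
  rw [Finset.mul_sum]
  exact Finset.sum_congr rfl fun k _ => by ring

theorem Sm_sum (n : ℕ) {ι : Type} (t : Finset ι) (Ψ : ι → ℝ × ℝ → ℝ≥0∞) (z : ℝ × ℝ) :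
    Sm M R H n (fun X => ∑ i ∈ t, Ψ i X) z = ∑ i ∈ t, Sm M R H n (Ψ i) z := by
  unfold Sm
  rw [Finset.sum_comm]
  exact Finset.sum_congr rfl fun k _ => Finset.mul_sum _ _ _

theorem Sm_const (D : Dat M R G H H' K K₂ lam s C) (n : ℕ) (c : ℝ≥0∞) (z : ℝ × ℝ) :
    Sm M R H n (fun _ => c) z = c := by
  have h := Sm_mul (M := M) (R := R) (H := H) n c (fun _ => 1) z
  rw [Sm_one D n z, mul_one] at h
  simpa using h

end Pool.Agent.ERG
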