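import Pool.Agent.ERG.Bra

/-!
# Module Brb (size 3): composition of the branch sums

`Sm_comp`: induction over `m` with `Sm_succ` (the formula for `m + 1`:
`Sm (m+1+n) Ψ z = ∑_{r ∈ R} w_r Sm (m+n) (Ψ ∘ G) (H (z + zc r))` and the induction hypothesis for `Ψ ∘ G` at `H (z + zc r)`; the
right side for `m + 1` is the branch sum of order `m + 1` of
`Ψ' X = Sm n (fun Y => Ψ (G^[m+1] Y)) (H^[m+1] X)`, expand it with `Sm_succ` as well: `Ψ' (G X) = Sm n (fun Y => Ψ (G^[m+1] Y)) (H^[m] X)`).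
So it is convenient to state it as `Sm (m+n) Ψ z = Sm m (fun X => Sm n (fun Y => Ψ (G^[m] Y)) (H^[m] X)) z`, with `G^[m+1] Y =
G^[m] (G Y)`.
`Sm_per`: a `ℤ²`-periodic function is constant on `z + zc k`; `Sm_one`.
`Sm_low`: `Ψ` is periodic modulo `M^i ℤ²`. By `Sm_comp` with `j = i + n`: the inner sum is
`Sm n (fun Y => Ψ (G^[i] Y)) (H^[i] X)`, and `Y ↦ Ψ (G^[i] Y)` is `ℤ²`-periodic (`D.perG`), so by `Sm_per` it equals
`Ψ (G^[i] (H^[i] X)) = Ψ X`.
`LE_Sm`: induction over `n`, `Function.iterate_succ_apply'`: `LE^{n+1} Ψ x v = ∑_m w_m (LE^n Ψ) (H (x + zc m)) (H' (x + zc m) v)`,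
and for `X = x + zc m + zc (mv M k)`: `H^[n+1] X = H^[n] (H X)`, `Dn H (n+1) X = (Dn H n (H X)).comp (H' X)`. No periodicity of `Ψ` is
needed: expand the right side with `Sm_succ`: `Dn H (n+1) (G Y) = (Dn H n Y).comp (H' (G Y))`, and for `Y = H (x + zc m) + zc k`
one has `G Y = x + zc m + zc (mv M k)`, `H' (G Y) = H' (x + zc m)`.
-/

set_option autoImplicit false

namespace Pool.Agent.ERG

open Pool.Agent.NUH MeasureTheory Filter Topology
open scoped ENNReal ContDiff NNReal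

variable {M : Mt} {R : Finset (ℤ × ℤ)} {G H : ℝ × ℝ → ℝ × ℝ}
  {H' : ℝ × ℝ → (ℝ × ℝ →L[ℝ] ℝ × ℝ)} {K K₂ lam s C : ℝ}

private theorem Sm_congr_Brb (n : ℕ) {Ψ Ψ' : ℝ × ℝ → ℝ≥0∞} {z : ℝ × ℝ}
    (h : ∀ k : ℤ × ℤ, Ψ (z + zc k) = Ψ' (z + zc k)) : Sm M R H n Ψ z = Sm M R H n Ψ' z := by
  unfold Sm
  exact Finset.sum_congr rfl fun k _ => by rw [h k]

theorem Sm_comp (D : Dat M R G H H' K K₂ lam s C) (m n : ℕ) (Ψ : ℝ × ℝ → ℝ≥0∞) (z : ℝ × ℝ) :
    Sm M R H (m + n) Ψ z =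
      Sm M R H m (fun X => Sm M R H n (fun Y => Ψ (G^[m] Y)) (H^[m] X)) z := by
  induction m generalizing Ψ z with
  | zero =>
    rw [Nat.zero_add, Sm_zero D]
    rfl
  | succ m ih =>
    have e : m + 1 + n = (m + n) + 1 := by omega
    rw [e, Sm_succ D (m + n), Sm_succ D m]
    refine Finset.sum_congr rfl fun r _ => ?_
    rw [ih]
    congr 1
    refine Sm_congr_Brb m fun k => ?_
    simp only [Function.iterate_succ_apply' (f := G), Function.iterate_succ_apply (f := H),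
      D.lift.left]

theorem Sm_per (D : Dat M R G H H' K K₂ lam s C) (n : ℕ) {Ψ : ℝ × ℝ → ℝ≥0∞}
    (h : ∀ X k, Ψ (X + zc k) = Ψ X) (z : ℝ × ℝ) : Sm M R H n Ψ z = Ψ z := by
  rw [Sm_congr_Brb (Ψ' := fun _ => Ψ z) n fun k => h z k, Sm_const D]

theorem Sm_low (D : Dat M R G H H' K K₂ lam s C) {i j : ℕ} (hij : i ≤ j) {Ψ : ℝ × ℝ → ℝ≥0∞}
    (h : ∀ X k, Ψ (X + zc ((mv M)^[i] k)) = Ψ X) (z : ℝ × ℝ) : Sm M R H j Ψ z = Sm M R H i Ψ z := by
  obtain ⟨n, rfl⟩ := Nat.exists_eq_add_of_le hij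
  rw [Sm_comp D]
  refine Sm_congr_Brb i fun k => ?_
  rw [Sm_per D n (Ψ := fun Y => Ψ (G^[i] Y)) (fun X k => by rw [D.perG, h]), D.GH]

theorem LE_Sm (D : Dat M R G H H' K K₂ lam s C) (n : ℕ) (Ψ : ℝ × ℝ → ℝ × ℝ → ℝ≥0∞)
    (x v : ℝ × ℝ) :
    (LE R H H')^[n] Ψ x v = Sm M R H n (fun X => Ψ (H^[n] X) (Dn H n X v)) x := by
  induction n generalizing x v with
  | zero =>
    rw [Sm_zero D, Dn_zero]
    rfl
  | succ n ih =>
    rw [Function.iterate_succ_apply', Sm_succ D]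
    show ∑ m ∈ R, ENNReal.ofReal |(H' (x + zc m)).det| *
      (LE R H H')^[n] Ψ (H (x + zc m)) (H' (x + zc m) v) = _
    refine Finset.sum_congr rfl fun m _ => ?_
    rw [ih]
    congr 1
    refine Sm_congr_Brb n fun k => ?_
    have e1 : G (H (x + zc m) + zc k) = x + zc m + zc (mv M k) := by
      rw [D.lift.per, D.lift.right]
    have e2 : Dn H 1 (x + zc m + zc (mv M k)) = H' (x + zc m) := by
      have : Dn H 1 (x + zc m + zc (mv M k)) = fderiv ℝ H (x + zc m + zc (mv M k)) := rfl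
      rw [this, D.fderivH, D.lift.perH']
    have e3 : H (x + zc m + zc (mv M k)) = H (x + zc m) + zc k := D.lift.perH _ _
    have e4 : Dn H (n + 1) (x + zc m + zc (mv M k)) v =
        Dn H n (H (x + zc m) + zc k) (H' (x + zc m) v) := by
      rw [Dn_add D.diffH n 1, e2, Function.iterate_one, e3]
      rfl
    rw [e1, e4, Function.iterate_succ_apply, e3]

/-- `z ↦ Sm n (φ ∘ H^[n]) z` is periodic: it is `(LE R H H')^[n] (fun x _ => φ x) z v` (`LE_Sm`) and `LE` preserves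
periodicity (`LE_per` in NUH/Cocyc.lean, with `D.lift`, `D.resE`; induction over `n`). -/
theorem Sm_perz (D : Dat M R G H H' K K₂ lam s C) (n : ℕ) {φ : ℝ × ℝ → ℝ≥0∞}
    (hφ : ∀ z k, φ (z + zc k) = φ z) (z : ℝ × ℝ) (k : ℤ × ℤ) :
    Sm M R H n (fun X => φ (H^[n] X)) (z + zc k) = Sm M R H n (fun X => φ (H^[n] X)) z := by
  have hp : ∀ n : ℕ, ∀ x k v, (LE R H H')^[n] (fun x _ => φ x) (x + zc k) v =
      (LE R H H')^[n] (fun x _ => φ x) x v := by
    intro n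
    induction n with
    | zero => exact fun x k _ => hφ x k
    | succ n ih =>
      intro x k v
      rw [Function.iterate_succ_apply']
      exact LE_per D.lift D.resE ih x k v
  have h1 := LE_Sm D n (fun x _ => φ x) (z + zc k) 0
  have h2 := LE_Sm D n (fun x _ => φ x) z 0
  rw [← h1, ← h2, hp]

/-- the negative moments in terms of the branch sums: `LE_Sm` with `Ψ = psE s`, and `D.mom` -/
theorem Sm_mom (D : Dat M R G H H' K K₂ lam s C) (n : ℕ) (z : ℝ × ℝ) {q : ℝ × ℝ} (hq : q ≠ 0) :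
    Sm M R H n (fun X => ENNReal.ofReal (‖Dn H n X q‖ ^ (-s))) z ≤
      ENNReal.ofReal (C * ‖q‖ ^ (-s)) := by
  have h1 := LE_Sm D n (psE s) z q
  have h2 := D.mom n z q hq
  rw [h1] at h2
  rw [ENNReal.ofReal_mul (by linarith [D.C1])]
  exact h2

end Pool.Agent.ERG
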