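import Pool.Agent.ERG.Defs

/-!
# Module Cha (size 3): chain rules, inverses, periodicity, continuity and bounds for the iterates

`Dn_add`: `F^[m+n] = F^[m] ∘ F^[n]` (`Function.iterate_add`), `fderiv_comp`, `Differentiable.iterate`.
`H` is differentiable by `D.lift.deriv`, with `fderiv ℝ H x = H' x`. `HG`, `GH`: induction (`D.lift.left`,
`D.lift.right`; `Function.LeftInverse.iterate`). `DHDG`: differentiate `H^[n] ∘ G^[n] = id` (compare
`Lift.deriv_left` in `NUH/PertInv.lean`). `perG`, `perDG`: `iter_per`, `fderiv_iter_per` in `NUH/Conj.lean`;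
`perH` from `perG` by applying `H^[n]`; `perDH` as in `Lift.perH'`. Continuity: `Dn F (n+1) = DF(F^[n]) ∘ Dn F n`,
induction, `ContDiff.continuous_fderiv` for `G`, `D.lift.contH'` for `H` (or the continuity of `fderiv` of an iterate
of a `C¹` map, `ContDiff.iterate`). Determinants: `LinearMap.det_comp`, as in `one_le_det_iter` of `NUH/Cocyc.lean`:
`lam ^ (8 n) ≤ |det D_y G^n|`; `det(D_y G^n) det(D_{G^n y} H^n) = 1`. `normDG_ge`: `|det A| ≤ 2 ‖A‖ ^ 2`
(`det_bound` in `NUH/Unif.lean`), so `lam ^ (8 n) ≤ 2 ‖A‖ ^ 2 ≤ (2 ‖A‖) ^ 2`.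
-/

set_option autoImplicit false

namespace Pool.Agent.ERG

open Pool.Agent.NUH MeasureTheory Filter Topology
open scoped ENNReal ContDiff NNReal

theorem Dn_zero (F : ℝ × ℝ → ℝ × ℝ) (x : ℝ × ℝ) : Dn F 0 x = ContinuousLinearMap.id ℝ (ℝ × ℝ) := by
  unfold Dn
  rw [Function.iterate_zero, fderiv_id]

theorem Dn_add {F : ℝ × ℝ → ℝ × ℝ} (hF : Differentiable ℝ F) (m n : ℕ) (x : ℝ × ℝ) :
    Dn F (m + n) x = (Dn F m (F^[n] x)).comp (Dn F n x) := by
  unfold Dn
  have hm : Differentiable ℝ (F^[m]) := hF.iterate m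
  have hn : Differentiable ℝ (F^[n]) := hF.iterate n
  rw [Function.iterate_add, fderiv_comp x (hm _) (hn x)]

variable {M : Mt} {R : Finset (ℤ × ℤ)} {G H : ℝ × ℝ → ℝ × ℝ}
  {H' : ℝ × ℝ → (ℝ × ℝ →L[ℝ] ℝ × ℝ)} {K K₂ lam s C : ℝ}

theorem Dat.diffG (D : Dat M R G H H' K K₂ lam s C) : Differentiable ℝ G :=
  D.smooth.differentiable one_ne_zero

theorem Dat.diffH (D : Dat M R G H H' K K₂ lam s C) : Differentiable ℝ H :=
  fun x => (D.lift.deriv x).differentiableAt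

theorem Dat.fderivH (D : Dat M R G H H' K K₂ lam s C) (x : ℝ × ℝ) : fderiv ℝ H x = H' x :=
  (D.lift.deriv x).fderiv

theorem Dat.contGn (D : Dat M R G H H' K K₂ lam s C) (n : ℕ) : Continuous (G^[n]) :=
  D.lift.contΦ.iterate n

theorem Dat.contHn (D : Dat M R G H H' K K₂ lam s C) (n : ℕ) : Continuous (H^[n]) :=
  D.lift.contH.iterate n

theorem Dat.HG (D : Dat M R G H H' K K₂ lam s C) (n : ℕ) (y : ℝ × ℝ) : H^[n] (G^[n] y) = y :=
  Function.LeftInverse.iterate D.lift.left n y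

theorem Dat.GH (D : Dat M R G H H' K K₂ lam s C) (n : ℕ) (X : ℝ × ℝ) : G^[n] (H^[n] X) = X :=
  Function.LeftInverse.iterate D.lift.right n X

theorem Dat.DHDG (D : Dat M R G H H' K K₂ lam s C) (n : ℕ) (y v : ℝ × ℝ) :
    Dn H n (G^[n] y) (Dn G n y v) = v := by
  have hG : Differentiable ℝ (G^[n]) := D.diffG.iterate n
  have hH : Differentiable ℝ (H^[n]) := D.diffH.iterate n
  have h1 : HasFDerivAt (fun y => H^[n] (G^[n] y)) ((Dn H n (G^[n] y)).comp (Dn G n y)) y :=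
    (hH (G^[n] y)).hasFDerivAt.comp y (hG y).hasFDerivAt
  have h2 : HasFDerivAt (fun y => H^[n] (G^[n] y)) (ContinuousLinearMap.id ℝ (ℝ × ℝ)) y := by
    have : (fun y => H^[n] (G^[n] y)) = id := by funext y; exact D.HG n y
    rw [this]; exact hasFDerivAt_id y
  have h3 := h1.unique h2
  have := congrArg (fun A : ℝ × ℝ →L[ℝ] ℝ × ℝ => A v) h3
  exact this

theorem Dat.DGDH (D : Dat M R G H H' K K₂ lam s C) (n : ℕ) (X v : ℝ × ℝ) :
    Dn G n (H^[n] X) (Dn H n X v) = v := by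
  have hG : Differentiable ℝ (G^[n]) := D.diffG.iterate n
  have hH : Differentiable ℝ (H^[n]) := D.diffH.iterate n
  have h1 : HasFDerivAt (fun y => G^[n] (H^[n] y)) ((Dn G n (H^[n] X)).comp (Dn H n X)) X :=
    (hG (H^[n] X)).hasFDerivAt.comp X (hH X).hasFDerivAt
  have h2 : HasFDerivAt (fun y => G^[n] (H^[n] y)) (ContinuousLinearMap.id ℝ (ℝ × ℝ)) X := by
    have : (fun y => G^[n] (H^[n] y)) = id := by funext y; exact D.GH n y
    rw [this]; exact hasFDerivAt_id X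
  have h3 := h1.unique h2
  have := congrArg (fun A : ℝ × ℝ →L[ℝ] ℝ × ℝ => A v) h3
  exact this

theorem Dat.DHDG' (D : Dat M R G H H' K K₂ lam s C) (n : ℕ) (X v : ℝ × ℝ) :
    Dn H n X (Dn G n (H^[n] X) v) = v := by
  have h := D.DHDG n (H^[n] X) v
  rwa [D.GH] at h

theorem Dat.perG (D : Dat M R G H H' K K₂ lam s C) (n : ℕ) (z : ℝ × ℝ) (k : ℤ × ℤ) :
    G^[n] (z + zc k) = G^[n] z + zc ((mv M)^[n] k) :=
  iter_per D.lift.per n z k

theorem Dat.perH (D : Dat M R G H H' K K₂ lam s C) (n : ℕ) (X : ℝ × ℝ) (k : ℤ × ℤ) :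
    H^[n] (X + zc ((mv M)^[n] k)) = H^[n] X + zc k := by
  have h := D.perG n (H^[n] X) k
  rw [D.GH] at h
  rw [← h, D.HG]

theorem Dat.perDG (D : Dat M R G H H' K K₂ lam s C) (n : ℕ) (z : ℝ × ℝ) (k : ℤ × ℤ) :
    Dn G n (z + zc k) = Dn G n z :=
  fderiv_iter_per D.lift.per D.diffG n z k

theorem Dat.perDH (D : Dat M R G H H' K K₂ lam s C) (n : ℕ) (X : ℝ × ℝ) (k : ℤ × ℤ) :
    Dn H n (X + zc ((mv M)^[n] k)) = Dn H n X := by
  have hH : Differentiable ℝ (H^[n]) := D.diffH.iterate n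
  have h1 : HasFDerivAt (fun y => H^[n] (y + zc ((mv M)^[n] k)))
      (Dn H n (X + zc ((mv M)^[n] k))) X := by
    have := (hH (X + zc ((mv M)^[n] k))).hasFDerivAt.comp X
      ((hasFDerivAt_id X).add_const (zc ((mv M)^[n] k)))
    rw [ContinuousLinearMap.comp_id] at this
    exact this
  have h2 : HasFDerivAt (fun y => H^[n] (y + zc ((mv M)^[n] k))) (Dn H n X) X := by
    have : (fun y => H^[n] (y + zc ((mv M)^[n] k))) = fun y => H^[n] y + zc k := by
      funext y; exact D.perH n y k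
    rw [this]
    exact (hH X).hasFDerivAt.add_const _
  exact h1.unique h2

private theorem cha_iter {F : ℝ × ℝ → ℝ × ℝ} (hF : ContDiff ℝ 1 F) (n : ℕ) :
    ContDiff ℝ 1 (F^[n]) := by
  induction n with
  | zero => exact contDiff_id
  | succ n ih =>
    rw [Function.iterate_succ]
    exact ih.comp hF

theorem Dat.contDG (D : Dat M R G H H' K K₂ lam s C) (n : ℕ) : Continuous (Dn G n) :=
  (cha_iter D.smooth n).continuous_fderiv one_ne_zero

private theorem cha_smoothH (D : Dat M R G H H' K K₂ lam s C) : ContDiff ℝ 1 H := by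
  rw [contDiff_one_iff_fderiv]
  refine ⟨D.diffH, ?_⟩
  have : fderiv ℝ H = H' := by funext x; exact D.fderivH x
  rw [this]
  exact D.lift.contH'

theorem Dat.contDH (D : Dat M R G H H' K K₂ lam s C) (n : ℕ) : Continuous (Dn H n) :=
  (cha_iter (cha_smoothH D) n).continuous_fderiv one_ne_zero

theorem Dat.contwt (D : Dat M R G H H' K K₂ lam s C) (n : ℕ) : Continuous (wt H n) := by
  have h := D.contDH n
  have h1 : Continuous fun X => Dn H n X (1, 0) := h.clm_apply continuous_const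
  have h2 : Continuous fun X => Dn H n X (0, 1) := h.clm_apply continuous_const
  have e : wt H n = fun X => |(Dn H n X (1, 0)).1 * (Dn H n X (0, 1)).2 -
      (Dn H n X (0, 1)).1 * (Dn H n X (1, 0)).2| := by
    funext X
    unfold wt
    rw [det_formula]
  rw [e]
  exact ((h1.fst.mul h2.snd).sub (h2.fst.mul h1.snd)).abs

private theorem cha_det_comp (A B : ℝ × ℝ →L[ℝ] ℝ × ℝ) : (A.comp B).det = A.det * B.det :=
  LinearMap.det_comp _ _

private theorem cha_det_id : (ContinuousLinearMap.id ℝ (ℝ × ℝ)).det = 1 := LinearMap.det_id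

theorem Dat.det_wt (D : Dat M R G H H' K K₂ lam s C) (n : ℕ) (X : ℝ × ℝ) :
    |(Dn G n (H^[n] X)).det| * wt H n X = 1 := by
  unfold wt
  rw [← abs_mul, ← cha_det_comp]
  have e : (Dn G n (H^[n] X)).comp (Dn H n X) = ContinuousLinearMap.id ℝ (ℝ × ℝ) :=
    ContinuousLinearMap.ext fun v => D.DGDH n X v
  rw [e, cha_det_id, abs_one]

theorem Dat.wt_pos (D : Dat M R G H H' K K₂ lam s C) (n : ℕ) (X : ℝ × ℝ) : 0 < wt H n X := by
  have h := D.det_wt n X
  have h0 : 0 ≤ wt H n X := abs_nonneg _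
  rcases h0.lt_or_eq with h1 | h1
  · exact h1
  · rw [← h1, mul_zero] at h
    exact absurd h zero_ne_one

private theorem cha_det_ge (D : Dat M R G H H' K K₂ lam s C) (n : ℕ) (y : ℝ × ℝ) :
    lam ^ (8 * n) ≤ |(Dn G n y).det| := by
  induction n generalizing y with
  | zero =>
    rw [Dn_zero, cha_det_id]
    simp
  | succ n ih =>
    rw [Dn_add D.diffG, cha_det_comp, abs_mul]
    have h1 := ih (G^[1] y)
    have h2 : lam ^ 8 ≤ |(Dn G 1 y).det| := by
      unfold Dn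
      rw [Function.iterate_one]
      exact D.detG y
    have h0 : (0 : ℝ) ≤ lam := by linarith [D.lam1]
    calc lam ^ (8 * (n + 1)) = lam ^ (8 * n) * lam ^ 8 := by rw [← pow_add]; congr 1
      _ ≤ _ := mul_le_mul h1 h2 (by positivity) (abs_nonneg _)

theorem Dat.wt_le (D : Dat M R G H H' K K₂ lam s C) (n : ℕ) (X : ℝ × ℝ) :
    wt H n X * lam ^ (8 * n) ≤ 1 := by
  rw [← D.det_wt n X, mul_comm]
  exact mul_le_mul_of_nonneg_right (cha_det_ge D n _) (D.wt_pos n X).le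

theorem Dat.normDG_ge (D : Dat M R G H H' K K₂ lam s C) (n : ℕ) (y : ℝ × ℝ) :
    lam ^ (4 * n) ≤ 2 * ‖Dn G n y‖ := by
  have h1 := cha_det_ge D n y
  have h2 := det_bound (Dn G n y)
  have h0 : (0 : ℝ) ≤ lam := by linarith [D.lam1]
  have h3 : (0 : ℝ) ≤ ‖Dn G n y‖ ^ 2 := by positivity
  apply (pow_le_pow_iff_left₀ (by positivity) (by positivity) two_ne_zero).mp
  have e : (lam ^ (4 * n)) ^ 2 = lam ^ (8 * n) := by rw [← pow_mul]; congr 1; ring
  rw [e, mul_pow]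
  linarith

theorem Dat.DH_ne (D : Dat M R G H H' K K₂ lam s C) (n : ℕ) (X : ℝ × ℝ) {v : ℝ × ℝ} (hv : v ≠ 0) :
    Dn H n X v ≠ 0 := by
  intro h
  apply hv
  rw [← D.DGDH n X v, h, map_zero]

theorem Dat.DG_ne (D : Dat M R G H H' K K₂ lam s C) (n : ℕ) (y : ℝ × ℝ) {v : ℝ × ℝ} (hv : v ≠ 0) :
    Dn G n y v ≠ 0 := by
  intro h
  apply hv
  rw [← D.DHDG n y v, h, map_zero]

theorem norm_wv {a : ℝ} (ha : a ∈ Set.Icc (0 : ℝ) 1) : ‖wv a‖ = 1 := by
  unfold wv
  rw [Prod.norm_def]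
  simp only [norm_one, Real.norm_eq_abs]
  rw [abs_of_nonneg ha.1]
  exact max_eq_left ha.2

theorem wv_ne (a : ℝ) : wv a ≠ 0 := by
  intro h
  have := congrArg Prod.fst h
  simp [wv] at this

theorem Dat.Vv_pos (D : Dat M R G H H' K K₂ lam s C) (n : ℕ) (a : ℝ) (y : ℝ × ℝ) :
    0 < ‖Vv G n a y‖ :=
  norm_pos_iff.mpr (D.DG_ne n y (wv_ne a))

theorem Dat.Vv_succ (D : Dat M R G H H' K K₂ lam s C) (n : ℕ) (a : ℝ) (y : ℝ × ℝ) :
    Vv G (n + 1) a y = fderiv ℝ G (G^[n] y) (Vv G n a y) := by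
  unfold Vv
  rw [add_comm n 1, Dn_add D.diffG 1 n y]
  rfl

theorem Dat.Vv_add (D : Dat M R G H H' K K₂ lam s C) (m n : ℕ) (a : ℝ) (y : ℝ × ℝ) :
    Vv G (n + m) a y = Dn G m (G^[n] y) (Vv G n a y) := by
  unfold Vv
  rw [add_comm n m, Dn_add D.diffG m n y]
  rfl

end Pool.Agent.ERG
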