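import Pool.Agent.ERG.Mat

/-!
# Module Crs (size 3): two transversal nearly straight curves cross

`f (t, s) = c t - d s` on `ℝ × ℝ`, `T (t, s) = t • e - s • e'`. `T` is invertible: `wd (T (t,s)) e' = t * wd e e'` and `wd (T (t,s)) e = s * wd e e'` (up to sign), and
`|wd v e'| ≤ 2 ‖v‖`, so `‖(t,s)‖ ≤ (2/θ) ‖T (t,s)‖`; the inverse has norm at most `2/θ` (explicitly `T⁻¹ v = (wd v e' / wd e e', wd v e / wd e e')`, signs to be
checked). On `closedBall 0 r` (sup norm: `|t| ≤ r`, `|s| ≤ r`) `f` is approximated by `T` with constant `θ/8`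
(`ApproximatesLinearOn`, mean value inequality for `c - t e` and `d - s e'` on the interval `[-r, r]`).
`ApproximatesLinearOn.surjOn_closedBall_of_nonlinearRightInverse` gives: `f` maps `closedBall 0 r` onto a set containing `closedBall (f 0) ((θ/2 - θ/8) r)`, and
`‖f 0‖ = ‖c 0 - d 0‖ ≤ θ r / 16`. (Or the contraction principle for `p ↦ p - T⁻¹ (f p)` on the closed ball: Lipschitz constant `(2/θ)(θ/8) = 1/4`, and
`‖T⁻¹ (f 0)‖ ≤ r/8`; `ContractingWith` on the complete subset.)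
-/

set_option autoImplicit false

namespace Pool.Agent.ERG

open Pool.Agent.NUH MeasureTheory Filter Topology
open scoped ENNReal ContDiff NNReal

theorem crs {c d c' d' : ℝ → ℝ × ℝ} {e e' : ℝ × ℝ} {r θ : ℝ} (hr : 0 < r) (hθ : 0 < θ)
    (hc : ∀ t, |t| ≤ r → HasDerivAt c (c' t) t) (hd : ∀ t, |t| ≤ r → HasDerivAt d (d' t) t)
    (h1 : ∀ t, |t| ≤ r → ‖c' t - e‖ ≤ θ / 16) (h2 : ∀ t, |t| ≤ r → ‖d' t - e'‖ ≤ θ / 16)
    (he : ‖e‖ = 1) (he' : ‖e'‖ = 1) (hw : θ ≤ |wd e e'|) (h0 : 16 * ‖c 0 - d 0‖ ≤ θ * r) :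
    ∃ t s : ℝ, |t| ≤ r ∧ |s| ≤ r ∧ c t = d s := by
  have key : ∀ (g g' : ℝ → ℝ × ℝ) (u : ℝ × ℝ), (∀ t, |t| ≤ r → HasDerivAt g (g' t) t) →
      (∀ t, |t| ≤ r → ‖g' t - u‖ ≤ θ / 16) → ∀ t t', |t| ≤ r → |t'| ≤ r →
      ‖g t - g t' - (t - t') • u‖ ≤ θ / 16 * |t - t'| := by
    intro g g' u hg hg' t t' ht ht'
    have hconv : Convex ℝ (Set.Icc (-r) r) := convex_Icc _ _
    have h3 := hconv.norm_image_sub_le_of_norm_hasDerivWithin_le
      (f := fun x => g x - x • u) (f' := fun x => g' x - (1 : ℝ) • u) (C := θ / 16)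
      (x := t') (y := t)
      (fun x hx => ((hg x (abs_le.mpr hx)).sub ((hasDerivAt_id x).smul_const u)).hasDerivWithinAt)
      (fun x hx => by simpa using hg' x (abs_le.mpr hx)) (abs_le.mp ht') (abs_le.mp ht)
    have h4 : g t - g t' - (t - t') • u = (g t - t • u) - (g t' - t' • u) := by
      rw [sub_smul]; abel
    rw [h4]
    simpa [Real.norm_eq_abs] using h3
  have hW0 : wd e e' ≠ 0 := by
    intro h
    rw [h, abs_zero] at hw
    linarith
  set T : ℝ × ℝ →L[ℝ] ℝ × ℝ := (ContinuousLinearMap.fst ℝ ℝ ℝ).smulRight e -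
    (ContinuousLinearMap.snd ℝ ℝ ℝ).smulRight e' with hT
  have hTa : ∀ p : ℝ × ℝ, T p = p.1 • e - p.2 • e' := by
    intro p
    simp [hT]
  set f : ℝ × ℝ → ℝ × ℝ := fun p => c p.1 - d p.2 with hf
  have happ : ApproximatesLinearOn f T (Metric.closedBall 0 r) (⟨θ / 8, by positivity⟩ : ℝ≥0) := by
    intro p hp q hq
    have hp' : ‖p‖ ≤ r := by simpa using hp
    have hq' : ‖q‖ ≤ r := by simpa using hq
    have a1 := key c c' e hc h1 p.1 q.1 ((norm_fst_le p).trans hp') ((norm_fst_le q).trans hq')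
    have a2 := key d d' e' hd h2 p.2 q.2 ((norm_snd_le p).trans hp') ((norm_snd_le q).trans hq')
    have e1 : f p - f q - T (p - q) = (c p.1 - c q.1 - (p.1 - q.1) • e) -
        (d p.2 - d q.2 - (p.2 - q.2) • e') := by
      rw [hTa, hf]
      simp only [Prod.fst_sub, Prod.snd_sub]
      abel
    have b1 : |p.1 - q.1| ≤ ‖p - q‖ := norm_fst_le (p - q)
    have b2 : |p.2 - q.2| ≤ ‖p - q‖ := norm_snd_le (p - q)
    rw [e1]
    refine (norm_sub_le _ _).trans ?_
    show _ ≤ θ / 8 * ‖p - q‖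
    have h5 := mul_le_mul_of_nonneg_left b1 (by positivity : (0 : ℝ) ≤ θ / 16)
    have h6 := mul_le_mul_of_nonneg_left b2 (by positivity : (0 : ℝ) ≤ θ / 16)
    linarith
  let S : T.NonlinearRightInverse :=
    { toFun := fun v => (wd v e' / wd e e', wd v e / wd e e')
      nnnorm := ⟨2 / θ, by positivity⟩
      bound' := by
        intro v
        show ‖((wd v e' / wd e e', wd v e / wd e e') : ℝ × ℝ)‖ ≤ 2 / θ * ‖v‖
        have hW : 0 < |wd e e'| := lt_of_lt_of_le hθ hw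
        have g1 : ∀ u : ℝ × ℝ, ‖u‖ = 1 → ‖wd v u / wd e e'‖ ≤ 2 / θ * ‖v‖ := by
          intro u hu
          rw [norm_div, Real.norm_eq_abs, Real.norm_eq_abs, div_le_iff₀ hW]
          have := abs_wd_le v u
          rw [hu, mul_one] at this
          refine this.trans ?_
          calc 2 * ‖v‖ = 2 / θ * ‖v‖ * θ := by field_simp
            _ ≤ 2 / θ * ‖v‖ * |wd e e'| := by gcongr
        rw [Prod.norm_def]
        exact max_le (g1 e' he') (g1 e he)
      right_inv' := by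
        intro v
        rw [hTa]
        have hW1 : e.1 * e'.2 - e.2 * e'.1 ≠ 0 := hW0
        ext
        · simp only [wd, Prod.fst_sub, Prod.smul_fst, smul_eq_mul]
          rw [div_mul_eq_mul_div, div_mul_eq_mul_div, ← sub_div, div_eq_iff hW1]
          ring
        · simp only [wd, Prod.snd_sub, Prod.smul_snd, smul_eq_mul]
          rw [div_mul_eq_mul_div, div_mul_eq_mul_div, ← sub_div, div_eq_iff hW1]
          ring }
  have hsurj := happ.surjOn_closedBall_of_nonlinearRightInverse S hr.le (b := 0) (ε := r)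
    (Set.Subset.refl _)
  have hmem : (0 : ℝ × ℝ) ∈ Metric.closedBall (f 0) ((((S.nnnorm : ℝ≥0) : ℝ)⁻¹ -
      ((⟨θ / 8, by positivity⟩ : ℝ≥0) : ℝ)) * r) := by
    rw [Metric.mem_closedBall, dist_comm, dist_zero_right]
    show ‖c 0 - d 0‖ ≤ ((2 / θ)⁻¹ - θ / 8) * r
    rw [inv_div]
    nlinarith [mul_pos hθ hr]
  obtain ⟨p, hp, hp2⟩ := hsurj hmem
  have hp' : ‖p‖ ≤ r := by simpa using hp
  exact ⟨p.1, p.2, (norm_fst_le p).trans hp', (norm_snd_le p).trans hp', sub_eq_zero.mp hp2⟩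

end Pool.Agent.ERG
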