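import Pool.Agent.ERG.Msr

/-!
# Module Intc (size 3): change of variables in a branch

`f z = H^[n] (z + zc k)` is injective (`D.GH`), with derivative `Dn H n (z + zc k)`, `|det| = wt H n (z + zc k)`, and
`f '' B = {y | G^[n] y - zc k ∈ B}` (`D.HG`, `D.GH`). `MeasureTheory.lintegral_image_eq_lintegral_abs_det_fderiv_mul`.
`int4`: `int3` with `φ = 1` (indicator form), and `ind`.
-/

set_option autoImplicit false

namespace Pool.Agent.ERG

open Pool.Agent.NUH MeasureTheory Filter Topology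
open scoped ENNReal ContDiff NNReal

variable {M : Mt} {R : Finset (ℤ × ℤ)} {G H : ℝ × ℝ → ℝ × ℝ}
  {H' : ℝ × ℝ → (ℝ × ℝ →L[ℝ] ℝ × ℝ)} {K K₂ lam s C : ℝ}

theorem int3 (D : Dat M R G H H' K K₂ lam s C) (n : ℕ) (k : ℤ × ℤ) {B : Set (ℝ × ℝ)}
    (hB : MeasurableSet B) (φ : ℝ × ℝ → ℝ≥0∞) :
    ∫⁻ z in B, ENNReal.ofReal (wt H n (z + zc k)) * φ (H^[n] (z + zc k)) =
      ∫⁻ y in {y | G^[n] y - zc k ∈ B}, φ y := by
  have himg : {y | G^[n] y - zc k ∈ B} = (fun z => H^[n] (z + zc k)) '' B := by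
    ext y
    constructor
    · intro hy
      refine ⟨G^[n] y - zc k, hy, ?_⟩
      simp only [sub_add_cancel]
      exact D.HG n y
    · rintro ⟨z, hz, rfl⟩
      show G^[n] (H^[n] (z + zc k)) - zc k ∈ B
      rw [D.GH n (z + zc k), add_sub_cancel_right]
      exact hz
  have hd : ∀ z ∈ B, HasFDerivWithinAt (fun z => H^[n] (z + zc k)) (Dn H n (z + zc k)) B z := by
    intro z _
    have h1 : HasFDerivAt (H^[n]) (Dn H n (z + zc k)) (z + zc k) :=
      ((D.diffH.iterate n) (z + zc k)).hasFDerivAt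
    have h2 : HasFDerivAt (fun z : ℝ × ℝ => z + zc k)
        (ContinuousLinearMap.id ℝ (ℝ × ℝ)) z := (hasFDerivAt_id z).add_const _
    have h3 := HasFDerivAt.comp z h1 h2
    rw [ContinuousLinearMap.comp_id] at h3
    exact h3.hasFDerivWithinAt
  have hinj : Set.InjOn (fun z => H^[n] (z + zc k)) B := by
    intro z _ z' _ h
    have h1 := congrArg (G^[n]) h
    simp only [] at h1
    rw [D.GH, D.GH] at h1
    exact add_right_cancel h1
  rw [himg, lintegral_image_eq_lintegral_abs_det_fderiv_mul volume hB hd hinj φ]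
  rfl

theorem int4 (D : Dat M R G H H' K K₂ lam s C) (n : ℕ) (k : ℤ × ℤ) {B : Set (ℝ × ℝ)}
    (hB : MeasurableSet B) {p : ℝ × ℝ → Prop} (hp : MeasurableSet {x | p x}) :
    ∫⁻ z in B, ENNReal.ofReal (wt H n (z + zc k)) * ind (p z) =
      volume {y | G^[n] y - zc k ∈ B ∧ p (G^[n] y - zc k)} := by
  have h1 : ∀ z : ℝ × ℝ, ind (p z) = (fun y => ind (p (G^[n] y - zc k))) (H^[n] (z + zc k)) := by
    intro z
    simp only []
    rw [D.GH n (z + zc k), add_sub_cancel_right]
  have h2 : ∫⁻ z in B, ENNReal.ofReal (wt H n (z + zc k)) * ind (p z) =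
      ∫⁻ z in B, ENNReal.ofReal (wt H n (z + zc k)) *
        (fun y => ind (p (G^[n] y - zc k))) (H^[n] (z + zc k)) := by
    refine lintegral_congr fun z => ?_
    rw [h1 z]
  have hc : Measurable fun y : ℝ × ℝ => G^[n] y - zc k :=
    ((D.contGn n).sub continuous_const).measurable
  have hm1 : MeasurableSet {y : ℝ × ℝ | G^[n] y - zc k ∈ B} := hc hB
  have hm2 : MeasurableSet {y : ℝ × ℝ | p (G^[n] y - zc k)} := hc hp
  refine h2.trans ((int3 D n k hB (fun y => ind (p (G^[n] y - zc k)))).trans ?_)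
  rw [lintegral_ind hm2, Measure.restrict_apply hm2]
  congr 1
  ext y
  simp only [Set.mem_inter_iff, Set.mem_ofPred_eq]
  exact and_comm

end Pool.Agent.ERG
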