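import Pool.Agent.ERG.Geo
import Pool.Agent.ERG.Intc

/-!
# Module Cvv (size 3): the curves `cv`

Let `V = Vb G H n k a x`, `y = H^[n] (x + zc k)`, `w = wv a`. `cv0`: `D.GH`. `cv1`: `hasDerivAt_curve` composed with `t ↦ t / ‖V‖` (`HasDerivAt.scomp`).
`cv2`: for a good `(k, a, x)` and `|t| ≤ r` put `τ = t / ‖V‖`, `|τ| ‖V‖ = |t| ≤ r` (`D.Vv_pos`): `‖Vv G n a (y + τ w) - V‖ ≤ θ/16 ‖V‖` (`P.geo`). `cvH`: `D.HG` (`G^[n] Y - zc k + zc k`).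
`cv3`: `Vb .. (cv .. t) = Vv G n a (y + τ w)` by `cvH`, so its norm is at most `(1 + θ/16) ‖V‖`. `cv4`: mean value inequality on the segment from `0` to `t`: the derivative of `cv` has norm at most
`1 + θ/16 ≤ 2` (`cv1`, `cv2`), `cv0`. `gd_large`: `Good` with `j = 0`, `l = n` (`Vv G 0 a y = wv a` has norm `1`, `Dn G n (G^[0] y) = Dn G n y`) and `D.normDG_ge`:
`κ lam ^ (4 n) ≤ 2 lam ^ n ‖Vv G n a y‖`; cancel `lam ^ n`.
-/

set_option autoImplicit false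

namespace Pool.Agent.ERG

open Pool.Agent.NUH MeasureTheory Filter Topology
open scoped ENNReal ContDiff NNReal

variable {M : Mt} {R : Finset (ℤ × ℤ)} {G H : ℝ × ℝ → ℝ × ℝ}
  {H' : ℝ × ℝ → (ℝ × ℝ →L[ℝ] ℝ × ℝ)} {K K₂ lam s C κ θ r ρ : ℝ}

private theorem norm_dir_aux (D : Dat M R G H H' K K₂ lam s C) (n : ℕ) (k : ℤ × ℤ) (a : ℝ)
    (x : ℝ × ℝ) : ‖‖Vb G H n k a x‖⁻¹ • Vb G H n k a x‖ = 1 := by
  rw [norm_smul, norm_inv, norm_norm]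
  exact inv_mul_cancel₀ (D.Vv_pos n a _).ne'

theorem cv0 (D : Dat M R G H H' K K₂ lam s C) (n : ℕ) (k : ℤ × ℤ) (a : ℝ) (x : ℝ × ℝ) :
    cv G H n k a x 0 = x := by
  unfold cv
  rw [zero_div, zero_smul, add_zero, D.GH, add_sub_cancel_right]

theorem cv1 (D : Dat M R G H H' K K₂ lam s C) (n : ℕ) (k : ℤ × ℤ) (a : ℝ) (x : ℝ × ℝ) (t : ℝ) :
    HasDerivAt (cv G H n k a x) (‖Vb G H n k a x‖⁻¹ •
      Vv G n a (H^[n] (x + zc k) + (t / ‖Vb G H n k a x‖) • wv a)) t := by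
  have h1 := hasDerivAt_curve D n a (H^[n] (x + zc k)) (t / ‖Vb G H n k a x‖)
  have h2 : HasDerivAt (fun u : ℝ => u / ‖Vb G H n k a x‖) (‖Vb G H n k a x‖⁻¹) t := by
    have := (hasDerivAt_id t).div_const ‖Vb G H n k a x‖
    rw [one_div] at this
    exact this
  have h3 := HasDerivAt.scomp t h1 h2
  exact h3.sub_const (zc k)

theorem cv2 (D : Dat M R G H H' K K₂ lam s C) (P : Par G lam κ θ r ρ) (n : ℕ) (k : ℤ × ℤ) {a : ℝ}
    (ha : a ∈ Set.Icc (0 : ℝ) 1) {x : ℝ × ℝ} (hg : Good G lam κ n a (H^[n] (x + zc k))) {t : ℝ}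
    (ht : |t| ≤ r) :
    ‖‖Vb G H n k a x‖⁻¹ • Vv G n a (H^[n] (x + zc k) + (t / ‖Vb G H n k a x‖) • wv a) -
      ‖Vb G H n k a x‖⁻¹ • Vb G H n k a x‖ ≤ θ / 16 := by
  have hV : 0 < ‖Vb G H n k a x‖ := D.Vv_pos n a _
  have h1 := P.geo n a (H^[n] (x + zc k)) ha hg (t / ‖Vb G H n k a x‖) (by
    change |t / ‖Vb G H n k a x‖| * ‖Vb G H n k a x‖ ≤ r
    rw [abs_div, abs_of_pos hV, div_mul_cancel₀ _ hV.ne']
    exact ht)
  change ‖Vv G n a (H^[n] (x + zc k) + (t / ‖Vb G H n k a x‖) • wv a) - Vb G H n k a x‖ ≤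
    θ / 16 * ‖Vb G H n k a x‖ at h1
  rw [← smul_sub, norm_smul, norm_inv, norm_norm, inv_mul_le_iff₀ hV]
  linarith [h1]

theorem cvH (D : Dat M R G H H' K K₂ lam s C) (n : ℕ) (k : ℤ × ℤ) (a : ℝ) (x : ℝ × ℝ) (t : ℝ) :
    H^[n] (cv G H n k a x t + zc k) = H^[n] (x + zc k) + (t / ‖Vb G H n k a x‖) • wv a := by
  unfold cv
  rw [sub_add_cancel, D.HG]

theorem cv3 (D : Dat M R G H H' K K₂ lam s C) (P : Par G lam κ θ r ρ) (n : ℕ) (k : ℤ × ℤ) {a : ℝ}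
    (ha : a ∈ Set.Icc (0 : ℝ) 1) {x : ℝ × ℝ} (hg : Good G lam κ n a (H^[n] (x + zc k))) {t : ℝ}
    (ht : |t| ≤ r) : ‖Vb G H n k a (cv G H n k a x t)‖ ≤ 2 * ‖Vb G H n k a x‖ := by
  have hV : 0 < ‖Vb G H n k a x‖ := D.Vv_pos n a _
  have h1 := P.geo n a (H^[n] (x + zc k)) ha hg (t / ‖Vb G H n k a x‖) (by
    change |t / ‖Vb G H n k a x‖| * ‖Vb G H n k a x‖ ≤ r
    rw [abs_div, abs_of_pos hV, div_mul_cancel₀ _ hV.ne']
    exact ht)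
  change ‖Vv G n a (H^[n] (x + zc k) + (t / ‖Vb G H n k a x‖) • wv a) - Vb G H n k a x‖ ≤
    θ / 16 * ‖Vb G H n k a x‖ at h1
  have h2 : Vb G H n k a (cv G H n k a x t) =
      Vv G n a (H^[n] (x + zc k) + (t / ‖Vb G H n k a x‖) • wv a) := by
    change Vv G n a (H^[n] (cv G H n k a x t + zc k)) = _
    rw [cvH D]
  rw [h2]
  have h3 := norm_le_norm_add_norm_sub' (Vv G n a (H^[n] (x + zc k) + (t / ‖Vb G H n k a x‖) • wv a))
    (Vb G H n k a x)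
  have h4 : θ / 16 * ‖Vb G H n k a x‖ ≤ 1 * ‖Vb G H n k a x‖ :=
    mul_le_mul_of_nonneg_right (by linarith [P.θ1]) hV.le
  linarith

theorem cv4 (D : Dat M R G H H' K K₂ lam s C) (P : Par G lam κ θ r ρ) (n : ℕ) (k : ℤ × ℤ) {a : ℝ}
    (ha : a ∈ Set.Icc (0 : ℝ) 1) {x : ℝ × ℝ} (hg : Good G lam κ n a (H^[n] (x + zc k))) {t : ℝ}
    (ht : |t| ≤ r) : ‖cv G H n k a x t - x‖ ≤ 2 * r := by
  have hr := P.r0
  have h1 : ‖cv G H n k a x t - cv G H n k a x 0‖ ≤ 2 * ‖t - 0‖ := by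
    refine Convex.norm_image_sub_le_of_norm_hasDerivWithin_le (s := Set.Icc (-r) r)
      (f' := fun u => ‖Vb G H n k a x‖⁻¹ •
        Vv G n a (H^[n] (x + zc k) + (u / ‖Vb G H n k a x‖) • wv a))
      (fun u _ => (cv1 D n k a x u).hasDerivWithinAt) ?_ (convex_Icc _ _) ?_ ?_
    · intro u hu
      have h2 := cv2 D P n k ha hg (t := u) (abs_le.mpr ⟨hu.1, hu.2⟩)
      have h3 := norm_dir_aux D n k a x
      have h4 := norm_le_norm_add_norm_sub' (‖Vb G H n k a x‖⁻¹ •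
        Vv G n a (H^[n] (x + zc k) + (u / ‖Vb G H n k a x‖) • wv a))
        (‖Vb G H n k a x‖⁻¹ • Vb G H n k a x)
      have := P.θ1
      linarith
    · exact ⟨by linarith, hr.le⟩
    · exact abs_le.mp ht
  rw [cv0 D, sub_zero, Real.norm_eq_abs] at h1
  linarith

theorem gd_large (D : Dat M R G H H' K K₂ lam s C) {κ : ℝ} (hκ : 0 < κ) (n : ℕ) {a : ℝ}
    (ha : a ∈ Set.Icc (0 : ℝ) 1) {y : ℝ × ℝ} (hg : Good G lam κ n a y) :
    κ * lam ^ (3 * n) ≤ 2 * ‖Vv G n a y‖ := by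
  have h1 := hg 0 n (by omega)
  have h0 : Vv G 0 a y = wv a := by
    change Dn G 0 y (wv a) = wv a
    rw [Dn_zero]
    rfl
  rw [h0, norm_wv ha, mul_one, Nat.sub_zero, Nat.zero_add, Function.iterate_zero, id_eq] at h1
  have h2 := D.normDG_ge n y
  have h3 : κ * lam ^ (4 * n) ≤ κ * (2 * ‖Dn G n y‖) := mul_le_mul_of_nonneg_left h2 hκ.le
  have hl : 0 < lam ^ n := pow_pos (by linarith [D.lam1]) n
  have h4 : lam ^ (4 * n) = lam ^ (3 * n) * lam ^ n := by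
    rw [← pow_add]; congr 1; omega
  have h5 : lam ^ n * (κ * lam ^ (3 * n)) ≤ lam ^ n * (2 * ‖Vv G n a y‖) := by
    calc lam ^ n * (κ * lam ^ (3 * n)) = κ * lam ^ (4 * n) := by rw [h4]; ring
      _ ≤ κ * (2 * ‖Dn G n y‖) := h3
      _ = 2 * (κ * ‖Dn G n y‖) := by ring
      _ ≤ 2 * (lam ^ n * ‖Vv G n a y‖) := by linarith
      _ = _ := by ring
  exact le_of_mul_le_mul_left h5 hl

/-- unit vectors -/
theorem norm_dir (D : Dat M R G H H' K K₂ lam s C) (n : ℕ) (k : ℤ × ℤ) (a : ℝ) (x : ℝ × ℝ) :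
    ‖‖Vb G H n k a x‖⁻¹ • Vb G H n k a x‖ = 1 := by
  rw [norm_smul, norm_inv, norm_norm]
  exact inv_mul_cancel₀ (D.Vv_pos n a _).ne'

end Pool.Agent.ERG
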