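import Pool.Agent.NUH.Torus

/-!
# Squad ERG (MP_8e3051_an, full solution): definitions

Standing data `Dat`: `G` is a `C¹` lift (with Lipschitz derivative) of a conservative endomorphism of the
torus, `H` its inverse on the plane, `H'` the derivative of `H`; `|det DG| ≥ lam ^ 8 > 1`; the negative
moments of the backward cocycle are bounded (`mom`).

For `X = z + zc k`, `k ∈ Rn n`, the points `y = H^[n] X` are the preimages of (the class of) `z` under `g^n`;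
`wt n X = |det D_X H^n|` is the weight of the branch; the weights have sum `1`.
-/

set_option autoImplicit false

namespace Pool.Agent.ERG

open Pool.Agent.NUH MeasureTheory Filter Topology
open scoped ENNReal ContDiff NNReal

/-- standing data -/
structure Dat (M : Mt) (R : Finset (ℤ × ℤ)) (G H : ℝ × ℝ → ℝ × ℝ)
    (H' : ℝ × ℝ → (ℝ × ℝ →L[ℝ] ℝ × ℝ)) (K K₂ lam s C : ℝ) : Prop where
  lift : Lift M G H H'
  smooth : ContDiff ℝ 1 G
  det0 : M.det ≠ 0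
  res : Res M R
  resE : ResE M R
  uniq : ∀ m ∈ R, ∀ m' ∈ R, ∀ j, m = m' + mv M j → m = m'
  K1 : 1 ≤ K
  up : ∀ z, ‖fderiv ℝ G z‖ ≤ K
  upH : ∀ x, ‖H' x‖ ≤ K
  K₂0 : 0 ≤ K₂
  lip : ∀ z z', ‖fderiv ℝ G z - fderiv ℝ G z'‖ ≤ K₂ * ‖z - z'‖
  lam1 : 1 < lam
  detG : ∀ z, lam ^ 8 ≤ |(fderiv ℝ G z).det|
  mass : ∀ x, ∑ m ∈ R, |(H' (x + zc m)).det| = 1
  s0 : 0 < s
  s1 : s ≤ 1
  C1 : 1 ≤ C
  mom : ∀ i x v, v ≠ 0 → (LE R H H')^[i] (psE s) x v ≤ ENNReal.ofReal C * psE s x v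

/-- the derivative of the `n`-th iterate -/
noncomputable def Dn (F : ℝ × ℝ → ℝ × ℝ) (n : ℕ) (x : ℝ × ℝ) : ℝ × ℝ →L[ℝ] ℝ × ℝ :=
  fderiv ℝ (F^[n]) x

/-- the determinant of two vectors -/
def wd (p q : ℝ × ℝ) : ℝ := p.1 * q.2 - p.2 * q.1

/-- residues modulo `M ^ n ℤ²` -/
def Rn (M : Mt) (R : Finset (ℤ × ℤ)) : ℕ → Finset (ℤ × ℤ)
  | 0 => {0}
  | n + 1 => (R ×ˢ Rn M R n).image fun p => p.1 + mv M p.2

/-- the weight of a branch -/
noncomputable def wt (H : ℝ × ℝ → ℝ × ℝ) (n : ℕ) (X : ℝ × ℝ) : ℝ := |(Dn H n X).det|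

/-- the weighted sum over the branches of order `n` at `z`; `Ψ` is a function of `X = z + zc k` -/
noncomputable def Sm (M : Mt) (R : Finset (ℤ × ℤ)) (H : ℝ × ℝ → ℝ × ℝ) (n : ℕ)
    (Ψ : ℝ × ℝ → ℝ≥0∞) (z : ℝ × ℝ) : ℝ≥0∞ :=
  ∑ k ∈ Rn M R n, ENNReal.ofReal (wt H n (z + zc k)) * Ψ (z + zc k)

/-- the vector `(1, a)` -/
def wv (a : ℝ) : ℝ × ℝ := (1, a)

/-- the vector `D_y G^n (1, a)` -/
noncomputable def Vv (G : ℝ × ℝ → ℝ × ℝ) (n : ℕ) (a : ℝ) (y : ℝ × ℝ) : ℝ × ℝ := Dn G n y (wv a)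

/-- good pairs `(y, a)` -/
def Good (G : ℝ × ℝ → ℝ × ℝ) (lam κ : ℝ) (n : ℕ) (a : ℝ) (y : ℝ × ℝ) : Prop :=
  ∀ j l : ℕ, j + l ≤ n →
    κ * ‖Dn G l (G^[j] y)‖ * ‖Vv G j a y‖ ≤ lam ^ (n - j) * ‖Vv G (j + l) a y‖

open Classical in
/-- the indicator of a proposition -/
noncomputable def ind (p : Prop) : ℝ≥0∞ := if p then 1 else 0

theorem ind_pos {p : Prop} (h : p) : ind p = 1 := if_pos h

theorem ind_neg {p : Prop} (h : ¬ p) : ind p = 0 := if_neg h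

theorem ind_le_one (p : Prop) : ind p ≤ 1 := by
  by_cases h : p
  · rw [ind_pos h]
  · rw [ind_neg h]; exact zero_le

theorem ind_mono {p q : Prop} (h : p → q) : ind p ≤ ind q := by
  by_cases hp : p
  · rw [ind_pos hp, ind_pos (h hp)]
  · rw [ind_neg hp]; exact zero_le

theorem ind_or_le (p q : Prop) : ind (p ∨ q) ≤ ind p + ind q := by
  by_cases hp : p
  · rw [ind_pos hp, ind_pos (Or.inl hp)]; exact le_self_add
  · by_cases hq : q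
    · rw [ind_pos hq, ind_pos (Or.inr hq)]; exact le_add_self
    · rw [ind_neg (by tauto)]; exact zero_le

theorem ind_and (p q : Prop) : ind (p ∧ q) = ind p * ind q := by
  by_cases hp : p
  · by_cases hq : q
    · rw [ind_pos hp, ind_pos hq, ind_pos ⟨hp, hq⟩, mul_one]
    · rw [ind_neg hq, ind_neg (by tauto), mul_zero]
  · rw [ind_neg hp, ind_neg (by tauto), zero_mul]

theorem measurable_ind {α : Type*} [MeasurableSpace α] {p : α → Prop}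
    (h : MeasurableSet {x | p x}) : Measurable fun x => ind (p x) :=
  Measurable.ite h measurable_const measurable_const

/-- `∫ ind = volume` -/
theorem lintegral_ind {α : Type*} [MeasurableSpace α] {μ : Measure α} {p : α → Prop}
    (h : MeasurableSet {x | p x}) : ∫⁻ x, ind (p x) ∂μ = μ {x | p x} := by
  have : (fun x => ind (p x)) = {x | p x}.indicator 1 := by
    funext x
    by_cases hx : p x
    · rw [ind_pos hx, Set.indicator_of_mem (show x ∈ {x | p x} from hx)]; rfl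
    · rw [ind_neg hx, Set.indicator_of_notMem (show x ∉ {x | p x} from hx)]
  rw [this, lintegral_indicator_one h]

/-- the vector at `x` of the branch `k` -/
noncomputable def Vb (G H : ℝ × ℝ → ℝ × ℝ) (n : ℕ) (k : ℤ × ℤ) (a : ℝ) (x : ℝ × ℝ) : ℝ × ℝ :=
  Vv G n a (H^[n] (x + zc k))

/-- the branch `k` is good at `x`, the branch `k'` is good at `z` and the directions are transversal -/
def Pair (G H : ℝ × ℝ → ℝ × ℝ) (lam κ θ : ℝ) (n : ℕ) (k k' : ℤ × ℤ) (a a' : ℝ) (x z : ℝ × ℝ) :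
    Prop :=
  Good G lam κ n a (H^[n] (x + zc k)) ∧ Good G lam κ n a' (H^[n] (z + zc k')) ∧
    θ * ‖Vb G H n k a x‖ * ‖Vb G H n k' a' z‖ ≤ |wd (Vb G H n k a x) (Vb G H n k' a' z)|

/-- the curve of the branch `k` through `x`: `t ↦ G^n (y + (t / ‖V‖) w) - k`, `y = H^n (x + k)` -/
noncomputable def cv (G H : ℝ × ℝ → ℝ × ℝ) (n : ℕ) (k : ℤ × ℤ) (a : ℝ) (x : ℝ × ℝ) (t : ℝ) : ℝ × ℝ :=
  G^[n] (H^[n] (x + zc k) + (t / ‖Vb G H n k a x‖) • wv a) - zc k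

/-- the indicator function of `A` as a real function -/
noncomputable def inR (A : Set (ℝ × ℝ)) (y : ℝ × ℝ) : ℝ := A.indicator (fun _ => (1 : ℝ)) y

/-- the set where the branch `k` of `φ` does not approximate `A` -/
def Ek (H : ℝ × ℝ → ℝ × ℝ) (A : Set (ℝ × ℝ)) (φ : ℝ × ℝ → ℝ) (n : ℕ) (k : ℤ × ℤ) (x : ℝ × ℝ) : Prop :=
  1 / 4 ≤ |inR A x - φ (H^[n] (x + zc k))|

/-- the set where the branches `k` and `k'` of `φ` disagree -/
def Dis (H : ℝ × ℝ → ℝ × ℝ) (φ : ℝ × ℝ → ℝ) (n : ℕ) (k k' : ℤ × ℤ) (x : ℝ × ℝ) : Prop :=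
  1 / 4 ≤ |φ (H^[n] (x + zc k)) - φ (H^[n] (x + zc k'))|

/-- the constants -/
structure Par (G : ℝ × ℝ → ℝ × ℝ) (lam κ θ r ρ : ℝ) : Prop where
  κ0 : 0 < κ
  κ1 : κ ≤ 1
  θ0 : 0 < θ
  θ1 : θ ≤ 1
  r0 : 0 < r
  r1 : r ≤ 1 / 8
  ρ0 : 0 < ρ
  ρ1 : 32 * ρ ≤ θ * r
  geo : ∀ (n : ℕ) (a : ℝ) (y : ℝ × ℝ), a ∈ Set.Icc (0 : ℝ) 1 → Good G lam κ n a y → ∀ τ : ℝ,
    |τ| * ‖Vv G n a y‖ ≤ r → ‖Vv G n a (y + τ • wv a) - Vv G n a y‖ ≤ θ / 16 * ‖Vv G n a y‖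

end Pool.Agent.ERG
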