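import Pool.Agent.ERG.Defs

/-!
# Module Vol (size 2): the one dimensional estimate

`ν = (ν₁, ν₂) ≠ 0`, `wd ν (wv a) = ν₁ a - ν₂`, `‖ν‖ = max |ν₁| |ν₂|`. Let `S = {a ∈ [0,1] : |ν₁ a - ν₂| ≤ T}`.
If `|ν₁| ≥ ‖ν‖ / 2`: `S` is contained in the interval of centre `ν₂ / ν₁` and radius `T / |ν₁| ≤ 2 T / ‖ν‖`, so
`volume S ≤ 4 T / ‖ν‖`. Otherwise `|ν₂| = ‖ν‖` and `|ν₁ a - ν₂| ≥ ‖ν‖ / 2` on `[0,1]`: `S` is empty if `T < ‖ν‖ / 2`, and if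
`T ≥ ‖ν‖ / 2` then `volume S ≤ 1 ≤ 4 T / ‖ν‖`.
`vol2`: `volume S ≤ min 1 (4 T / ‖ν‖) ≤ (4 T / ‖ν‖) ^ α` for `0 ≤ α ≤ 1`.
-/

set_option autoImplicit false

namespace Pool.Agent.ERG

open Pool.Agent.NUH MeasureTheory Filter Topology
open scoped ENNReal ContDiff NNReal

private theorem vol_le_one (P : ℝ → Prop) :
    volume {a : ℝ | a ∈ Set.Icc (0 : ℝ) 1 ∧ P a} ≤ 1 := by
  calc volume {a : ℝ | a ∈ Set.Icc (0 : ℝ) 1 ∧ P a} ≤ volume (Set.Icc (0 : ℝ) 1) :=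
        measure_mono fun a ha => ha.1
    _ = 1 := by rw [Real.volume_Icc]; norm_num

theorem vol1 {ν : ℝ × ℝ} (hν : ν ≠ 0) {T : ℝ} (hT : 0 ≤ T) :
    volume {a : ℝ | a ∈ Set.Icc (0 : ℝ) 1 ∧ |wd ν (wv a)| ≤ T} ≤ ENNReal.ofReal (4 * T / ‖ν‖) := by
  have hn : 0 < ‖ν‖ := norm_pos_iff.2 hν
  have hdef : ‖ν‖ = max |ν.1| |ν.2| := by
    rw [Prod.norm_def, Real.norm_eq_abs, Real.norm_eq_abs]
  by_cases h : ‖ν‖ / 2 ≤ |ν.1|
  · have h1 : 0 < |ν.1| := lt_of_lt_of_le (by linarith) h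
    have h1' : ν.1 ≠ 0 := abs_pos.1 h1
    have hsub : {a : ℝ | a ∈ Set.Icc (0 : ℝ) 1 ∧ |wd ν (wv a)| ≤ T} ⊆
        Set.Icc (ν.2 / ν.1 - T / |ν.1|) (ν.2 / ν.1 + T / |ν.1|) := by
      intro a ha
      have h2 : |ν.1 * a - ν.2 * 1| ≤ T := ha.2
      have h3 : ν.1 * a - ν.2 * 1 = ν.1 * (a - ν.2 / ν.1) := by
        field_simp
      rw [h3, abs_mul] at h2
      have h4 : |a - ν.2 / ν.1| ≤ T / |ν.1| := by
        rw [le_div_iff₀ h1]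
        linarith
      have h5 := abs_le.1 h4
      exact ⟨by linarith [h5.1], by linarith [h5.2]⟩
    refine (measure_mono hsub).trans ?_
    rw [Real.volume_Icc]
    apply ENNReal.ofReal_le_ofReal
    have h6 : T / |ν.1| ≤ T / (‖ν‖ / 2) := by
      apply div_le_div_of_nonneg_left hT (by linarith) h
    have h7 : T / (‖ν‖ / 2) = 2 * T / ‖ν‖ := by
      field_simp
    have h8 : 4 * T / ‖ν‖ = 2 * T / ‖ν‖ + 2 * T / ‖ν‖ := by ring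
    linarith
  · push Not at h
    have h2 : |ν.2| = ‖ν‖ := by
      rcases le_total |ν.1| |ν.2| with h3 | h3
      · rw [hdef, max_eq_right h3]
      · rw [max_eq_left h3] at hdef
        linarith
    by_cases hT2 : T < ‖ν‖ / 2
    · have hemp : {a : ℝ | a ∈ Set.Icc (0 : ℝ) 1 ∧ |wd ν (wv a)| ≤ T} = ∅ := by
        rw [Set.eq_empty_iff_forall_notMem]
        intro a ha
        have h3 : |ν.1 * a - ν.2 * 1| ≤ T := ha.2
        have h4 : |ν.1 * a| ≤ |ν.1| := by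
          rw [abs_mul]
          have h5 : |a| ≤ 1 := abs_le.2 ⟨by linarith [ha.1.1], ha.1.2⟩
          nlinarith [abs_nonneg ν.1]
        have h5 : |ν.2| ≤ |ν.1 * a| + |ν.1 * a - ν.2 * 1| := by
          have h6 : ν.2 = ν.1 * a - (ν.1 * a - ν.2 * 1) := by ring
          calc |ν.2| = |ν.1 * a - (ν.1 * a - ν.2 * 1)| := by rw [← h6]
            _ ≤ _ := abs_sub _ _
        linarith
      rw [hemp, measure_empty]
      exact zero_le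
    · push Not at hT2
      refine (vol_le_one _).trans ?_
      rw [← ENNReal.ofReal_one]
      apply ENNReal.ofReal_le_ofReal
      rw [le_div_iff₀ hn]
      linarith

theorem vol2 {ν : ℝ × ℝ} (hν : ν ≠ 0) {T : ℝ} (hT : 0 ≤ T) {α : ℝ} (h0 : 0 ≤ α) (h1 : α ≤ 1) :
    volume {a : ℝ | a ∈ Set.Icc (0 : ℝ) 1 ∧ |wd ν (wv a)| ≤ T} ≤
      ENNReal.ofReal ((4 * T / ‖ν‖) ^ α) := by
  have hn : 0 < ‖ν‖ := norm_pos_iff.2 hν
  have hx : 0 ≤ 4 * T / ‖ν‖ := by positivity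
  rcases le_total (4 * T / ‖ν‖) 1 with h | h
  · refine (vol1 hν hT).trans (ENNReal.ofReal_le_ofReal ?_)
    rcases hx.eq_or_lt with h2 | h2
    · rw [← h2]
      exact Real.rpow_nonneg le_rfl _
    · calc 4 * T / ‖ν‖ = (4 * T / ‖ν‖) ^ (1 : ℝ) := (Real.rpow_one _).symm
        _ ≤ (4 * T / ‖ν‖) ^ α := Real.rpow_le_rpow_of_exponent_ge h2 h h1
  · refine (vol_le_one _).trans ?_
    rw [← ENNReal.ofReal_one]
    exact ENNReal.ofReal_le_ofReal (Real.one_le_rpow h h0)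

end Pool.Agent.ERG
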