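import Pool.Agent.ERG.Rat
import Pool.Agent.ERG.Vol

/-!
# Module Dir (size 3): the distribution of the directions

For `X`, let `y = H^[j] X`, `A = Dn G j y`, `N = Dn H j X`; `A (N v) = v`, `N (A v) = v` (`D.DGDH`, `D.DHDG'`). `Vv G j a y = A (wv a)`,
`wd q (A (wv a)) = A.det * wd (N q) (wv a)` (`wd_map` with `q = A (N q)`), `‖wv a‖ = 1` for `a ∈ [0,1]`, so `‖A (wv a)‖ ≤ ‖A‖ ≤ 2 |det A| ‖N‖` (`mat2`).
So `|wd q (A (wv a))| ≤ t ‖q‖ ‖A (wv a)‖` implies `|wd (N q) (wv a)| ≤ 2 t ‖q‖ ‖N‖`, and `vol2` (with `ν = N q ≠ 0`, `α = s / 2`) bounds the volume by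
`(8 t ‖q‖ ‖N‖ / ‖N q‖) ^ (s/2) = (8 t) ^ (s/2) (‖N‖ ‖q‖ / ‖N q‖) ^ (s/2)`. Apply `Sm j` and `rat4`.
-/

set_option autoImplicit false

namespace Pool.Agent.ERG

open Pool.Agent.NUH MeasureTheory Filter Topology
open scoped ENNReal ContDiff NNReal

variable {M : Mt} {R : Finset (ℤ × ℤ)} {G H : ℝ × ℝ → ℝ × ℝ}
  {H' : ℝ × ℝ → (ℝ × ℝ →L[ℝ] ℝ × ℝ)} {K K₂ lam s C : ℝ}

theorem dir1 (D : Dat M R G H H' K K₂ lam s C) (j : ℕ) (X q : ℝ × ℝ) (hq : q ≠ 0) {t : ℝ}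
    (ht : 0 ≤ t) :
    volume {a : ℝ | a ∈ Set.Icc (0 : ℝ) 1 ∧
      |wd q (Vv G j a (H^[j] X))| ≤ t * ‖q‖ * ‖Vv G j a (H^[j] X)‖} ≤
      ENNReal.ofReal ((8 * t) ^ (s / 2)) *
        ENNReal.ofReal ((‖Dn H j X‖ * ‖q‖ / ‖Dn H j X q‖) ^ (s / 2)) := by
  have hNq : Dn H j X q ≠ 0 := D.DH_ne j X hq
  have hNq0 : 0 < ‖Dn H j X q‖ := norm_pos_iff.mpr hNq
  have hdet : 0 < |(Dn G j (H^[j] X)).det| := by
    have h := D.det_wt j X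
    rcases (abs_nonneg ((Dn G j (H^[j] X)).det)).lt_or_eq with h1 | h1
    · exact h1
    · rw [← h1, zero_mul] at h
      exact absurd h (by norm_num)
  have hA := mat2 (A := Dn G j (H^[j] X)) (N := Dn H j X) (D.DGDH j X)
  have hT : 0 ≤ 2 * t * ‖q‖ * ‖Dn H j X‖ := by positivity
  have hsub : {a : ℝ | a ∈ Set.Icc (0 : ℝ) 1 ∧
      |wd q (Vv G j a (H^[j] X))| ≤ t * ‖q‖ * ‖Vv G j a (H^[j] X)‖} ⊆
      {a : ℝ | a ∈ Set.Icc (0 : ℝ) 1 ∧ |wd (Dn H j X q) (wv a)| ≤ 2 * t * ‖q‖ * ‖Dn H j X‖} := by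
    rintro a ⟨ha, hb⟩
    refine ⟨ha, ?_⟩
    have e1 : wd q (Vv G j a (H^[j] X)) =
        (Dn G j (H^[j] X)).det * wd (Dn H j X q) (wv a) := by
      rw [← wd_map, D.DGDH]
      rfl
    have e2 : ‖Vv G j a (H^[j] X)‖ ≤ 2 * |(Dn G j (H^[j] X)).det| * ‖Dn H j X‖ := by
      have h1 : ‖Vv G j a (H^[j] X)‖ ≤ ‖Dn G j (H^[j] X)‖ * ‖wv a‖ :=
        ContinuousLinearMap.le_opNorm _ _
      rw [norm_wv ha, mul_one] at h1
      exact h1.trans hA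
    rw [e1, abs_mul] at hb
    have h3 : |(Dn G j (H^[j] X)).det| * |wd (Dn H j X q) (wv a)| ≤
        |(Dn G j (H^[j] X)).det| * (2 * t * ‖q‖ * ‖Dn H j X‖) := by
      calc |(Dn G j (H^[j] X)).det| * |wd (Dn H j X q) (wv a)|
          ≤ t * ‖q‖ * ‖Vv G j a (H^[j] X)‖ := hb
        _ ≤ t * ‖q‖ * (2 * |(Dn G j (H^[j] X)).det| * ‖Dn H j X‖) :=
            mul_le_mul_of_nonneg_left e2 (by positivity)
        _ = |(Dn G j (H^[j] X)).det| * (2 * t * ‖q‖ * ‖Dn H j X‖) := by ring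
    exact le_of_mul_le_mul_left h3 hdet
  refine (measure_mono hsub).trans ?_
  have hs0 : (0 : ℝ) ≤ s / 2 := by have := D.s0; linarith
  have hs1 : s / 2 ≤ 1 := by have := D.s1; have := D.s0; linarith
  refine (vol2 hNq hT hs0 hs1).trans ?_
  rw [← ENNReal.ofReal_mul (by positivity), ← Real.mul_rpow (by positivity) (by positivity)]
  apply le_of_eq
  congr 2
  field_simp
  ring

theorem dir2 (D : Dat M R G H H' K K₂ lam s C) (j : ℕ) (z q : ℝ × ℝ) (hq : q ≠ 0) {t : ℝ}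
    (ht : 0 ≤ t) :
    Sm M R H j (fun X => volume {a : ℝ | a ∈ Set.Icc (0 : ℝ) 1 ∧
      |wd q (Vv G j a (H^[j] X))| ≤ t * ‖q‖ * ‖Vv G j a (H^[j] X)‖}) z ≤
      ENNReal.ofReal ((8 * t) ^ (s / 2) * CR K lam s C) := by
  refine (Sm_mono j (Ψ' := fun X => ENNReal.ofReal ((8 * t) ^ (s / 2)) *
    ENNReal.ofReal ((‖Dn H j X‖ * ‖q‖ / ‖Dn H j X q‖) ^ (s / 2)))
    (fun k => dir1 D j (z + zc k) q hq ht)).trans ?_
  rw [Sm_mul, ENNReal.ofReal_mul (by positivity)]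
  exact mul_le_mul_right (rat4 D j z q hq) _

end Pool.Agent.ERG
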