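import Pool.Agent.ERG.Defs

/-!
# The standing data for maps of the `C¹` neighbourhood
-/

set_option autoImplicit false

namespace Pool.Agent.ERG

open Pool.Agent.NUH MeasureTheory Filter Topology
open scoped ENNReal ContDiff NNReal

theorem mom_of_ctr {R : Finset (ℤ × ℤ)} {H : ℝ × ℝ → ℝ × ℝ}
    {H' : ℝ × ℝ → (ℝ × ℝ →L[ℝ] ℝ × ℝ)} (hinj : ∀ x v, v ≠ 0 → H' x v ≠ 0) {s : ℝ} {n : ℕ}
    {ρ C : ℝ} (hC : Ctr R H H' s n ρ C) (k : ℕ) (x v : ℝ × ℝ) (hv : v ≠ 0) :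
    (LE R H H')^[k] (psE s) x v ≤ ENNReal.ofReal (C ^ n) * psE s x v := by
  have hn := hC.n0
  have hρ0 := hC.ρ0
  have hρ1 := hC.ρ1
  have hC1 := hC.C1
  have hone : ∀ i : ℕ, ∀ x v, v ≠ 0 →
      (LE R H H')^[i] (psE s) x v ≤ ENNReal.ofReal C ^ i * psE s x v := by
    intro i x v hv
    have := LE_pow (R := R) (H := H) hinj (g := 1) (c := ENNReal.ofReal C) (Ψ := psE s)
      (fun x v hv => by simpa using hC.one x v hv) i x v hv
    simpa using this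
  have e : k = n * (k / n) + k % n := (Nat.div_add_mod k n).symm
  have h1 : (LE R H H')^[k] (psE s) x v ≤
      ENNReal.ofReal C ^ (k % n) * (ENNReal.ofReal ρ ^ (k / n) * psE s x v) := by
    conv_lhs => rw [e]
    rw [Function.iterate_add_apply]
    refine (LE_mono hinj (hone (k % n)) _ x v hv).trans ?_
    rw [LE_const]
    exact mul_le_mul_right (LE_pow hinj hC.pow (k / n) x v hv) _
  refine h1.trans ?_
  have h2 : ENNReal.ofReal C ^ (k % n) ≤ ENNReal.ofReal (C ^ n) := by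
    rw [← ENNReal.ofReal_pow (by linarith)]
    exact ENNReal.ofReal_le_ofReal (pow_le_pow_right₀ hC1 (Nat.mod_lt k hn).le)
  have h3 : ENNReal.ofReal ρ ^ (k / n) ≤ 1 :=
    pow_le_one' (ENNReal.ofReal_le_one.mpr hρ1.le) _
  calc ENNReal.ofReal C ^ (k % n) * (ENNReal.ofReal ρ ^ (k / n) * psE s x v)
      ≤ ENNReal.ofReal (C ^ n) * (1 * psE s x v) := by gcongr
    _ = _ := by rw [one_mul]

theorem bdd_per {E : Type*} [NormedAddCommGroup E] {g : ℝ × ℝ → E} (hc : Continuous g)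
    (hp : ∀ x k, g (x + zc k) = g x) : ∃ B : ℝ, 0 ≤ B ∧ ∀ z, ‖g z‖ ≤ B := by
  obtain ⟨B, hB⟩ := (isCompact_closedBall (0 : ℝ × ℝ) 2).exists_bound_of_continuousOn
    hc.continuousOn
  have hB0 : 0 ≤ B := (norm_nonneg _).trans (hB 0 (by simp))
  refine ⟨B, hB0, fun z => ?_⟩
  have e := hp (z - zc (fl z)) (fl z)
  rw [sub_add_cancel] at e
  rw [e]
  apply hB
  rw [Metric.mem_closedBall, dist_zero_right]
  linarith [norm_sub_fl z]

/-- the derivative of a `C²` lift is Lipschitz -/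
theorem exists_lip {M : Mt} {Φ : ℝ × ℝ → ℝ × ℝ} (h : ContDiff ℝ 2 Φ)
    (hp : ∀ z k, Φ (z + zc k) = Φ z + zc (mv M k)) :
    ∃ K₂ : ℝ, 0 ≤ K₂ ∧ ∀ z z', ‖fderiv ℝ Φ z - fderiv ℝ Φ z'‖ ≤ K₂ * ‖z - z'‖ := by
  have hd : Differentiable ℝ Φ := h.differentiable (by norm_num)
  have h1 : ContDiff ℝ 1 (fderiv ℝ Φ) := h.fderiv_right (by norm_num)
  have hd1 : Differentiable ℝ (fderiv ℝ Φ) := h1.differentiable one_ne_zero
  have h2 : Continuous (fderiv ℝ (fderiv ℝ Φ)) := h1.continuous_fderiv one_ne_zero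
  have hper1 : ∀ z k, fderiv ℝ Φ (z + zc k) = fderiv ℝ Φ z := fderiv_per hd hp
  have hper2 : ∀ z k, fderiv ℝ (fderiv ℝ Φ) (z + zc k) = fderiv ℝ (fderiv ℝ Φ) z := by
    intro z k
    have e1 : HasFDerivAt (fun y => fderiv ℝ Φ (y + zc k)) (fderiv ℝ (fderiv ℝ Φ) (z + zc k)) z := by
      have := (hd1 (z + zc k)).hasFDerivAt.comp z ((hasFDerivAt_id z).add_const (zc k))
      rw [ContinuousLinearMap.comp_id] at this
      exact this
    have e2 : HasFDerivAt (fun y => fderiv ℝ Φ (y + zc k)) (fderiv ℝ (fderiv ℝ Φ) z) z := by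
      have : (fun y => fderiv ℝ Φ (y + zc k)) = fun y => fderiv ℝ Φ y := by
        funext y; exact hper1 y k
      rw [this]
      exact (hd1 z).hasFDerivAt
    exact e1.unique e2
  obtain ⟨B, hB0, hb⟩ := bdd_per h2 hper2
  refine ⟨B, hB0, fun z z' => ?_⟩
  exact Convex.norm_image_sub_le_of_norm_hasFDerivWithin_le (𝕜 := ℝ) (s := Set.univ)
    (fun z _ => (hd1 z).hasFDerivAt.hasFDerivWithinAt) (fun z _ => hb z) convex_univ
    (Set.mem_univ z') (Set.mem_univ z)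

/-- the standing data -/
theorem exists_dat {M : Mt} (hΔ : M.det ≠ 0) {R : Finset (ℤ × ℤ)} (hR : Res M R) (hE : ResE M R)
    (hu : ∀ m ∈ R, ∀ m' ∈ R, ∀ j, m = m' + mv M j → m = m') {Φ H : ℝ × ℝ → ℝ × ℝ}
    {H' : ℝ × ℝ → (ℝ × ℝ →L[ℝ] ℝ × ℝ)} (L : Lift M Φ H H') (hΦ : ContDiff ℝ 2 Φ)
    {s : ℝ} {n : ℕ} {ρ C K : ℝ} (hs1 : s ≤ 1) (hC : Ctr R H H' s n ρ C)
    (hinj : ∀ x v, v ≠ 0 → H' x v ≠ 0) (hdet : ∀ z, 3 / 2 ≤ |(fderiv ℝ Φ z).det|) (hK : 1 ≤ K)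
    (hup : ∀ z, ‖fderiv ℝ Φ z‖ ≤ K) (hupH : ∀ x, ‖H' x‖ ≤ K)
    (hmass : ∀ x, ∑ m ∈ R, |(H' (x + zc m)).det| = 1) :
    ∃ K₂ lam C' : ℝ, Dat M R Φ H H' K K₂ lam s C' := by
  obtain ⟨K₂, hK₂, hlip⟩ := exists_lip hΦ L.per
  refine ⟨K₂, 21 / 20, C ^ n, ?_⟩
  exact {
    lift := L
    smooth := hΦ.of_le (by norm_num)
    det0 := hΔ
    res := hR
    resE := hE
    uniq := hu
    K1 := hK
    up := hup
    upH := hupH
    K₂0 := hK₂
    lip := hlip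
    lam1 := by norm_num
    detG := fun z => by
      refine le_trans ?_ (hdet z)
      norm_num
    mass := hmass
    s0 := hC.s0
    s1 := hs1
    C1 := one_le_pow₀ hC.C1
    mom := mom_of_ctr hinj hC }

end Pool.Agent.ERG
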