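import Pool.Agent.ERG.Fin

/-!
# Non-injectivity, and the linear part of close maps
-/

set_option autoImplicit false

namespace Pool.Agent.ERG

open Pool.Agent.NUH MeasureTheory Filter Topology
open scoped ENNReal ContDiff NNReal

theorem exists_not_range {E : Mt} (hE : 2 ≤ |E.det|) : ∃ k : ℤ × ℤ, ∀ j, mv E j ≠ k := by
  have hΔ : E.det ≠ 0 := by intro h; rw [h] at hE; simp at hE
  by_contra h
  push Not at h
  have htop : LinearMap.range (mvL E) = ⊤ := by
    rw [LinearMap.range_eq_top]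
    intro k
    obtain ⟨j, hj⟩ := h k
    exact ⟨j, hj⟩
  have hc := card_quot hΔ
  rw [htop] at hc
  have h1 : Nat.card ((ℤ × ℤ) ⧸ (⊤ : Submodule ℤ (ℤ × ℤ))) = 1 := by
    have : Subsingleton ((ℤ × ℤ) ⧸ (⊤ : Submodule ℤ (ℤ × ℤ))) := by
      rw [Submodule.Quotient.subsingleton_iff]
    exact Nat.card_unique
  rw [h1] at hc
  rw [Int.abs_eq_natAbs] at hE
  omega

theorem cj_surj {E U V M : Mt} (hS : Sim E U V M) (hΔ : M.det ≠ 0) (f : ℝ → ℝ) (x : ℝ × ℝ) :
    cj U V (fwd M f) (mr U (br M f (mr V x))) = x := by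
  unfold cj
  rw [hS.VUz, fwd_br hΔ, hS.UVz]

theorem not_injective {E U V M : Mt} (hE : 2 ≤ |E.det|) (hS : Sim E U V M) (hΔ : M.det ≠ 0)
    {f : ℝ → ℝ} (hf : Per f) : ¬ Function.Injective (fT U V M hf) := by
  intro hinj
  obtain ⟨k, hk⟩ := exists_not_range hE
  set F := cj U V (fwd M f) with hF
  have hFper : ∀ z j, F (z + zc j) = F z + zc (mv E j) := cj_per hS (fwd_per M hf)
  have h1 := cj_surj hS hΔ f (F 0 + zc k)
  rw [← hF] at h1
  set z := mr U (br M f (mr V (F 0 + zc k)))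
  have h2 : fT U V M hf (pr z) = fT U V M hf (pr 0) := by
    rw [fT_pr, fT_pr, ← hF, h1, pr_add_zc]
  obtain ⟨j, hj⟩ := pr_eq (hinj h2)
  rw [zero_add] at hj
  have h3 := hFper 0 j
  rw [zero_add, ← hj, h1] at h3
  have h4 : zc k = zc (mv E j) := add_left_cancel h3
  apply hk j
  unfold zc at h4
  have e1 := congrArg Prod.fst h4
  have e2 := congrArg Prod.snd h4
  simp only at e1 e2
  ext
  · exact_mod_cast e1.symm
  · exact_mod_cast e2.symm

/-- maps at bounded distance have the same linear part -/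
theorem same_linear {E E' : Mt} {F G : ℝ × ℝ → ℝ × ℝ} {δ : ℝ}
    (hF : ∀ z k, F (z + zc k) = F z + zc (mv E k)) (hG : ∀ z k, G (z + zc k) = G z + zc (mv E' k))
    (h : ∀ z, ‖G z - F z‖ ≤ δ) (k : ℤ × ℤ) : mv E' k = mv E k := by
  have hlin : ∀ (A : Mt) (n : ℕ), zc (mv A (n • k)) = (n : ℝ) • zc (mv A k) := by
    intro A n
    have : mv A (n • k) = n • mv A k := by
      rw [← mvL_apply, ← mvL_apply, map_nsmul]
    rw [this]
    unfold zc
    ext
    · simp
    · simp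
  have h1 : ∀ n : ℕ, (n : ℝ) * ‖zc (mv E' k) - zc (mv E k)‖ ≤ 2 * δ := by
    intro n
    have a1 := h (0 + zc (n • k))
    rw [hG, hF, hlin, hlin] at a1
    have a2 := h 0
    have a3 : (n : ℝ) • (zc (mv E' k) - zc (mv E k)) =
        (G 0 + (n : ℝ) • zc (mv E' k) - (F 0 + (n : ℝ) • zc (mv E k))) - (G 0 - F 0) := by
      rw [smul_sub]; abel
    have a4 : ‖(n : ℝ) • (zc (mv E' k) - zc (mv E k))‖ ≤ δ + δ := by
      rw [a3]
      exact (norm_sub_le _ _).trans (add_le_add a1 a2)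
    rw [norm_smul, Real.norm_natCast] at a4
    linarith
  have h2 : ‖zc (mv E' k) - zc (mv E k)‖ = 0 := by
    by_contra hne
    have hpos : 0 < ‖zc (mv E' k) - zc (mv E k)‖ := lt_of_le_of_ne (norm_nonneg _) (Ne.symm hne)
    obtain ⟨n, hn⟩ := exists_nat_gt (2 * δ / ‖zc (mv E' k) - zc (mv E k)‖)
    rw [div_lt_iff₀ hpos] at hn
    linarith [h1 n]
  have h3 := sub_eq_zero.mp (norm_eq_zero.mp h2)
  unfold zc at h3
  have e1 := congrArg Prod.fst h3
  have e2 := congrArg Prod.snd h3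
  simp only at e1 e2
  ext
  · exact_mod_cast e1
  · exact_mod_cast e2

end Pool.Agent.ERG
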