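import Pool.Agent.ERG.Defs

/-!
# Module Glb (size 3): from balls to the plane

`glb1`: if `volume (B ∩ A) ≠ 0` and `volume (B \ A) ≠ 0` (`B = closedBall x0 ρ`) then the double integral is at least `volume (B ∩ A) * volume (B \ A) > 0` (restrict `z` to `B ∩ A` and `x` to `B \ A`;
`lintegral_ind`, `setLIntegral_const`). So for every `x0`: `volume (B ∩ A) = 0` or `volume (B \ A) = 0`.
`glb`: let `U = {x0 | volume (closedBall x0 ρ ∩ A) = 0}`, `W = {x0 | volume (closedBall x0 ρ \ A) = 0}`; `U ∪ W = univ`. If `dist x0 x1 < ρ` the intersection of the two balls contains a ball of positive radius, hence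
has positive volume, so it cannot happen that `x0 ∈ U`, `x1 ∈ W` (then the intersection would be the union of two null sets). So `U` and `W` are disjoint and both open: by connectedness of the
plane (`IsClopen`, `isClopen_iff`, or `PreconnectedSpace`) `U = univ` or `W = univ`. If `U = univ`, then `A` is covered by countably many null sets (balls with centres in a countable dense set,
or `measure_null_of_locally_null`); same for the complement.
-/

set_option autoImplicit false

namespace Pool.Agent.ERG

open Pool.Agent.NUH MeasureTheory Filter Topology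
open scoped ENNReal ContDiff NNReal

theorem glb1 {A : Set (ℝ × ℝ)} (hA : MeasurableSet A) {ρ : ℝ} (x0 : ℝ × ℝ)
    (h : ∫⁻ z in Metric.closedBall x0 ρ, ∫⁻ x in Metric.closedBall x0 ρ,
      ind (¬ (x ∈ A ↔ z ∈ A)) = 0) :
    volume (Metric.closedBall x0 ρ ∩ A) = 0 ∨ volume (Metric.closedBall x0 ρ \ A) = 0 := by
  set B := Metric.closedBall x0 ρ with hB
  have hBm : MeasurableSet B := Metric.isClosed_closedBall.measurableSet
  by_contra hcon
  push Not at hcon
  obtain ⟨h1, h2⟩ := hcon
  have hle : volume (B ∩ A) * volume (B \ A) ≤ 0 := by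
    rw [← h]
    calc volume (B ∩ A) * volume (B \ A)
        = ∫⁻ z in B ∩ A, volume (B \ A) := by
          rw [setLIntegral_const, mul_comm]
      _ ≤ ∫⁻ z in B ∩ A, ∫⁻ x in B, ind (¬ (x ∈ A ↔ z ∈ A)) := by
          refine setLIntegral_mono' (hBm.inter hA) ?_
          intro z hz
          calc volume (B \ A) = ∫⁻ x in B \ A, 1 := by rw [setLIntegral_const, one_mul]
            _ ≤ ∫⁻ x in B \ A, ind (¬ (x ∈ A ↔ z ∈ A)) := by
              refine setLIntegral_mono' (hBm.diff hA) ?_
              intro x hx
              rw [ind_pos]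
              intro hh
              exact hx.2 (hh.2 hz.2)
            _ ≤ _ := lintegral_mono_set Set.sdiff_subset
      _ ≤ _ := lintegral_mono_set Set.inter_subset_left
  have := mul_ne_zero h1 h2
  exact this (le_antisymm hle zero_le)

theorem glb {A : Set (ℝ × ℝ)} (hA : MeasurableSet A) {ρ : ℝ} (hρ : 0 < ρ)
    (h : ∀ x0 : ℝ × ℝ, ∫⁻ z in Metric.closedBall x0 ρ, ∫⁻ x in Metric.closedBall x0 ρ,
      ind (¬ (x ∈ A ↔ z ∈ A)) = 0) : volume A = 0 ∨ volume Aᶜ = 0 := by
  have hall : ∀ x0, volume (Metric.closedBall x0 ρ ∩ A) = 0 ∨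
      volume (Metric.closedBall x0 ρ \ A) = 0 := fun x0 => glb1 hA x0 (h x0)
  set U : Set (ℝ × ℝ) := {x0 | volume (Metric.closedBall x0 ρ ∩ A) = 0} with hU
  have key : ∀ x0 x1 : ℝ × ℝ, dist x0 x1 < ρ → x0 ∈ U → x1 ∈ U := by
    intro x0 x1 hd h0
    rcases hall x1 with h1 | h1
    · exact h1
    · exfalso
      have hsub : Metric.closedBall x0 (ρ - dist x0 x1) ⊆
          (Metric.closedBall x0 ρ ∩ A) ∪ (Metric.closedBall x1 ρ \ A) := by
        intro y hy
        rw [Metric.mem_closedBall] at hy
        by_cases hyA : y ∈ A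
        · left
          refine ⟨?_, hyA⟩
          rw [Metric.mem_closedBall]
          have := dist_nonneg (x := x0) (y := x1)
          linarith
        · right
          refine ⟨?_, hyA⟩
          rw [Metric.mem_closedBall]
          have := dist_triangle y x0 x1
          linarith
      have hpos : 0 < volume (Metric.closedBall x0 (ρ - dist x0 x1)) :=
        Metric.measure_closedBall_pos _ _ (by linarith)
      have h00 : volume (Metric.closedBall x0 (ρ - dist x0 x1)) = 0 :=
        measure_mono_null hsub (measure_union_null h0 h1)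
      exact hpos.ne' h00
  have hopen : IsOpen U := by
    rw [Metric.isOpen_iff]
    intro x hx
    refine ⟨ρ, hρ, ?_⟩
    intro y hy
    rw [Metric.mem_ball] at hy
    exact key x y (by rwa [dist_comm]) hx
  have hclosed : IsClosed U := by
    rw [← isOpen_compl_iff, Metric.isOpen_iff]
    intro x hx
    refine ⟨ρ, hρ, ?_⟩
    intro y hy hyU
    rw [Metric.mem_ball] at hy
    exact hx (key y x hy hyU)
  have hclopen : IsClopen U := ⟨hclosed, hopen⟩
  rcases isClopen_iff.1 hclopen with hE | hE
  · right
    refine measure_null_of_locally_null _ ?_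
    intro x _
    refine ⟨Metric.closedBall x ρ ∩ Aᶜ, ?_, ?_⟩
    · exact Filter.inter_mem (mem_nhdsWithin_of_mem_nhds (Metric.closedBall_mem_nhds x hρ)) self_mem_nhdsWithin
    · have hx : x ∉ U := by rw [hE]; exact Set.notMem_empty x
      rcases hall x with h1 | h1
      · exact absurd h1 hx
      · rw [Set.sdiff_eq] at h1; exact h1
  · left
    refine measure_null_of_locally_null _ ?_
    intro x _
    refine ⟨Metric.closedBall x ρ ∩ A, ?_, ?_⟩
    · exact Filter.inter_mem (mem_nhdsWithin_of_mem_nhds (Metric.closedBall_mem_nhds x hρ)) self_mem_nhdsWithin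
    · have hx : x ∈ U := by rw [hE]; exact Set.mem_univ x
      exact hx

end Pool.Agent.ERG
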