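import Pool.Agent.ERG.Defs

/-!
# Module Tor (size 2): integrals over the torus and over the square

`pr` restricted to `Ioc 0 1 ×ˢ Ioc 0 1` is measure preserving onto the torus (`UnitAddCircle.measurePreserving_mk`/`AddCircle.measurePreserving_mk`, `MeasurePreserving.prod`,
`Measure.prod_restrict`; compare `sec_qmp` in NUH/Torus.lean), and `Ioc` and `Ico` differ by null sets (`Ico_ae_eq_Ioc`, products of a.e. equal sets, or `Measure.restrict_congr_set` in each
factor). `volume` on `T2` is `volume.prod volume`.
-/

set_option autoImplicit false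

namespace Pool.Agent.ERG

open Pool.Agent.NUH MeasureTheory Filter Topology
open scoped ENNReal ContDiff NNReal

theorem pr_meas : Measurable pr := by
  have h : Continuous pr := by
    have h1 : Continuous fun z : ℝ × ℝ => ((z.1 : UnitAddCircle), (z.2 : UnitAddCircle)) :=
      ((AddCircle.continuous_mk' 1).comp continuous_fst).prodMk
        ((AddCircle.continuous_mk' 1).comp continuous_snd)
    exact h1
  exact h.measurable

theorem tor {φ : T2 → ℝ≥0∞} (hφ : Measurable φ) : ∫⁻ z in Q, φ (pr z) = ∫⁻ x : T2, φ x := by
  have h0 : MeasurePreserving (fun x : ℝ => (x : UnitAddCircle))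
      (volume.restrict (Set.Ioc (0 : ℝ) (0 + 1))) volume := UnitAddCircle.measurePreserving_mk 0
  have h1 : MeasurePreserving (fun x : ℝ => (x : UnitAddCircle))
      (volume.restrict (Set.Ico (0 : ℝ) 1)) volume := by
    have e : (volume : Measure ℝ).restrict (Set.Ico (0 : ℝ) 1) =
        volume.restrict (Set.Ioc (0 : ℝ) (0 + 1)) := by
      rw [zero_add]
      exact Measure.restrict_congr_set Ico_ae_eq_Ioc
    rw [e]; exact h0
  have h2 := h1.prod h1
  rw [Measure.prod_restrict] at h2
  have h3 : MeasurePreserving pr ((volume : Measure (ℝ × ℝ)).restrict Q) (volume : Measure T2) := h2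
  exact h3.lintegral_comp hφ

theorem sec_meas : Measurable sec := by
  exact sec_qmp.measurable

/-- a periodic function on the plane is a function of the projection -/
theorem per_sec {E : Type} {f : ℝ × ℝ → E} (hf : ∀ z k, f (z + zc k) = f z) (z : ℝ × ℝ) :
    f (sec (pr z)) = f z := by
  obtain ⟨k, hk⟩ := pr_eq (pr_sec (pr z))
  rw [hk, hf]

end Pool.Agent.ERG
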