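import Pool.Agent.ERG.Tre
import Pool.Agent.ERG.Tor

/-!
# Module Mas (size 4): the weights of a measure preserving map have sum one

Let `J x = ∑ m ∈ R, ofReal |(H' (x + zc m)).det|`: continuous and periodic (`L.det_meas`, `ResE` with `L.perH'`). For `φ : T2 → ℝ≥0∞` measurable: by `tor`, measure preservation
(`MeasurePreserving.lintegral_comp`), `g (pr z) = pr (G z)`, and `transfer_eq` for the periodic function `z ↦ φ (pr (G z))` (`pr (G (z + zc k)) = pr (G z)` by `L.per`, `pr_add_zc`), with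
`pr (G (H (x + zc m))) = pr (x + zc m) = pr x`:
`∫⁻ x in Q, φ (pr x) = ∫⁻ z in Q, φ (pr (G z)) = ∫⁻ x in Q, J x * φ (pr x)`. So `∫⁻ x in Q, ψ x = ∫⁻ x in Q, J x * ψ x` for every periodic measurable `ψ` (`ψ = (ψ ∘ sec) ∘ pr`, `per_sec`, `sec_meas`). Take `ψ = 1`
on `{J > 1 + ε}` (periodic set) and `0` elsewhere: that set has measure zero in `Q`, all its translates too, so by continuity (a nonempty open set has positive measure) `J ≤ 1` everywhere; in the
same way `J ≥ 1` (the set `{J < 1 - ε}`, `Q` has finite measure). Hence `J = 1` and the real sum is `1` (`ENNReal.ofReal_sum_of_nonneg`, `ENNReal.toReal`).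
-/

set_option autoImplicit false

namespace Pool.Agent.ERG

open Pool.Agent.NUH MeasureTheory Filter Topology
open scoped ENNReal ContDiff NNReal

private theorem mas_open {A : Set (ℝ × ℝ)} (hA : IsOpen A) (hp : ∀ z k, z + zc k ∈ A ↔ z ∈ A)
    (h0 : (volume : Measure (ℝ × ℝ)) (A ∩ Q) = 0) : A = ∅ := by
  by_contra hne
  obtain ⟨x0, hx0⟩ := Set.nonempty_iff_ne_empty.mpr hne
  have h1 : x0 - zc (fl x0) ∈ A := by
    rw [← hp (x0 - zc (fl x0)) (fl x0), sub_add_cancel]; exact hx0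
  have hcl : x0 - zc (fl x0) ∈ closure (Set.Ioo (0 : ℝ) 1 ×ˢ Set.Ioo (0 : ℝ) 1) := by
    rw [closure_prod_eq, closure_Ioo zero_ne_one, Set.mem_prod, Set.mem_Icc, Set.mem_Icc]
    have a1 := Int.floor_le x0.1
    have a2 := Int.lt_floor_add_one x0.1
    have a3 := Int.floor_le x0.2
    have a4 := Int.lt_floor_add_one x0.2
    unfold zc fl
    simp only [Prod.fst_sub, Prod.snd_sub]
    refine ⟨⟨?_, ?_⟩, ⟨?_, ?_⟩⟩ <;> linarith
  obtain ⟨y, hyA, hyI⟩ := mem_closure_iff.mp hcl A hA h1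
  have hop : IsOpen (A ∩ (Set.Ioo (0 : ℝ) 1 ×ˢ Set.Ioo (0 : ℝ) 1)) :=
    hA.inter (isOpen_Ioo.prod isOpen_Ioo)
  have hpos := hop.measure_pos (volume : Measure (ℝ × ℝ)) ⟨y, hyA, hyI⟩
  have hsub : A ∩ (Set.Ioo (0 : ℝ) 1 ×ˢ Set.Ioo (0 : ℝ) 1) ⊆ A ∩ Q :=
    Set.inter_subset_inter_right _ (Set.prod_mono Set.Ioo_subset_Ico_self Set.Ioo_subset_Ico_self)
  have := measure_mono (μ := (volume : Measure (ℝ × ℝ))) hsub
  rw [h0] at this
  exact absurd hpos (not_lt.mpr this)

private theorem mas_Q_fin (A : Set (ℝ × ℝ)) : (volume : Measure (ℝ × ℝ)) (A ∩ Q) ≠ ⊤ := by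
  have h1 : (volume : Measure (ℝ × ℝ)) Q ≠ ⊤ := by
    have h2 : Q ⊆ Set.Icc (0 : ℝ) 1 ×ˢ Set.Icc (0 : ℝ) 1 :=
      Set.prod_mono Set.Ico_subset_Icc_self Set.Ico_subset_Icc_self
    have h3 : (volume : Measure (ℝ × ℝ)) (Set.Icc (0 : ℝ) 1 ×ˢ Set.Icc (0 : ℝ) 1) < ⊤ :=
      (isCompact_Icc.prod isCompact_Icc).measure_lt_top
    exact ((measure_mono h2).trans_lt h3).ne
  exact ne_top_of_le_ne_top h1 (measure_mono Set.inter_subset_right)

theorem mas {M : Mt} {G H : ℝ × ℝ → ℝ × ℝ} {H' : ℝ × ℝ → (ℝ × ℝ →L[ℝ] ℝ × ℝ)}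
    (L : Lift M G H H') (det0 : M.det ≠ 0) {R : Finset (ℤ × ℤ)} (hR : Res M R) (hE : ResE M R)
    (uniq : ∀ m ∈ R, ∀ m' ∈ R, ∀ j, m = m' + mv M j → m = m') {g : T2 → T2}
    (hg : ∀ z, g (pr z) = pr (G z))
    (hmp : MeasurePreserving g (volume : Measure T2) (volume : Measure T2)) (x : ℝ × ℝ) :
    ∑ m ∈ R, |(H' (x + zc m)).det| = 1 := by
  set J : ℝ × ℝ → ℝ≥0∞ := fun x => ∑ m ∈ R, ENNReal.ofReal |(H' (x + zc m)).det| with hJ
  have hJc : Continuous J := by
    refine continuous_finsetSum _ fun m _ => ?_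
    exact ENNReal.continuous_ofReal.comp
      ((L.det_meas.comp (continuous_id.add continuous_const)).abs)
  have hJp : ∀ z k, J (z + zc k) = J z := by
    intro z k
    have h := hE (fun m => ENNReal.ofReal |(H' (z + zc m)).det|) (fun m j => by
      show ENNReal.ofReal |(H' (z + zc (m + mv M j))).det| = ENNReal.ofReal |(H' (z + zc m)).det|
      rw [zc_add, ← add_assoc, L.perH']) k
    show ∑ m ∈ R, ENNReal.ofReal |(H' (z + zc k + zc m)).det| =
      ∑ m ∈ R, ENNReal.ofReal |(H' (z + zc m)).det|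
    rw [← h]
    refine Finset.sum_congr rfl fun m _ => ?_
    show _ = ENNReal.ofReal |(H' (z + zc (m + k))).det|
    rw [zc_add, add_comm (zc m), add_assoc]
  have key : ∀ ψ : ℝ × ℝ → ℝ≥0∞, Measurable ψ → (∀ z k, ψ (z + zc k) = ψ z) →
      ∫⁻ x in Q, ψ x = ∫⁻ x in Q, J x * ψ x := by
    intro ψ hψ hper
    have hs : Measurable fun x : T2 => ψ (sec x) := hψ.comp sec_meas
    have e1 : ∫⁻ x in Q, ψ x = ∫⁻ x : T2, ψ (sec x) := by
      rw [← tor hs]
      congr 1
      funext z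
      exact (per_sec hper z).symm
    have e2 : ∫⁻ x : T2, ψ (sec x) = ∫⁻ x : T2, ψ (sec (g x)) := (hmp.lintegral_comp hs).symm
    have e3 : ∫⁻ x : T2, ψ (sec (g x)) = ∫⁻ z in Q, ψ (G z) := by
      rw [← tor (φ := fun x => ψ (sec (g x))) (hs.comp hmp.measurable)]
      congr 1
      funext z
      rw [hg, per_sec hper]
    have e4 := transfer_eq L det0 hR uniq (φ := fun z => ψ (G z)) (hψ.comp L.contΦ.measurable)
      (fun z k => by rw [L.per, hper])
    rw [e1, e2, e3, e4]
    congr 1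
    funext z
    rw [hJ, Finset.sum_mul]
    refine Finset.sum_congr rfl fun m _ => ?_
    rw [L.right, hper]
  have hind : ∀ A : Set (ℝ × ℝ), MeasurableSet A → (∀ z k, z + zc k ∈ A ↔ z ∈ A) →
      (volume : Measure (ℝ × ℝ)) (A ∩ Q) = ∫⁻ x in Q, J x * A.indicator 1 x := by
    intro A hA hp
    rw [← key (A.indicator 1) (measurable_one.indicator hA) ?_, lintegral_indicator_one hA,
      Measure.restrict_apply hA]
    intro z k
    by_cases hz : z ∈ A
    · rw [Set.indicator_of_mem hz, Set.indicator_of_mem ((hp z k).mpr hz)]; rfl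
    · rw [Set.indicator_of_notMem hz, Set.indicator_of_notMem (fun h => hz ((hp z k).mp h))]
  have hcon : ∀ (A : Set (ℝ × ℝ)) (c : ℝ≥0∞), MeasurableSet A →
      ∫⁻ x in Q, c * A.indicator 1 x = c * (volume : Measure (ℝ × ℝ)) (A ∩ Q) := by
    intro A c hA
    rw [lintegral_const_mul _ (measurable_one.indicator hA), lintegral_indicator_one hA,
      Measure.restrict_apply hA]
  have hle : J x ≤ 1 := by
    by_contra hlt
    rw [not_le] at hlt
    obtain ⟨c, hc1, hc2⟩ := exists_between hlt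
    have hop : IsOpen {z | c < J z} := isOpen_lt continuous_const hJc
    have hp : ∀ z k, z + zc k ∈ {z | c < J z} ↔ z ∈ {z | c < J z} := by
      intro z k
      simp only [Set.mem_ofPred_eq, hJp]
    have h1 := hind _ hop.measurableSet hp
    have h2 : c * (volume : Measure (ℝ × ℝ)) ({z | c < J z} ∩ Q) ≤
        (volume : Measure (ℝ × ℝ)) ({z | c < J z} ∩ Q) := by
      conv_rhs => rw [h1]
      rw [← hcon _ c hop.measurableSet]
      refine lintegral_mono fun z => ?_
      by_cases hz : z ∈ {z | c < J z}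
      · rw [Set.indicator_of_mem hz]
        exact mul_le_mul_left (le_of_lt hz) _
      · rw [Set.indicator_of_notMem hz]; simp
    have h3 : (volume : Measure (ℝ × ℝ)) ({z | c < J z} ∩ Q) = 0 := by
      by_contra h0
      have hf := mas_Q_fin {z | c < J z}
      have h4 := ENNReal.mul_lt_mul_left h0 hf hc1
      rw [one_mul] at h4
      exact absurd h2 (not_le.mpr h4)
    have h5 := mas_open hop hp h3
    have h6 : x ∈ ({z | c < J z} : Set (ℝ × ℝ)) := hc2
    rw [h5] at h6
    exact h6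
  have hge : 1 ≤ J x := by
    by_contra hlt
    rw [not_le] at hlt
    obtain ⟨c, hc1, hc2⟩ := exists_between hlt
    have hop : IsOpen {z | J z < c} := isOpen_lt hJc continuous_const
    have hp : ∀ z k, z + zc k ∈ {z | J z < c} ↔ z ∈ {z | J z < c} := by
      intro z k
      simp only [Set.mem_ofPred_eq, hJp]
    have h1 := hind _ hop.measurableSet hp
    have h2 : (volume : Measure (ℝ × ℝ)) ({z | J z < c} ∩ Q) ≤
        c * (volume : Measure (ℝ × ℝ)) ({z | J z < c} ∩ Q) := by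
      conv_lhs => rw [h1]
      rw [← hcon _ c hop.measurableSet]
      refine lintegral_mono fun z => ?_
      by_cases hz : z ∈ {z | J z < c}
      · rw [Set.indicator_of_mem hz]
        exact mul_le_mul_left (le_of_lt hz) _
      · rw [Set.indicator_of_notMem hz]; simp
    have h3 : (volume : Measure (ℝ × ℝ)) ({z | J z < c} ∩ Q) = 0 := by
      by_contra h0
      have hf := mas_Q_fin {z | J z < c}
      have h4 := ENNReal.mul_lt_mul_left h0 hf hc2
      rw [one_mul] at h4
      exact absurd h2 (not_le.mpr h4)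
    have h5 := mas_open hop hp h3
    have h6 : x ∈ ({z | J z < c} : Set (ℝ × ℝ)) := hc1
    rw [h5] at h6
    exact h6
  have hJ1 : J x = 1 := le_antisymm hle hge
  rw [hJ] at hJ1
  simp only at hJ1
  rw [← ENNReal.ofReal_sum_of_nonneg fun m _ => abs_nonneg _] at hJ1
  have := congrArg ENNReal.toReal hJ1
  rw [ENNReal.toReal_ofReal (Finset.sum_nonneg fun m _ => abs_nonneg _), ENNReal.toReal_one] at this
  exact this

end Pool.Agent.ERG
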