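import Pool.Agent.ERG.Dtm
import Pool.Agent.ERG.Asm
import Pool.Agent.ERG.Glb
import Pool.Agent.ERG.Mas

/-!
# Stable ergodicity and non-uniform hyperbolicity in every homotopy class
-/

set_option autoImplicit false

namespace Pool.Agent.ERG

open Pool.Agent.NUH MeasureTheory Filter Topology
open scoped ENNReal ContDiff NNReal

/-- invariant periodic sets of the plane are null or full -/
theorem erg {M : Mt} {R : Finset (ℤ × ℤ)} {G H : ℝ × ℝ → ℝ × ℝ}
    {H' : ℝ × ℝ → (ℝ × ℝ →L[ℝ] ℝ × ℝ)} {K K₂ lam s C : ℝ}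
    (D : Dat M R G H H' K K₂ lam s C) {A : Set (ℝ × ℝ)} (hA : MeasurableSet A)
    (hper : ∀ z k, z + zc k ∈ A ↔ z ∈ A) (hinv : G ⁻¹' A = A) : volume A = 0 ∨ volume Aᶜ = 0 := by
  obtain ⟨ρ, hρ, h⟩ := asm D
  exact glb hA hρ (h A hA hper hinv)

/-- the conjugate map of the torus -/
theorem cj_torus {E U V M : Mt} (G : ℝ × ℝ → ℝ × ℝ) {g : T2 → T2}
    (hg : ∀ z, g (pr z) = pr (G z)) (z : ℝ × ℝ) :
    (mT V (g (mT U (pr z)))) = pr (cj V U G z) := by
  rw [mT_pr, hg, mT_pr]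
  rfl

theorem plane_erg (E : Mt) (hE : 2 ≤ |E.det|) :
    ∃ (U V M : Mt) (f : ℝ → ℝ), Sim E U V M ∧ M.det = E.det ∧ ContDiff ℝ ∞ f ∧ Per f ∧
      ∃ δ : ℝ, 0 < δ ∧ ∃ c : ℝ, 0 < c ∧ ∀ G : ℝ × ℝ → ℝ × ℝ, ContDiff ℝ 1 G →
        (∀ z k, G (z + zc k) = G z + zc (mv E k)) →
        (∀ z, ‖G z - cj U V (fwd M f) z‖ ≤ δ) →
        (∀ z, ‖fderiv ℝ G z - fderiv ℝ (cj U V (fwd M f)) z‖ ≤ δ) →
        (∀ᵐ z : ℝ × ℝ, Gz G c z) ∧ (ContDiff ℝ 2 G → ∀ g : T2 → T2,
          (∀ z, g (pr z) = pr (G z)) →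
          MeasurePreserving g (volume : Measure T2) (volume : Measure T2) →
          Ergodic g (volume : Measure T2)) := by
  obtain ⟨U, V, M, hS, ha, hdet, t, ht⟩ := exists_sim E hE
  rw [← hdet] at hE
  have hΔ : M.det ≠ 0 := by intro h; rw [h] at hE; simp at hE
  obtain ⟨R, hR, hRE, hcard, huniq⟩ := exists_res hΔ
  obtain ⟨f, hf, hp, δ, hδ, s, n, ρ, C, K, hs1, hrate, hK, hmain⟩ := ctr_open M hE ha ht hR hcard
  refine ⟨U, V, M, f, hS, hdet, hf, hp, δ / (‖mr V‖ * (‖mr U‖ + 1) + 1), by positivity,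
    rate s n ρ / 2 / 2, half_pos (half_pos hrate), ?_⟩
  set D := ‖mr V‖ * (‖mr U‖ + 1) + 1 with hD
  have hD0 : 0 < D := by positivity
  intro G hG hGp h0 h1
  have hGd : Differentiable ℝ G := hG.differentiable one_ne_zero
  have hFd : Differentiable ℝ (fwd M f) := (fwd_contDiff M hf).differentiable (by simp)
  have hcF : cj V U (cj U V (fwd M f)) = fwd M f := cj_cj hS.symm _
  have hcFd : Differentiable ℝ (cj U V (fwd M f)) :=
    (cj_contDiff U V (fwd_contDiff M hf)).differentiable (by simp)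
  have key1 : ‖mr V‖ * (δ / D) ≤ δ := by
    have : ‖mr V‖ ≤ D := by
      rw [hD]; nlinarith [norm_nonneg (mr V), norm_nonneg (mr U)]
    calc ‖mr V‖ * (δ / D) ≤ D * (δ / D) := mul_le_mul_of_nonneg_right this (by positivity)
      _ = δ := by field_simp
  have key2 : ‖mr V‖ * (δ / D * ‖mr U‖) ≤ δ := by
    have : ‖mr V‖ * ‖mr U‖ ≤ D := by
      rw [hD]; nlinarith [norm_nonneg (mr V), norm_nonneg (mr U)]
    calc ‖mr V‖ * (δ / D * ‖mr U‖) = (‖mr V‖ * ‖mr U‖) * (δ / D) := by ring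
      _ ≤ D * (δ / D) := mul_le_mul_of_nonneg_right this (by positivity)
      _ = δ := by field_simp
  have hc0 : ∀ z, ‖cj V U G z - fwd M f z‖ ≤ δ := by
    intro z
    have e : cj V U G z - fwd M f z = mr V (G (mr U z) - cj U V (fwd M f) (mr U z)) := by
      rw [map_sub]
      have := congrFun hcF z
      unfold cj at this ⊢
      rw [this]
    rw [e]
    calc ‖mr V (G (mr U z) - cj U V (fwd M f) (mr U z))‖
        ≤ ‖mr V‖ * ‖G (mr U z) - cj U V (fwd M f) (mr U z)‖ := (mr V).le_opNorm _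
      _ ≤ ‖mr V‖ * (δ / D) := mul_le_mul_of_nonneg_left (h0 _) (norm_nonneg _)
      _ ≤ δ := key1
  have hc1 : ∀ z, ‖fderiv ℝ (cj V U G) z - fderiv ℝ (fwd M f) z‖ ≤ δ := by
    intro z
    have e : fderiv ℝ (cj V U G) z - fderiv ℝ (fwd M f) z =
        (mr V).comp ((fderiv ℝ G (mr U z) - fderiv ℝ (cj U V (fwd M f)) (mr U z)).comp
          (mr U)) := by
      have e2 := cj_fderiv V U hcFd z
      rw [hcF] at e2
      rw [cj_fderiv V U hGd, e2]
      apply ContinuousLinearMap.ext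
      intro x
      simp
    rw [e]
    calc _ ≤ ‖mr V‖ * ‖(fderiv ℝ G (mr U z) - fderiv ℝ (cj U V (fwd M f)) (mr U z)).comp
          (mr U)‖ := ContinuousLinearMap.opNorm_comp_le _ _
      _ ≤ ‖mr V‖ * (‖fderiv ℝ G (mr U z) - fderiv ℝ (cj U V (fwd M f)) (mr U z)‖ * ‖mr U‖) :=
          mul_le_mul_of_nonneg_left (ContinuousLinearMap.opNorm_comp_le _ _) (norm_nonneg _)
      _ ≤ ‖mr V‖ * (δ / D * ‖mr U‖) :=
          mul_le_mul_of_nonneg_left
            (mul_le_mul_of_nonneg_right (h1 _) (norm_nonneg _)) (norm_nonneg _)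
      _ ≤ δ := key2
  obtain ⟨H, H', L, hC, hinj, hd32, hup, hupH⟩ :=
    hmain (cj V U G) (cj_contDiff V U hG) (cj_per hS.symm hGp) hc0 hc1
  refine ⟨?_, ?_⟩
  · have hgrow : GrowthOn (cj V U G) (rate s n ρ / 2) :=
      exponents L hR hRE hinj hC ((cj_contDiff V U hG).differentiable one_ne_zero) fun z => by
        have := hd32 z
        linarith
    have hae := ae_plane (cj_per hS.symm hGp)
      ((cj_contDiff V U hG).differentiable one_ne_zero) hgrow
    filter_upwards [(mr_qmp hS).ae hae] with z hz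
    have := Gz_cj hS ((cj_contDiff V U hG).differentiable one_ne_zero) (half_pos hrate) hz
    rwa [cj_cj hS] at this
  · intro hG2 g hg hmp
    obtain ⟨hU, hV⟩ := sim_det hS
    have hgm : MeasurePreserving (fun x => mT V (g (mT U x))) (volume : Measure T2)
        (volume : Measure T2) := (mT_mp hV).comp (hmp.comp (mT_mp hU))
    have hmass := mas L hΔ hR hRE huniq (g := fun x => mT V (g (mT U x)))
      (fun z => cj_torus (E := E) (M := M) G hg z) hgm
    obtain ⟨K₂, lam, C', hDat⟩ := exists_dat hΔ hR hRE huniq L (cj_contDiff V U hG2) hs1 hC hinj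
      hd32 hK hup hupH hmass
    refine ⟨hmp, ⟨fun A hA hinv => ?_⟩⟩
    have hprm : Measurable pr := pr_meas
    set B : Set (ℝ × ℝ) := {z | pr (mr U z) ∈ A} with hB
    have hBm : MeasurableSet B := hA.preimage (hprm.comp (mr U).continuous.measurable)
    have hBp : ∀ z k, z + zc k ∈ B ↔ z ∈ B := by
      intro z k
      show pr (mr U (z + zc k)) ∈ A ↔ pr (mr U z) ∈ A
      rw [map_add, mr_zc, pr_add_zc]
    have hBi : cj V U G ⁻¹' B = B := by
      ext z
      show pr (mr U (mr V (G (mr U z)))) ∈ A ↔ pr (mr U z) ∈ A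
      rw [hS.UVz, ← hg]
      have : pr (mr U z) ∈ g ⁻¹' A ↔ pr (mr U z) ∈ A := by rw [hinv]
      exact this
    have hz : ∀ A' : Set T2, MeasurableSet A' → volume {z | pr (mr U z) ∈ A'} = 0 →
        volume A' = 0 := by
      intro A' hA' h2
      have h3 : ∀ᵐ z : ℝ × ℝ, pr (mr U z) ∉ A' := by
        rw [ae_iff]
        simpa using h2
      have h4 : ∀ᵐ z : ℝ × ℝ, pr z ∉ A' := by
        filter_upwards [(mr_qmp hS).ae h3] with z hz
        rwa [hS.UVz] at hz
      have h5 := ae_torus (P := fun z => pr z ∉ A') (fun z k => by rw [pr_add_zc]) h4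
      have h6 : ∀ᵐ x : T2, x ∉ A' := by
        filter_upwards [h5] with x hx
        obtain ⟨z, rfl⟩ := pr_surj x
        exact hx z rfl
      rw [ae_iff] at h6
      simpa using h6
    rw [eventuallyConst_set']
    rcases erg hDat hBm hBp hBi with h | h
    · left
      have := hz A hA h
      exact ae_eq_empty.mpr this
    · right
      have h2 : volume {z | pr (mr U z) ∈ Aᶜ} = 0 := h
      have := hz Aᶜ hA.compl h2
      exact ae_eq_univ.mpr this

end Pool.Agent.ERG
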