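import Pool.Agent.ERG.Msr

/-!
# Module Geo (size 4): the curves through good points are nearly straight

Notation: `V_j(τ) = Vv G j a (y + τ w)`, `w = wv a`, `V_j = V_j(0)`, `γ_j(τ) = G^[j] (y + τ w)`, `x_j = γ_j(0) = G^[j] y`. `γ_j' = V_j(τ)`.
`geo1`: the telescoping identity
`V_N(τ) - V_N = ∑_{j<N} Dn G (N-1-j) x_{j+1} ((DG(γ_j(τ)) - DG(x_j)) V_j(τ))` (induction over `N`: `V_{N+1}(τ) = DG(γ_N(τ)) V_N(τ)`,
`Dn G (N-j) x_{j+1} = DG(x_N) ∘ Dn G (N-1-j) x_{j+1}`), so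
`‖V_N(τ) - V_N‖ ≤ ∑_{j<N} ‖Dn G (N-1-j) x_{j+1}‖ * (K₂ * ‖γ_j(τ) - γ_j(0)‖) * ‖V_j(τ)‖` (`D.lip`).
`geo2`: if `Good` holds and `j < N ≤ n`, `m = n - j`: `‖Dn G (N-1-j) x_{j+1}‖ ≤ K ‖Dn G (N-j) x_j‖` (`Dn G (N-1-j) x_{j+1} = Dn G (N-j) x_j ∘ H'(x_{j+1})`,
as `DG(x_j) ∘ H'(G x_j) = id`), and `Good` at `(j, N-j)` and `(j, n-j)`, and `lam ^ (4 m) ≤ 2 ‖Dn G m x_j‖` (`D.normDG_ge`) give
`κ ‖Dn G (N-j) x_j‖ ‖V_j‖ ≤ lam ^ m ‖V_N‖`, `κ lam ^ (4m) ‖V_j‖ ≤ 2 lam ^ m ‖V_n‖`, so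
`‖Dn G (N-1-j) x_{j+1}‖ ‖V_j‖ ^ 2 ≤ 2 K κ⁻² (lam ^ 2)⁻¹ ^ m ‖V_N‖ ‖V_n‖`.
`geo`: let `r = min (1/8) (θ κ ^ 2 (1 - (lam ^ 2)⁻¹) / (8 (K₂ K + 1)))`. Strong induction over `N ≤ n`: for all `τ` with `|τ| ‖V_n‖ ≤ r`: `‖V_N(τ) - V_N‖ ≤ θ ‖V_N‖`.
For `j < N` the induction hypothesis (for all `τ'` between `0` and `τ`) gives `‖V_j(τ')‖ ≤ 2 ‖V_j‖`, so `‖γ_j(τ) - γ_j(0)‖ ≤ 2 |τ| ‖V_j‖` (mean value inequality, e.g.
`Convex.norm_image_sub_le_of_norm_hasDerivWithin_le` on the segment). By `geo1`, `geo2` the difference is at most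
`∑_j 4 K₂ |τ| · 2 K κ⁻² (lam ^ 2)⁻¹ ^ (n-j) ‖V_N‖ ‖V_n‖ ≤ 8 K₂ K κ⁻² r (1 - (lam^2)⁻¹)⁻¹ ‖V_N‖ ≤ θ ‖V_N‖`.
-/

set_option autoImplicit false

namespace Pool.Agent.ERG

open Pool.Agent.NUH MeasureTheory Filter Topology
open scoped ENNReal ContDiff NNReal

variable {M : Mt} {R : Finset (ℤ × ℤ)} {G H : ℝ × ℝ → ℝ × ℝ}
  {H' : ℝ × ℝ → (ℝ × ℝ →L[ℝ] ℝ × ℝ)} {K K₂ lam s C : ℝ}

private theorem geo_Dn_one (F : ℝ × ℝ → ℝ × ℝ) (x : ℝ × ℝ) : Dn F 1 x = fderiv ℝ F x := by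
  unfold Dn
  rw [Function.iterate_one]

private theorem geo_Dn_succ (D : Dat M R G H H' K K₂ lam s C) (k : ℕ) (x : ℝ × ℝ) :
    Dn G (k + 1) x = (fderiv ℝ G (G^[k] x)).comp (Dn G k x) := by
  have h := Dn_add D.diffG 1 k x
  rw [add_comm 1 k, geo_Dn_one] at h
  exact h

private theorem geo_id (D : Dat M R G H H' K K₂ lam s C) (N : ℕ) (a : ℝ) (y : ℝ × ℝ) (τ : ℝ) :
    Vv G N a (y + τ • wv a) - Vv G N a y = ∑ j ∈ Finset.range N,
      Dn G (N - 1 - j) (G^[j + 1] y)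
        ((fderiv ℝ G (G^[j] (y + τ • wv a)) - fderiv ℝ G (G^[j] y))
          (Vv G j a (y + τ • wv a))) := by
  induction N with
  | zero =>
    simp [Vv, Dn_zero]
  | succ N ih =>
    rw [Finset.sum_range_succ]
    have e0 : Dn G (N + 1 - 1 - N) (G^[N + 1] y) = ContinuousLinearMap.id ℝ (ℝ × ℝ) := by
      have : N + 1 - 1 - N = 0 := by omega
      rw [this, Dn_zero]
    rw [e0]
    have e1 : ∀ j ∈ Finset.range N, Dn G (N + 1 - 1 - j) (G^[j + 1] y)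
        ((fderiv ℝ G (G^[j] (y + τ • wv a)) - fderiv ℝ G (G^[j] y))
          (Vv G j a (y + τ • wv a))) = fderiv ℝ G (G^[N] y) (Dn G (N - 1 - j) (G^[j + 1] y)
        ((fderiv ℝ G (G^[j] (y + τ • wv a)) - fderiv ℝ G (G^[j] y))
          (Vv G j a (y + τ • wv a)))) := by
      intro j hj
      have hj' := Finset.mem_range.mp hj
      have e2 : N + 1 - 1 - j = (N - 1 - j) + 1 := by omega
      rw [e2, geo_Dn_succ D]
      have e3 : G^[N - 1 - j] (G^[j + 1] y) = G^[N] y := by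
        rw [← Function.iterate_add_apply]
        congr 2
        omega
      rw [e3]
      rfl
    rw [Finset.sum_congr rfl e1, ← map_sum, ← ih, D.Vv_succ, D.Vv_succ]
    simp only [ContinuousLinearMap.id_apply, ContinuousLinearMap.sub_apply, map_sub]
    abel

theorem geo1 (D : Dat M R G H H' K K₂ lam s C) (N : ℕ) (a : ℝ) (y : ℝ × ℝ) (τ : ℝ) :
    ‖Vv G N a (y + τ • wv a) - Vv G N a y‖ ≤ ∑ j ∈ Finset.range N,
      ‖Dn G (N - 1 - j) (G^[j + 1] y)‖ * (K₂ * ‖G^[j] (y + τ • wv a) - G^[j] y‖) *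
        ‖Vv G j a (y + τ • wv a)‖ := by
  rw [geo_id D]
  refine (norm_sum_le _ _).trans (Finset.sum_le_sum fun j _ => ?_)
  refine (ContinuousLinearMap.le_opNorm _ _).trans ?_
  rw [mul_assoc]
  refine mul_le_mul_of_nonneg_left ?_ (norm_nonneg _)
  refine (ContinuousLinearMap.le_opNorm _ _).trans ?_
  exact mul_le_mul_of_nonneg_right (D.lip _ _) (norm_nonneg _)

theorem geo2 (D : Dat M R G H H' K K₂ lam s C) {κ : ℝ} (hκ : 0 < κ) {n N j : ℕ} (hj : j < N)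
    (hN : N ≤ n) {a : ℝ} {y : ℝ × ℝ} (h : Good G lam κ n a y) :
    ‖Dn G (N - 1 - j) (G^[j + 1] y)‖ * ‖Vv G j a y‖ ^ 2 ≤
      2 * K / κ ^ 2 * ((lam ^ 2)⁻¹) ^ (n - j) * ‖Vv G N a y‖ * ‖Vv G n a y‖ := by
  have hlam : 0 < lam := lt_trans one_pos D.lam1
  have hK : 0 < K := lt_of_lt_of_le one_pos D.K1
  obtain ⟨m, hm⟩ : ∃ m, m = n - j := ⟨_, rfl⟩
  have g1 := h j (N - j) (by omega)
  have g2 := h j (n - j) (by omega)
  have e1 : j + (N - j) = N := by omega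
  have e2 : j + (n - j) = n := by omega
  rw [e1] at g1
  rw [e2] at g2
  have g3 := D.normDG_ge (n - j) (G^[j] y)
  rw [← hm] at g1 g2 g3 ⊢
  -- the comparison of the two norms
  have g4 : ‖Dn G (N - 1 - j) (G^[j + 1] y)‖ ≤ K * ‖Dn G (N - j) (G^[j] y)‖ := by
    refine ContinuousLinearMap.opNorm_le_bound _ (by positivity) fun v => ?_
    have hx : G^[j + 1] y = G (G^[j] y) := Function.iterate_succ_apply' _ _ _
    have hh : H^[1] (G^[j + 1] y) = G^[j] y := by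
      rw [Function.iterate_one, hx]
      exact D.lift.left _
    have h1 := D.DGDH 1 (G^[j + 1] y) v
    rw [hh] at h1
    have h2 := Dn_add D.diffG (N - 1 - j) 1 (G^[j] y)
    have e3 : N - 1 - j + 1 = N - j := by omega
    rw [e3, Function.iterate_one, ← hx] at h2
    have h3 : Dn G (N - 1 - j) (G^[j + 1] y) v =
        Dn G (N - j) (G^[j] y) (Dn H 1 (G^[j + 1] y) v) := by
      rw [h2, ContinuousLinearMap.comp_apply, h1]
    rw [h3]
    have h4 : ‖Dn H 1 (G^[j + 1] y) v‖ ≤ K * ‖v‖ := by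
      rw [geo_Dn_one, D.fderivH]
      exact (ContinuousLinearMap.le_opNorm _ _).trans
        (mul_le_mul_of_nonneg_right (D.upH _) (norm_nonneg _))
    calc ‖Dn G (N - j) (G^[j] y) (Dn H 1 (G^[j + 1] y) v)‖
        ≤ ‖Dn G (N - j) (G^[j] y)‖ * ‖Dn H 1 (G^[j + 1] y) v‖ :=
          ContinuousLinearMap.le_opNorm _ _
      _ ≤ ‖Dn G (N - j) (G^[j] y)‖ * (K * ‖v‖) := by gcongr
      _ = K * ‖Dn G (N - j) (G^[j] y)‖ * ‖v‖ := by ring
  have v0 := norm_nonneg (Vv G j a y)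
  have vN := norm_nonneg (Vv G N a y)
  have vn := norm_nonneg (Vv G n a y)
  have hp : 0 < lam ^ m := pow_pos hlam m
  set A := ‖Dn G (N - 1 - j) (G^[j + 1] y)‖ with hA
  set B := ‖Dn G (N - j) (G^[j] y)‖ with hB
  set B' := ‖Dn G m (G^[j] y)‖ with hB'
  set v := ‖Vv G j a y‖ with hv
  set V := ‖Vv G N a y‖ with hV
  set W := ‖Vv G n a y‖ with hW
  set p := lam ^ m with hpd
  have hA0 : 0 ≤ A := norm_nonneg _
  have hB0 : 0 ≤ B := norm_nonneg _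
  have hp4 : lam ^ (4 * m) = p ^ 4 := by
    rw [hpd, ← pow_mul]; congr 1; ring
  have hp2 : ((lam ^ 2)⁻¹) ^ m = (p ^ 2)⁻¹ := by
    rw [inv_pow, hpd, ← pow_mul, ← pow_mul]; congr 2; ring
  rw [hp4] at g3
  rw [hp2]
  have h5 : κ * p ^ 4 * v ≤ 2 * (p * W) := by
    calc κ * p ^ 4 * v ≤ κ * (2 * B') * v := by gcongr
      _ = 2 * (κ * B' * v) := by ring
      _ ≤ 2 * (p * W) := by linarith
  have h6 : κ * p ^ 3 * v ≤ 2 * W := by
    have : p * (κ * p ^ 3 * v) ≤ p * (2 * W) := by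
      calc p * (κ * p ^ 3 * v) = κ * p ^ 4 * v := by ring
        _ ≤ 2 * (p * W) := h5
        _ = p * (2 * W) := by ring
    exact le_of_mul_le_mul_left this hp
  have h7 : (κ * A * v) * (κ * p ^ 3 * v) ≤ (K * (p * V)) * (2 * W) := by
    refine mul_le_mul ?_ h6 (by positivity) (by positivity)
    calc κ * A * v ≤ κ * (K * B) * v := by gcongr
      _ = K * (κ * B * v) := by ring
      _ ≤ K * (p * V) := by gcongr
  have h8 : A * v ^ 2 * (κ ^ 2 * p ^ 2 * p) ≤ (2 * K * V * W) * p := by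
    calc A * v ^ 2 * (κ ^ 2 * p ^ 2 * p) = (κ * A * v) * (κ * p ^ 3 * v) := by ring
      _ ≤ (K * (p * V)) * (2 * W) := h7
      _ = (2 * K * V * W) * p := by ring
  have h9 : A * v ^ 2 * (κ ^ 2 * p ^ 2) ≤ 2 * K * V * W := by
    have : (A * v ^ 2 * (κ ^ 2 * p ^ 2)) * p ≤ (2 * K * V * W) * p := by
      calc (A * v ^ 2 * (κ ^ 2 * p ^ 2)) * p = A * v ^ 2 * (κ ^ 2 * p ^ 2 * p) := by ring
        _ ≤ _ := h8
    exact le_of_mul_le_mul_right this hp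
  have h10 : 2 * K / κ ^ 2 * (p ^ 2)⁻¹ * V * W = (2 * K * V * W) / (κ ^ 2 * p ^ 2) := by
    field_simp
  rw [h10, le_div_iff₀ (by positivity)]
  exact h9

theorem hasDerivAt_curve (D : Dat M R G H H' K K₂ lam s C) (n : ℕ) (a : ℝ) (y : ℝ × ℝ) (τ : ℝ) :
    HasDerivAt (fun τ : ℝ => G^[n] (y + τ • wv a)) (Vv G n a (y + τ • wv a)) τ := by
  have h1 : HasFDerivAt (G^[n]) (fderiv ℝ (G^[n]) (y + τ • wv a)) (y + τ • wv a) :=
    ((D.diffG.iterate n) _).hasFDerivAt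
  have h2 : HasDerivAt (fun τ : ℝ => y + τ • wv a) (wv a) τ := by
    have := ((hasDerivAt_id τ).smul_const (wv a)).const_add y
    simpa using this
  exact h1.comp_hasDerivAt τ h2

theorem geo (D : Dat M R G H H' K K₂ lam s C) {κ θ : ℝ} (hκ : 0 < κ) (hκ1 : κ ≤ 1) (hθ : 0 < θ)
    (hθ1 : θ ≤ 1) : ∃ r : ℝ, 0 < r ∧ r ≤ 1 / 8 ∧ ∀ (n : ℕ) (a : ℝ) (y : ℝ × ℝ),
      a ∈ Set.Icc (0 : ℝ) 1 → Good G lam κ n a y → ∀ τ : ℝ, |τ| * ‖Vv G n a y‖ ≤ r →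
        ‖Vv G n a (y + τ • wv a) - Vv G n a y‖ ≤ θ * ‖Vv G n a y‖ := by
  have hlam : 0 < lam := lt_trans one_pos D.lam1
  have hK : 0 < K := lt_of_lt_of_le one_pos D.K1
  have hl2 : 1 < lam ^ 2 := one_lt_pow₀ D.lam1 (by norm_num)
  obtain ⟨q, hq⟩ : ∃ q, q = (lam ^ 2)⁻¹ := ⟨_, rfl⟩
  have hq0 : 0 < q := by rw [hq]; positivity
  have hq1 : q < 1 := by rw [hq]; exact inv_lt_one_of_one_lt₀ hl2
  have hKK : 0 ≤ K₂ * K := mul_nonneg D.K₂0 hK.le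
  obtain ⟨r, hr⟩ : ∃ r, r = min (1 / 8 : ℝ) (θ * κ ^ 2 * (1 - q) / (8 * (K₂ * K + 1))) := ⟨_, rfl⟩
  have h1q : 0 < 1 - q := by linarith
  have hr0 : 0 < r := by
    rw [hr]
    exact lt_min (by norm_num) (by positivity)
  have hr2 : r ≤ θ * κ ^ 2 * (1 - q) / (8 * (K₂ * K + 1)) := by rw [hr]; exact min_le_right _ _
  have hr3 : 8 * (K₂ * K + 1) * r ≤ θ * κ ^ 2 * (1 - q) := by
    rw [le_div_iff₀ (by positivity)] at hr2
    linarith
  refine ⟨r, hr0, by rw [hr]; exact min_le_left _ _, ?_⟩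
  intro n a y _ hgood
  have key : ∀ N : ℕ, N ≤ n → ∀ τ : ℝ, |τ| * ‖Vv G n a y‖ ≤ r →
      ‖Vv G N a (y + τ • wv a) - Vv G N a y‖ ≤ θ * ‖Vv G N a y‖ := by
    intro N
    induction N using Nat.strong_induction_on with
    | _ N ih =>
      intro hN τ hτ
      have hsum : ∑ j ∈ Finset.range N, q ^ (n - j) ≤ (1 - q)⁻¹ := by
        calc ∑ j ∈ Finset.range N, q ^ (n - j) ≤ ∑ j ∈ Finset.range N, q ^ (N - 1 - j) := by
              refine Finset.sum_le_sum fun j _ => ?_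
              exact pow_le_pow_of_le_one hq0.le hq1.le (by omega)
          _ = ∑ j ∈ Finset.range N, q ^ j := Finset.sum_range_reflect (fun i => q ^ i) N
          _ ≤ ∑' j : ℕ, q ^ j :=
              (summable_geometric_of_lt_one hq0.le hq1).sum_le_tsum _
                fun j _ => pow_nonneg hq0.le j
          _ = (1 - q)⁻¹ := tsum_geometric_of_lt_one hq0.le hq1
      refine (geo1 D N a y τ).trans ?_
      have hj : ∀ j ∈ Finset.range N,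
          ‖Dn G (N - 1 - j) (G^[j + 1] y)‖ * (K₂ * ‖G^[j] (y + τ • wv a) - G^[j] y‖) *
            ‖Vv G j a (y + τ • wv a)‖ ≤
          (8 * K₂ * K / κ ^ 2 * (|τ| * ‖Vv G n a y‖) * ‖Vv G N a y‖) * q ^ (n - j) := by
        intro j hj
        have hjN := Finset.mem_range.mp hj
        have hb : ∀ τ' : ℝ, |τ'| ≤ |τ| → ‖Vv G j a (y + τ' • wv a)‖ ≤ 2 * ‖Vv G j a y‖ := by
          intro τ' hτ'
          have h1 := ih j hjN (by omega) τ'
            ((mul_le_mul_of_nonneg_right hτ' (norm_nonneg _)).trans hτ)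
          have h2 : ‖Vv G j a (y + τ' • wv a)‖ ≤
              ‖Vv G j a (y + τ' • wv a) - Vv G j a y‖ + ‖Vv G j a y‖ := by
            have := norm_add_le (Vv G j a (y + τ' • wv a) - Vv G j a y) (Vv G j a y)
            simpa using this
          have h3 : θ * ‖Vv G j a y‖ ≤ 1 * ‖Vv G j a y‖ :=
            mul_le_mul_of_nonneg_right hθ1 (norm_nonneg _)
          linarith
        have hc : ‖G^[j] (y + τ • wv a) - G^[j] y‖ ≤ 2 * ‖Vv G j a y‖ * |τ| := by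
          have hmv := Convex.norm_image_sub_le_of_norm_hasDerivWithin_le
            (f := fun τ : ℝ => G^[j] (y + τ • wv a))
            (f' := fun τ : ℝ => Vv G j a (y + τ • wv a))
            (s := Set.Icc (-|τ|) |τ|) (x := 0) (y := τ) (C := 2 * ‖Vv G j a y‖)
            (fun x _ => (hasDerivAt_curve D j a y x).hasDerivWithinAt)
            (fun x hx => hb x (abs_le.mpr hx)) (convex_Icc _ _)
            ⟨by linarith [abs_nonneg τ], abs_nonneg τ⟩ ⟨neg_abs_le τ, le_abs_self τ⟩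
          simpa using hmv
        have hd := hb τ le_rfl
        have hg := geo2 D hκ hjN hN hgood
        rw [← hq] at hg
        have hK2 := D.K₂0
        calc ‖Dn G (N - 1 - j) (G^[j + 1] y)‖ * (K₂ * ‖G^[j] (y + τ • wv a) - G^[j] y‖) *
              ‖Vv G j a (y + τ • wv a)‖
            ≤ ‖Dn G (N - 1 - j) (G^[j + 1] y)‖ * (K₂ * (2 * ‖Vv G j a y‖ * |τ|)) *
              (2 * ‖Vv G j a y‖) := by gcongr
          _ = 4 * K₂ * |τ| * (‖Dn G (N - 1 - j) (G^[j + 1] y)‖ * ‖Vv G j a y‖ ^ 2) := by ring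
          _ ≤ 4 * K₂ * |τ| *
              (2 * K / κ ^ 2 * q ^ (n - j) * ‖Vv G N a y‖ * ‖Vv G n a y‖) := by gcongr
          _ = (8 * K₂ * K / κ ^ 2 * (|τ| * ‖Vv G n a y‖) * ‖Vv G N a y‖) * q ^ (n - j) := by
              ring
      refine (Finset.sum_le_sum hj).trans ?_
      rw [← Finset.mul_sum]
      have hK2 := D.K₂0
      have hVN := norm_nonneg (Vv G N a y)
      have hq' : 0 ≤ (1 - q)⁻¹ := (inv_pos.mpr h1q).le
      calc 8 * K₂ * K / κ ^ 2 * (|τ| * ‖Vv G n a y‖) * ‖Vv G N a y‖ *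
            ∑ j ∈ Finset.range N, q ^ (n - j)
          ≤ 8 * K₂ * K / κ ^ 2 * r * ‖Vv G N a y‖ * (1 - q)⁻¹ := by gcongr
        _ = (8 * (K₂ * K) * r) / (κ ^ 2 * (1 - q)) * ‖Vv G N a y‖ := by
            field_simp
        _ ≤ θ * ‖Vv G N a y‖ := by
            refine mul_le_mul_of_nonneg_right ?_ hVN
            rw [div_le_iff₀ (by positivity)]
            have : 8 * (K₂ * K) * r ≤ 8 * (K₂ * K + 1) * r := by
              have := hr0.le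
              gcongr
              linarith
            linarith
  exact fun τ hτ => key n le_rfl τ hτ

end Pool.Agent.ERG
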