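import Pool.Agent.ERG.Dir

/-!
# Module Gpr (size 4): the good points have large probability

`gpr1`: fix `j + l ≤ n`, `m = n - j` (so `n = m + j`, `l ≤ m`). For `X` put `y = H^[n] X`, so `G^[j] y = H^[m] X`
(`H^[m+j] = H^[j] ∘ H^[m]`, `D.GH`). The function `Ψ X = volume {a ∈ [0,1] | lam^m ‖Vv (j+l) a y‖ < κ ‖Dn G l (G^[j] y)‖ ‖Vv j a y‖}`. By `Sm_comp` with
`n = m + j`: `Sm n Ψ x = Sm m (fun X => Sm j (fun Y => Ψ (G^[m] Y)) (H^[m] X)) x`. For `Y = z + zc k'`, `z = H^[m] X`: `H^[n] (G^[m] Y) = H^[j] Y`,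
`G^[j] (H^[j] Y) = Y`, so `Ψ (G^[m] Y) = volume {a | lam^m ‖Dn G l Y (V)‖ < κ ‖Dn G l Y‖ ‖V‖}` with `V = Vv G j a (H^[j] Y)` (`D.Vv_add`), and
`Dn G l Y = Dn G l z` (`D.perDG`). Let `q` be given by `mat1` for `B = Dn G l z`: `‖B‖ ≤ 2 ‖q‖` (so `q ≠ 0`), `|wd q V| ≤ ‖B V‖`. Hence the set is contained in
`{a | |wd q V| ≤ t ‖q‖ ‖V‖}` with `t = 2 κ / lam ^ m`, and `dir2` gives the bound `(16 κ / lam^m) ^ (s/2) CR`; then `Sm_mono`, `Sm_const` for the outer sum.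
`gpr2`: `¬ Good` means that for some `j + l ≤ n` the inequality fails; union bound over `(m, l)`, `m ≤ n`, `l ≤ m` (`m = n - j`):
`∑_m (m+1) (16 κ) ^ (s/2) (lam ^ (-s/2)) ^ m CR ≤ (16 κ) ^ (s/2) * CR / (1 - g) ^ 2`, `g = lam ^ (-s/2) < 1` (`∑ (m+1) g^m = 1/(1-g)²`, e.g. by
`tsum_choose_mul_geometric_of_norm_lt_one`/`hasSum_coe_mul_geometric_of_norm_lt_one`, or by the elementary induction
`∑_{m<N} (m+1) g^m ≤ 1/(1-g)²`). Measurability is not needed for `≤` (`measure_iUnion_le`, `measure_union_le`, `measure_mono`).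
`gpr3`: choose `κ` small: `(16 κ) ^ (s/2) → 0`.
-/

set_option autoImplicit false

namespace Pool.Agent.ERG

open Pool.Agent.NUH MeasureTheory Filter Topology
open scoped ENNReal ContDiff NNReal

variable {M : Mt} {R : Finset (ℤ × ℤ)} {G H : ℝ × ℝ → ℝ × ℝ}
  {H' : ℝ × ℝ → (ℝ × ℝ →L[ℝ] ℝ × ℝ)} {K K₂ lam s C : ℝ}

private theorem Gpr_inner (D : Dat M R G H H' K K₂ lam s C) {κ : ℝ} (hκ : 0 < κ) (m j l : ℕ)
    (z : ℝ × ℝ) :
    Sm M R H j (fun Y => volume {a : ℝ | a ∈ Set.Icc (0 : ℝ) 1 ∧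
      ¬ (κ * ‖Dn G l (G^[j] (H^[m + j] (G^[m] Y)))‖ * ‖Vv G j a (H^[m + j] (G^[m] Y))‖ ≤
        lam ^ m * ‖Vv G (j + l) a (H^[m + j] (G^[m] Y))‖)}) z ≤
      ENNReal.ofReal ((16 * κ / lam ^ m) ^ (s / 2) * CR K lam s C) := by
  have hlam : (0 : ℝ) < lam := lt_trans one_pos D.lam1
  have hlm : (0 : ℝ) < lam ^ m := pow_pos hlam m
  obtain ⟨q, hq1, hq2⟩ := mat1 (Dn G l z)
  have hq : q ≠ 0 := by
    intro h0
    have h1 : Dn G l z (wv 0) ≠ 0 := D.DG_ne l z (wv_ne 0)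
    have h2 : ‖Dn G l z‖ ≤ 0 := by
      rw [h0, norm_zero, mul_zero] at hq1
      exact hq1
    have h3 : Dn G l z = 0 := norm_le_zero_iff.1 h2
    rw [h3] at h1
    exact h1 rfl
  have ht : (0 : ℝ) ≤ 2 * κ / lam ^ m := by positivity
  have h1 := dir2 D j z q hq ht
  have e : (8 * (2 * κ / lam ^ m)) = 16 * κ / lam ^ m := by ring
  rw [e] at h1
  refine le_trans (Sm_mono j fun k => ?_) h1
  apply measure_mono
  rintro a ⟨ha, hna⟩
  refine ⟨ha, ?_⟩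
  have e1 : H^[m + j] (G^[m] (z + zc k)) = H^[j] (z + zc k) := by
    rw [add_comm m j, Function.iterate_add_apply, D.HG]
  rw [e1, D.GH, D.Vv_add l j, D.GH, D.perDG] at hna
  rw [not_le] at hna
  have h2 := hq2 (Vv G j a (H^[j] (z + zc k)))
  have h3 : κ * ‖Dn G l z‖ * ‖Vv G j a (H^[j] (z + zc k))‖ ≤
      κ * (2 * ‖q‖) * ‖Vv G j a (H^[j] (z + zc k))‖ := by gcongr
  have h4 : lam ^ m * |wd q (Vv G j a (H^[j] (z + zc k)))| ≤
      κ * (2 * ‖q‖) * ‖Vv G j a (H^[j] (z + zc k))‖ := by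
    calc lam ^ m * |wd q (Vv G j a (H^[j] (z + zc k)))| ≤
        lam ^ m * ‖Dn G l z (Vv G j a (H^[j] (z + zc k)))‖ := by gcongr
      _ ≤ _ := hna.le.trans h3
  have h5 : 2 * κ / lam ^ m * ‖q‖ * ‖Vv G j a (H^[j] (z + zc k))‖ =
      κ * (2 * ‖q‖) * ‖Vv G j a (H^[j] (z + zc k))‖ / lam ^ m := by ring
  rw [h5, le_div_iff₀ hlm, mul_comm]
  exact h4

theorem gpr1 (D : Dat M R G H H' K K₂ lam s C) {κ : ℝ} (hκ : 0 < κ) (n j l : ℕ) (h : j + l ≤ n)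
    (x : ℝ × ℝ) :
    Sm M R H n (fun X => volume {a : ℝ | a ∈ Set.Icc (0 : ℝ) 1 ∧
      ¬ (κ * ‖Dn G l (G^[j] (H^[n] X))‖ * ‖Vv G j a (H^[n] X)‖ ≤
        lam ^ (n - j) * ‖Vv G (j + l) a (H^[n] X)‖)}) x ≤
      ENNReal.ofReal ((16 * κ / lam ^ (n - j)) ^ (s / 2) * CR K lam s C) := by
  obtain ⟨m, rfl⟩ : ∃ m, n = m + j := ⟨n - j, by omega⟩
  rw [Nat.add_sub_cancel, Sm_comp D]
  refine le_trans (Sm_mono (Ψ' := fun _ => ENNReal.ofReal ((16 * κ / lam ^ m) ^ (s / 2) *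
    CR K lam s C)) m fun k => Gpr_inner D hκ m j l _) ?_
  rw [Sm_const D]

private theorem Gpr_geo (g : ℝ) (h0 : 0 ≤ g) (h1 : g < 1) (N : ℕ) :
    ∑ m ∈ Finset.range N, ((m : ℝ) + 1) * g ^ m ≤ 1 / (1 - g) ^ 2 := by
  have hg : 0 < (1 - g) ^ 2 := pow_pos (by linarith) 2
  rw [le_div_iff₀ hg]
  have e : (∑ m ∈ Finset.range N, ((m : ℝ) + 1) * g ^ m) * (1 - g) ^ 2 =
      1 - g ^ N * ((N : ℝ) + 1 - N * g) := by
    induction N with
    | zero => simp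
    | succ N ih =>
      rw [Finset.sum_range_succ, add_mul, ih]
      push_cast
      ring
  rw [e]
  have h2 : 0 ≤ g ^ N * ((N : ℝ) + 1 - N * g) := by
    apply mul_nonneg (pow_nonneg h0 N)
    have : (N : ℝ) * g ≤ N * 1 := by gcongr
    linarith
  linarith

private theorem Gpr_g (D : Dat M R G H H' K K₂ lam s C) :
    0 < lam ^ (-(s / 2)) ∧ lam ^ (-(s / 2)) < 1 := by
  have hlam : (0 : ℝ) < lam := lt_trans one_pos D.lam1
  refine ⟨Real.rpow_pos_of_pos hlam _, Real.rpow_lt_one_of_one_lt_of_neg D.lam1 ?_⟩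
  have := D.s0
  linarith

theorem gpr2 (D : Dat M R G H H' K K₂ lam s C) {κ : ℝ} (hκ : 0 < κ) (n : ℕ) (x : ℝ × ℝ) :
    Sm M R H n (fun X => volume {a : ℝ | a ∈ Set.Icc (0 : ℝ) 1 ∧
      ¬ Good G lam κ n a (H^[n] X)}) x ≤
      ENNReal.ofReal ((16 * κ) ^ (s / 2) * CR K lam s C / (1 - lam ^ (-(s / 2))) ^ 2) := by
  have hlam : (0 : ℝ) < lam := lt_trans one_pos D.lam1
  have hCR : 0 ≤ CR K lam s C := le_trans (by norm_num) (CR_pos D)
  obtain ⟨hg0, hg1⟩ := Gpr_g D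
  have h1 : ∀ X : ℝ × ℝ, volume {a : ℝ | a ∈ Set.Icc (0 : ℝ) 1 ∧ ¬ Good G lam κ n a (H^[n] X)} ≤
      ∑ j ∈ Finset.range (n + 1), ∑ l ∈ Finset.range (n - j + 1),
        volume {a : ℝ | a ∈ Set.Icc (0 : ℝ) 1 ∧
          ¬ (κ * ‖Dn G l (G^[j] (H^[n] X))‖ * ‖Vv G j a (H^[n] X)‖ ≤
            lam ^ (n - j) * ‖Vv G (j + l) a (H^[n] X)‖)} := by
    intro X
    refine le_trans (measure_mono ?_) (le_trans (measure_biUnion_finset_le (Finset.range (n + 1))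
      fun j => ⋃ l ∈ Finset.range (n - j + 1), {a : ℝ | a ∈ Set.Icc (0 : ℝ) 1 ∧
          ¬ (κ * ‖Dn G l (G^[j] (H^[n] X))‖ * ‖Vv G j a (H^[n] X)‖ ≤
            lam ^ (n - j) * ‖Vv G (j + l) a (H^[n] X)‖)})
      (Finset.sum_le_sum fun j _ => measure_biUnion_finset_le _ _))
    rintro a ⟨ha, hna⟩
    unfold Good at hna
    push Not at hna
    obtain ⟨j, l, hjl, hlt⟩ := hna
    simp only [Set.mem_iUnion]
    exact ⟨j, Finset.mem_range.2 (by omega), l, Finset.mem_range.2 (by omega), ha, not_le.2 hlt⟩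
  refine le_trans (Sm_mono (Ψ' := fun X => ∑ j ∈ Finset.range (n + 1),
    ∑ l ∈ Finset.range (n - j + 1), volume {a : ℝ | a ∈ Set.Icc (0 : ℝ) 1 ∧
      ¬ (κ * ‖Dn G l (G^[j] (H^[n] X))‖ * ‖Vv G j a (H^[n] X)‖ ≤
        lam ^ (n - j) * ‖Vv G (j + l) a (H^[n] X)‖)}) n fun k => h1 (x + zc k)) ?_
  rw [Sm_sum]
  have h2 : ∀ j ∈ Finset.range (n + 1), Sm M R H n (fun X => ∑ l ∈ Finset.range (n - j + 1),
        volume {a : ℝ | a ∈ Set.Icc (0 : ℝ) 1 ∧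
          ¬ (κ * ‖Dn G l (G^[j] (H^[n] X))‖ * ‖Vv G j a (H^[n] X)‖ ≤
            lam ^ (n - j) * ‖Vv G (j + l) a (H^[n] X)‖)}) x ≤
      ENNReal.ofReal ((((n - j : ℕ) : ℝ) + 1) *
        ((16 * κ / lam ^ (n - j)) ^ (s / 2) * CR K lam s C)) := by
    intro j hj
    have hj' := Finset.mem_range.1 hj
    rw [Sm_sum]
    calc _ ≤ ∑ _l ∈ Finset.range (n - j + 1),
          ENNReal.ofReal ((16 * κ / lam ^ (n - j)) ^ (s / 2) * CR K lam s C) := by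
          apply Finset.sum_le_sum
          intro l hl
          have hl' := Finset.mem_range.1 hl
          exact gpr1 D hκ n j l (by omega) x
      _ = _ := by
          rw [Finset.sum_const, Finset.card_range, nsmul_eq_mul,
            ENNReal.ofReal_mul (by positivity : (0 : ℝ) ≤ ((n - j : ℕ) : ℝ) + 1)]
          congr 1
          rw [show (((n - j : ℕ) : ℝ) + 1) = ((n - j + 1 : ℕ) : ℝ) by push_cast; ring,
            ENNReal.ofReal_natCast]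
  refine le_trans (Finset.sum_le_sum h2) ?_
  rw [← ENNReal.ofReal_sum_of_nonneg (fun j _ => by positivity)]
  apply ENNReal.ofReal_le_ofReal
  have h3 : ∑ j ∈ Finset.range (n + 1), (((n - j : ℕ) : ℝ) + 1) *
        ((16 * κ / lam ^ (n - j)) ^ (s / 2) * CR K lam s C) =
      (16 * κ) ^ (s / 2) * CR K lam s C *
        ∑ m ∈ Finset.range (n + 1), ((m : ℝ) + 1) * (lam ^ (-(s / 2))) ^ m := by
    have h4 := Finset.sum_range_reflect (fun m : ℕ => ((m : ℝ) + 1) *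
        ((16 * κ / lam ^ m) ^ (s / 2) * CR K lam s C)) (n + 1)
    simp only [Nat.add_sub_cancel] at h4
    rw [h4, Finset.mul_sum]
    apply Finset.sum_congr rfl
    intro m _
    have h5 : (16 * κ / lam ^ m) ^ (s / 2) = (16 * κ) ^ (s / 2) * (lam ^ (-(s / 2))) ^ m := by
      rw [Real.div_rpow (by positivity) (by positivity), div_eq_mul_inv]
      congr 1
      rw [← Real.rpow_natCast (lam ^ (-(s / 2))) m, ← Real.rpow_mul hlam.le,
        ← Real.rpow_natCast lam m, ← Real.rpow_mul hlam.le, ← Real.rpow_neg hlam.le]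
      congr 1
      ring
    rw [h5]
    ring
  rw [h3]
  calc _ ≤ (16 * κ) ^ (s / 2) * CR K lam s C * (1 / (1 - lam ^ (-(s / 2))) ^ 2) :=
        mul_le_mul_of_nonneg_left (Gpr_geo _ hg0.le hg1 _) (by positivity)
    _ = _ := by ring

theorem gpr3 (D : Dat M R G H H' K K₂ lam s C) : ∃ κ : ℝ, 0 < κ ∧ κ ≤ 1 ∧ ∀ (n : ℕ) (x : ℝ × ℝ),
    Sm M R H n (fun X => volume {a : ℝ | a ∈ Set.Icc (0 : ℝ) 1 ∧
      ¬ Good G lam κ n a (H^[n] X)}) x ≤ 1 / 8 := by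
  obtain ⟨hg0, hg1⟩ := Gpr_g D
  have hCR : 0 < CR K lam s C := lt_of_lt_of_le (by norm_num) (CR_pos D)
  have hs := D.s0
  have hgp : 0 < (1 - lam ^ (-(s / 2))) ^ 2 := pow_pos (by linarith) 2
  obtain ⟨A, hA⟩ : ∃ A : ℝ, A = CR K lam s C / (1 - lam ^ (-(s / 2))) ^ 2 := ⟨_, rfl⟩
  have hA0 : 0 < A := by
    rw [hA]
    exact div_pos hCR hgp
  have hB : (0 : ℝ) < 1 / (8 * A) := by positivity
  refine ⟨min 1 ((1 / (8 * A)) ^ (2 / s) / 16), ?_, min_le_left _ _, ?_⟩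
  · exact lt_min one_pos (by positivity)
  · intro n x
    have hκ : 0 < min 1 ((1 / (8 * A)) ^ (2 / s) / 16) := lt_min one_pos (by positivity)
    refine le_trans (gpr2 D hκ n x) ?_
    have h1 : (16 * min 1 ((1 / (8 * A)) ^ (2 / s) / 16)) ^ (s / 2) ≤ 1 / (8 * A) := by
      calc (16 * min 1 ((1 / (8 * A)) ^ (2 / s) / 16)) ^ (s / 2) ≤
          ((1 / (8 * A)) ^ (2 / s)) ^ (s / 2) := by
            apply Real.rpow_le_rpow (by positivity) _ (by positivity)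
            have := min_le_right 1 ((1 / (8 * A)) ^ (2 / s) / 16)
            linarith
        _ = 1 / (8 * A) := by
            rw [← Real.rpow_mul hB.le]
            have : 2 / s * (s / 2) = 1 := by field_simp
            rw [this, Real.rpow_one]
    have h2 : (16 * min 1 ((1 / (8 * A)) ^ (2 / s) / 16)) ^ (s / 2) * CR K lam s C /
        (1 - lam ^ (-(s / 2))) ^ 2 ≤ 1 / 8 := by
      rw [mul_div_assoc, ← hA]
      calc (16 * min 1 ((1 / (8 * A)) ^ (2 / s) / 16)) ^ (s / 2) * A ≤ 1 / (8 * A) * A := by gcongr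
        _ = 1 / 8 := by field_simp
    refine le_trans (ENNReal.ofReal_le_ofReal h2) ?_
    rw [ENNReal.ofReal_div_of_pos (by norm_num), ENNReal.ofReal_one, ENNReal.ofReal_ofNat]

end Pool.Agent.ERG
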