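import Pool.Agent.ERG.Mat

/-!
# Module Img (size 3): the measure of a set swept by segments

`f (s, σ) = β s - σ • w` has derivative `f' (s,σ) (ds, dσ) = ds • β' s - dσ • w`, with determinant `-(wd (β' s) w)` up to sign
(`det_formula` in NUH/Fwd.lean). The set on the left is `f '' T` with `T = {p | p.1 ∈ S ∧ |p.2| ≤ ρ p.1}` measurable.
`MeasureTheory.addHaar_image_le_lintegral_abs_det_fderiv`: `volume (f '' T) ≤ ∫⁻ p in T, ofReal |det f'|`, and Tonelli (`lintegral_prod`, or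
`MeasureTheory.setLIntegral_prod`-like, with indicators): `∫⁻ s in S, ∫⁻ σ, 1(|σ| ≤ ρ s) ofReal |wd (β' s) w| = ∫⁻ s in S, ofReal (2 ρ s) ofReal |wd ..|`
(`Real.volume_Icc`).
-/

set_option autoImplicit false

namespace Pool.Agent.ERG

open Pool.Agent.NUH MeasureTheory Filter Topology
open scoped ENNReal ContDiff NNReal

private theorem Img_det (A : ℝ × ℝ →L[ℝ] ℝ × ℝ) :
    A.det = (A (1, 0)).1 * (A (0, 1)).2 - (A (0, 1)).1 * (A (1, 0)).2 := by
  have h1 : A.det = LinearMap.det (A : ℝ × ℝ →ₗ[ℝ] ℝ × ℝ) := rfl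
  rw [h1, ← LinearMap.det_toMatrix (Module.Basis.finTwoProd ℝ), Matrix.det_fin_two]
  simp [LinearMap.toMatrix_apply]

theorem img {β β' : ℝ → ℝ × ℝ} (hβ : ∀ s, HasDerivAt β (β' s) s) (hβ' : Continuous β')
    (w : ℝ × ℝ) {S : Set ℝ} (hS : MeasurableSet S) {ρ : ℝ → ℝ} (hρ : Measurable ρ)
    (hρ0 : ∀ s, 0 ≤ ρ s) :
    volume {y : ℝ × ℝ | ∃ s ∈ S, ∃ σ : ℝ, |σ| ≤ ρ s ∧ y = β s - σ • w} ≤
      ∫⁻ s in S, ENNReal.ofReal (2 * ρ s * |wd (β' s) w|) := by
  set T : Set (ℝ × ℝ) := {p | p.1 ∈ S ∧ |p.2| ≤ ρ p.1} with hT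
  have hTm : MeasurableSet T := by
    apply MeasurableSet.inter (measurable_fst hS)
    exact measurableSet_le (measurable_norm.comp measurable_snd) (hρ.comp measurable_fst)
  set f : ℝ × ℝ → ℝ × ℝ := fun p => β p.1 - p.2 • w with hf
  set f' : ℝ × ℝ → (ℝ × ℝ →L[ℝ] ℝ × ℝ) := fun p =>
    (ContinuousLinearMap.fst ℝ ℝ ℝ).smulRight (β' p.1) -
      (ContinuousLinearMap.snd ℝ ℝ ℝ).smulRight w with hf'
  have hder : ∀ p ∈ T, HasFDerivWithinAt f (f' p) T p := by
    intro p _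
    have a1 : HasFDerivAt (fun q : ℝ × ℝ => β q.1)
        ((ContinuousLinearMap.fst ℝ ℝ ℝ).smulRight (β' p.1)) p := by
      have := (hβ p.1).hasFDerivAt.comp p (hasFDerivAt_fst (𝕜 := ℝ) (p := p))
      have e : (ContinuousLinearMap.fst ℝ ℝ ℝ).smulRight (β' p.1) =
          (ContinuousLinearMap.toSpanSingleton ℝ (β' p.1)).comp (ContinuousLinearMap.fst ℝ ℝ ℝ) := by
        ext <;> simp
      rw [e]
      exact this
    have a2 : HasFDerivAt (fun q : ℝ × ℝ => q.2 • w)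
        ((ContinuousLinearMap.snd ℝ ℝ ℝ).smulRight w) p :=
      (hasFDerivAt_snd (𝕜 := ℝ) (p := p)).smul_const w
    exact (a1.sub a2).hasFDerivWithinAt
  have hset : {y : ℝ × ℝ | ∃ s ∈ S, ∃ σ : ℝ, |σ| ≤ ρ s ∧ y = β s - σ • w} = f '' T := by
    ext y
    constructor
    · rintro ⟨s, hs, σ, hσ, rfl⟩
      exact ⟨(s, σ), ⟨hs, hσ⟩, rfl⟩
    · rintro ⟨⟨s, σ⟩, ⟨hs, hσ⟩, rfl⟩
      exact ⟨s, hs, σ, hσ, rfl⟩
  have hdet : ∀ p, |(f' p).det| = |wd (β' p.1) w| := by
    intro p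
    rw [Img_det, hf']
    rw [← abs_neg]
    congr 1
    simp [wd]
    ring
  rw [hset]
  refine (addHaar_image_le_lintegral_abs_det_fderiv volume hTm hder).trans (le_of_eq ?_)
  simp only [hdet]
  rw [← lintegral_indicator hTm, Measure.volume_eq_prod, lintegral_prod _ ?_]
  · rw [← lintegral_indicator hS]
    refine lintegral_congr fun s => ?_
    by_cases hs : s ∈ S
    · rw [Set.indicator_of_mem hs]
      have h1 : ∀ σ : ℝ, T.indicator (fun p => ENNReal.ofReal |wd (β' p.1) w|) (s, σ) =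
          (Set.Icc (-ρ s) (ρ s)).indicator (fun _ => ENNReal.ofReal |wd (β' s) w|) σ := by
        intro σ
        by_cases h : |σ| ≤ ρ s
        · rw [Set.indicator_of_mem (show (s, σ) ∈ T from ⟨hs, h⟩),
            Set.indicator_of_mem (show σ ∈ Set.Icc (-ρ s) (ρ s) from abs_le.mp h)]
        · rw [Set.indicator_of_notMem (show (s, σ) ∉ T from fun h' => h h'.2),
            Set.indicator_of_notMem (fun h' : σ ∈ Set.Icc (-ρ s) (ρ s) => h (abs_le.mpr h'))]
      rw [lintegral_congr h1, lintegral_indicator_const measurableSet_Icc, Real.volume_Icc,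
        ← ENNReal.ofReal_mul (abs_nonneg _)]
      congr 1
      ring
    · rw [Set.indicator_of_notMem hs]
      rw [lintegral_congr (g := fun _ => 0)
        (fun σ => Set.indicator_of_notMem (show (s, σ) ∉ T from fun h' => hs h'.1) _)]
      simp
  · refine (Measurable.indicator ?_ hTm).aemeasurable
    have : Continuous fun p : ℝ × ℝ => wd (β' p.1) w := by
      unfold wd
      fun_prop
    exact ENNReal.measurable_ofReal.comp this.abs.measurable

end Pool.Agent.ERG
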