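import Pool.Agent.ERG.Tre
import Pool.Agent.ERG.Brb
import Pool.Agent.ERG.Msr

/-!
# Module Inta (size 3): the integral of a branch sum

`int0` is `Sm_succ` with `n = 0` (`Sm_zero`) and `transfer_eq`. `int1`: induction over `n` for all `φ`. By `Sm_comp D n 1`, with `Ψ X = φ (H^[n+1] X)` and
`Ψ (G^[n] Y) = φ (H Y)` (`H^[n+1] (G^[n] Y) = H (H^[n] (G^[n] Y))`, `Function.iterate_succ_apply'`, `D.HG`):
`Sm (n+1) Ψ z = Sm n (fun X => φ₁ (H^[n] X)) z` with `φ₁ z = Sm 1 (fun X => φ (H X)) z`, which is measurable (finite sum of products of continuous / measurable functions)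
and periodic (`Sm_perz` with `n = 1`). So the induction hypothesis and `int0` give the claim.
`meas_Sm`: `Sm n (fun X => φ (H^[n] X)) z` is a finite sum of measurable functions of `z`.
-/

set_option autoImplicit false

namespace Pool.Agent.ERG

open Pool.Agent.NUH MeasureTheory Filter Topology
open scoped ENNReal ContDiff NNReal

variable {M : Mt} {R : Finset (ℤ × ℤ)} {G H : ℝ × ℝ → ℝ × ℝ}
  {H' : ℝ × ℝ → (ℝ × ℝ →L[ℝ] ℝ × ℝ)} {K K₂ lam s C : ℝ}

theorem meas_Sm (D : Dat M R G H H' K K₂ lam s C) (n : ℕ) {φ : ℝ × ℝ → ℝ≥0∞} (hφ : Measurable φ) :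
    Measurable fun z => Sm M R H n (fun X => φ (H^[n] X)) z := by
  unfold Sm
  refine Finset.measurable_sum _ fun k _ => ?_
  refine (D.meas_wt n k).mul ?_
  exact hφ.comp ((D.contHn n).measurable.comp (measurable_add_const _))

theorem int0 (D : Dat M R G H H' K K₂ lam s C) {φ : ℝ × ℝ → ℝ≥0∞} (hφ : Measurable φ)
    (hper : ∀ z k, φ (z + zc k) = φ z) :
    ∫⁻ x in Q, Sm M R H 1 (fun X => φ (H X)) x = ∫⁻ y in Q, φ y := by
  rw [transfer_eq D.lift D.det0 D.res D.uniq hφ hper]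
  congr 1
  funext x
  have h := Sm_succ D 0 (fun X => φ (H X)) x
  rw [zero_add] at h
  rw [h]
  refine Finset.sum_congr rfl fun m _ => ?_
  rw [Sm_zero D, D.lift.left]

theorem int1 (D : Dat M R G H H' K K₂ lam s C) (n : ℕ) {φ : ℝ × ℝ → ℝ≥0∞} (hφ : Measurable φ)
    (hper : ∀ z k, φ (z + zc k) = φ z) :
    ∫⁻ x in Q, Sm M R H n (fun X => φ (H^[n] X)) x = ∫⁻ y in Q, φ y := by
  induction n generalizing φ with
  | zero =>
    congr 1
    funext x
    rw [Sm_zero D]
    rfl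
  | succ n ih =>
    have hm : Measurable fun z => Sm M R H 1 (fun X => φ (H X)) z := meas_Sm D 1 hφ
    have hp : ∀ (z : ℝ × ℝ) (k : ℤ × ℤ), Sm M R H 1 (fun X => φ (H X)) (z + zc k) =
        Sm M R H 1 (fun X => φ (H X)) z := fun z k => Sm_perz D 1 hper z k
    rw [← int0 D hφ hper, ← ih hm hp]
    congr 1
    funext x
    rw [Sm_comp D n 1]
    congr 1
    funext X
    congr 1
    funext Y
    rw [Function.iterate_succ_apply', D.HG]

end Pool.Agent.ERG
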