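import Pool.Agent.ERG.Defs

/-!
# Module Intb (size 3): the integral of a periodic function over a small square

`Q = [0,1) × [0,1)`. As in `transfer`: `∫⁻ x in B, F x = ∫⁻ x, F x * 1_B x`, `1 = ∑' k, iQ (x - zc k)` (`tsum_iQ`), exchange sum and integral (`lintegral_tsum`), translate
by `zc k` (`lintegral_add_right_eq_self`): `= ∑' k ∫⁻ x, F x * 1_B (x + zc k) * iQ x = ∫⁻ x in Q, F x * ∑' k 1_B (x + zc k)`, and for every `x` at most one `k` has
`x + zc k ∈ B = closedBall x0 ρ` because `2 ρ < 1` (two such `k` differ by an integer vector of norm `≤ 2 ρ < 1`). So `∑' k ≤ 1`.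
-/

set_option autoImplicit false

namespace Pool.Agent.ERG

open Pool.Agent.NUH MeasureTheory Filter Topology
open scoped ENNReal ContDiff NNReal

private lemma Intb_int {a b : ℤ} {x y ρ : ℝ} (hρ : 2 * ρ < 1) (h1 : |x + a - y| ≤ ρ)
    (h2 : |x + b - y| ≤ ρ) : a = b := by
  have h3 : |(a : ℝ) - b| < 1 := by
    have e : (a : ℝ) - b = (x + a - y) - (x + b - y) := by ring
    rw [e]
    have := abs_sub (x + a - y) (x + b - y)
    linarith
  have h4 : |a - b| < 1 := by exact_mod_cast h3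
  have h5 := Int.abs_lt_one_iff.mp h4
  omega

private lemma Intb_uniq {z x0 : ℝ × ℝ} {ρ : ℝ} (hρ : 2 * ρ < 1) {k l : ℤ × ℤ}
    (hk : z + zc k ∈ Metric.closedBall x0 ρ) (hl : z + zc l ∈ Metric.closedBall x0 ρ) : k = l := by
  rw [mem_closedBall_iff_norm, Prod.norm_def, max_le_iff, Real.norm_eq_abs, Real.norm_eq_abs]
    at hk hl
  ext
  · exact Intb_int hρ hk.1 hl.1
  · exact Intb_int hρ hk.2 hl.2

theorem int2 {F : ℝ × ℝ → ℝ≥0∞} (hF : Measurable F) (hper : ∀ z k, F (z + zc k) = F z)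
    (x0 : ℝ × ℝ) {ρ : ℝ} (hρ : 2 * ρ < 1) :
    ∫⁻ x in Metric.closedBall x0 ρ, F x ≤ ∫⁻ x in Q, F x := by
  have hiQ := iQ_meas
  have hBm : MeasurableSet (Metric.closedBall x0 ρ) := Metric.isClosed_closedBall.measurableSet
  have hB : ∀ S : Set (ℝ × ℝ), MeasurableSet S → ∀ g : ℝ × ℝ → ℝ≥0∞,
      ∫⁻ z in S, g z = ∫⁻ z, g z * S.indicator 1 z := by
    intro S hS g
    rw [← lintegral_indicator hS]
    congr 1
    funext z
    by_cases hz : z ∈ S
    · rw [Set.indicator_of_mem hz, Set.indicator_of_mem hz]; simp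
    · rw [Set.indicator_of_notMem hz, Set.indicator_of_notMem hz]; simp
  have hiB : Measurable ((Metric.closedBall x0 ρ).indicator (1 : ℝ × ℝ → ℝ≥0∞)) :=
    measurable_one.indicator hBm
  rw [hB _ hBm, hB _ Q_meas]
  have h1 : ∀ z, F z * (Metric.closedBall x0 ρ).indicator 1 z =
      ∑' k : ℤ × ℤ, F z * (Metric.closedBall x0 ρ).indicator 1 z * iQ (z - zc k) := by
    intro z
    rw [ENNReal.tsum_mul_left, tsum_iQ, mul_one]
  have hm1 : ∀ k : ℤ × ℤ, Measurable fun z : ℝ × ℝ =>
      F z * (Metric.closedBall x0 ρ).indicator 1 z * iQ (z - zc k) := fun k =>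
    (hF.mul hiB).mul (hiQ.comp (measurable_id.sub_const _))
  have hm2 : ∀ k : ℤ × ℤ, Measurable fun z : ℝ × ℝ =>
      F z * (Metric.closedBall x0 ρ).indicator 1 (z + zc k) * iQ z := fun k =>
    (hF.mul (hiB.comp (measurable_add_const _))).mul hiQ
  calc ∫⁻ z, F z * (Metric.closedBall x0 ρ).indicator 1 z
      = ∫⁻ z, ∑' k : ℤ × ℤ, F z * (Metric.closedBall x0 ρ).indicator 1 z * iQ (z - zc k) := by
        congr 1
        funext z
        exact h1 z
    _ = ∑' k : ℤ × ℤ, ∫⁻ z, F z * (Metric.closedBall x0 ρ).indicator 1 z * iQ (z - zc k) :=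
        lintegral_tsum fun k => (hm1 k).aemeasurable
    _ = ∑' k : ℤ × ℤ, ∫⁻ z, F z * (Metric.closedBall x0 ρ).indicator 1 (z + zc k) * iQ z := by
        congr 1
        funext k
        rw [← lintegral_add_right_eq_self (fun z =>
          F z * (Metric.closedBall x0 ρ).indicator 1 z * iQ (z - zc k)) (zc k)]
        congr 1
        funext z
        rw [add_sub_cancel_right, hper]
    _ = ∫⁻ z, ∑' k : ℤ × ℤ, F z * (Metric.closedBall x0 ρ).indicator 1 (z + zc k) * iQ z :=
        (lintegral_tsum fun k => (hm2 k).aemeasurable).symm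
    _ ≤ ∫⁻ z, F z * Q.indicator 1 z := by
        refine lintegral_mono fun z => ?_
        show ∑' k : ℤ × ℤ, F z * (Metric.closedBall x0 ρ).indicator 1 (z + zc k) * iQ z ≤
          F z * Q.indicator 1 z
        rw [ENNReal.tsum_mul_right, ENNReal.tsum_mul_left]
        have h2 : ∑' k : ℤ × ℤ, (Metric.closedBall x0 ρ).indicator (1 : ℝ × ℝ → ℝ≥0∞) (z + zc k) ≤
            1 := by
          by_cases hex : ∃ k : ℤ × ℤ, z + zc k ∈ Metric.closedBall x0 ρ
          · obtain ⟨k, hk⟩ := hex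
            rw [tsum_eq_single k]
            · rw [Set.indicator_of_mem hk]; rfl
            · intro l hl
              rw [Set.indicator_of_notMem]
              intro h
              exact hl (Intb_uniq hρ h hk)
          · push Not at hex
            have : ∀ k : ℤ × ℤ, (Metric.closedBall x0 ρ).indicator (1 : ℝ × ℝ → ℝ≥0∞)
                (z + zc k) = 0 := fun k => Set.indicator_of_notMem (hex k) _
            simp [this]
        calc F z * (∑' k : ℤ × ℤ, (Metric.closedBall x0 ρ).indicator (1 : ℝ × ℝ → ℝ≥0∞)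
              (z + zc k)) * iQ z ≤ F z * 1 * iQ z := by gcongr
          _ = F z * Q.indicator 1 z := by rw [mul_one]; rfl

theorem vol_Q : volume Q = 1 := by
  unfold Q
  rw [Measure.volume_eq_prod, Measure.prod_prod, Real.volume_Ico]
  simp

theorem vol_ball (x0 : ℝ × ℝ) {ρ : ℝ} (hρ : 2 * ρ < 1) : volume (Metric.closedBall x0 ρ) ≤ 1 := by
  have h := int2 (F := fun _ => 1) measurable_const (fun _ _ => rfl) x0 hρ
  rw [setLIntegral_one, setLIntegral_one, vol_Q] at h
  exact h

end Pool.Agent.ERG
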