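import Pool.Agent.ERG.Defs

/-!
# Module Mat (size 2): elementary facts about 2 x 2 matrices (sup norm on `ℝ × ℝ`)

Every `A : ℝ × ℝ →L[ℝ] ℝ × ℝ` is `A v = v.1 • A (1,0) + v.2 • A (0,1)`; `det_formula` (NUH/Fwd.lean) gives `A.det`.
`‖v‖ = max |v.1| |v.2|` (`Prod.norm_def`).
`mat1`: write `A (1,0) = (a, c)`, `A (0,1) = (b, d)`. `‖A v‖ ≤ max (|a|+|b|) (|c|+|d|) ‖v‖`, so `‖A‖ ≤ |a|+|b|` or
`‖A‖ ≤ |c|+|d|`. In the first case `q = (-b, a)`: `wd q v = -(a v.1 + b v.2)`, `‖q‖ ≥ (|a|+|b|)/2`. Same for the second.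
`mat2`: `N = A⁻¹`; the entries of `A` are `± det A` times entries of `N` (apply `A` to the two equations
`N (A v) = v`, or Cramer: `wd (N v) w = (det N) wd v (A w)`...). E.g. `A (1,0) = (a,c)`, `A (0,1) = (b,d)`, `N (1,0) = (p,r)`,
`N (0,1) = (q,t)`: `A (N (1,0)) = (1,0)`, i.e. `a p + b r = 1`, `c p + d r = 0`, and `a q + b t = 0`, `c q + d t = 1`; with
`Δ = a d - b c`: `d = Δ p`, `c = -Δ r`, `b = -Δ q`, `a = Δ t`. So every entry of `A` is at most `|Δ| ‖N‖` in absolute value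
(`|p| ≤ ‖N (1,0)‖ ≤ ‖N‖`) and `‖A‖ ≤ 2 |Δ| ‖N‖`.
`mat3`: let `i` be a coordinate with `|p i| = ‖p‖`; `p i • p' = p' i • p ± (wd p p') • e_j` with `j` the other coordinate; apply
`A` and take norms (`‖A e_j‖ ≤ ‖A‖`).
-/

set_option autoImplicit false

namespace Pool.Agent.ERG

open Pool.Agent.NUH MeasureTheory Filter Topology
open scoped ENNReal ContDiff NNReal

/-- coordinates of the image of a vector -/
private theorem mat_apply (A : ℝ × ℝ →L[ℝ] ℝ × ℝ) (v : ℝ × ℝ) :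
    (A v).1 = v.1 * (A (1, 0)).1 + v.2 * (A (0, 1)).1 ∧
      (A v).2 = v.1 * (A (1, 0)).2 + v.2 * (A (0, 1)).2 := by
  have hv : v = v.1 • ((1, 0) : ℝ × ℝ) + v.2 • ((0, 1) : ℝ × ℝ) := by ext <;> simp
  constructor
  · conv_lhs => rw [hv]
    rw [map_add, map_smul, map_smul]; rfl
  · conv_lhs => rw [hv]
    rw [map_add, map_smul, map_smul]; rfl

private theorem mat_e1 : ‖((1, 0) : ℝ × ℝ)‖ = 1 := by rw [Prod.norm_def]; simp

private theorem mat_e2 : ‖((0, 1) : ℝ × ℝ)‖ = 1 := by rw [Prod.norm_def]; simp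

private theorem mat_a1 (v : ℝ × ℝ) : |v.1| ≤ ‖v‖ := norm_fst_le v

private theorem mat_a2 (v : ℝ × ℝ) : |v.2| ≤ ‖v‖ := norm_snd_le v

private theorem mat_entries (C : ℝ × ℝ →L[ℝ] ℝ × ℝ) : |(C (1, 0)).1| ≤ ‖C‖ ∧ |(C (1, 0)).2| ≤ ‖C‖ ∧
      |(C (0, 1)).1| ≤ ‖C‖ ∧ |(C (0, 1)).2| ≤ ‖C‖ := by
  have b1 : ‖C (1, 0)‖ ≤ ‖C‖ := by have := C.le_opNorm (1, 0); rwa [mat_e1, mul_one] at this
  have b2 : ‖C (0, 1)‖ ≤ ‖C‖ := by have := C.le_opNorm (0, 1); rwa [mat_e2, mul_one] at this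
  exact ⟨(mat_a1 (C (1, 0))).trans b1, (mat_a2 (C (1, 0))).trans b1,
    (mat_a1 (C (0, 1))).trans b2, (mat_a2 (C (0, 1))).trans b2⟩

private theorem mat_norm_le {v : ℝ × ℝ} {r : ℝ} (h1 : |v.1| ≤ r) (h2 : |v.2| ≤ r) : ‖v‖ ≤ r := by
  rw [Prod.norm_def]
  exact max_le h1 h2

theorem wd_map (A : ℝ × ℝ →L[ℝ] ℝ × ℝ) (p q : ℝ × ℝ) : wd (A p) (A q) = A.det * wd p q := by
  unfold wd
  rw [det_formula, (mat_apply A p).1, (mat_apply A p).2, (mat_apply A q).1, (mat_apply A q).2]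
  ring

theorem wd_smul_left (c : ℝ) (p q : ℝ × ℝ) : wd (c • p) q = c * wd p q := by
  unfold wd
  simp only [Prod.smul_fst, Prod.smul_snd, smul_eq_mul]
  ring

theorem wd_smul_right (c : ℝ) (p q : ℝ × ℝ) : wd p (c • q) = c * wd p q := by
  unfold wd
  simp only [Prod.smul_fst, Prod.smul_snd, smul_eq_mul]
  ring

theorem wd_self (p : ℝ × ℝ) : wd p p = 0 := by
  unfold wd
  ring

theorem wd_comm (p q : ℝ × ℝ) : wd p q = -wd q p := by
  unfold wd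
  ring

theorem abs_wd_le (p q : ℝ × ℝ) : |wd p q| ≤ 2 * ‖p‖ * ‖q‖ := by
  unfold wd
  refine (abs_sub _ _).trans ?_
  rw [abs_mul, abs_mul]
  have g1 : |p.1| * |q.2| ≤ ‖p‖ * ‖q‖ :=
    mul_le_mul (mat_a1 p) (mat_a2 q) (abs_nonneg _) (norm_nonneg _)
  have g2 : |p.2| * |q.1| ≤ ‖p‖ * ‖q‖ :=
    mul_le_mul (mat_a2 p) (mat_a1 q) (abs_nonneg _) (norm_nonneg _)
  linarith

theorem mat1 (B : ℝ × ℝ →L[ℝ] ℝ × ℝ) : ∃ q : ℝ × ℝ, ‖B‖ ≤ 2 * ‖q‖ ∧ ∀ v, |wd q v| ≤ ‖B v‖ := by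
  set a := (B (1, 0)).1 with ha
  set c := (B (1, 0)).2 with hc
  set b := (B (0, 1)).1 with hb
  set d := (B (0, 1)).2 with hd
  have hrow1 : ∀ v : ℝ × ℝ, |(B v).1| ≤ (|a| + |b|) * ‖v‖ := by
    intro v
    rw [(mat_apply B v).1]
    refine (abs_add_le _ _).trans ?_
    rw [abs_mul, abs_mul]
    have g1 : |v.1| * |a| ≤ ‖v‖ * |a| := mul_le_mul_of_nonneg_right (mat_a1 v) (abs_nonneg _)
    have g2 : |v.2| * |b| ≤ ‖v‖ * |b| := mul_le_mul_of_nonneg_right (mat_a2 v) (abs_nonneg _)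
    linarith
  have hrow2 : ∀ v : ℝ × ℝ, |(B v).2| ≤ (|c| + |d|) * ‖v‖ := by
    intro v
    rw [(mat_apply B v).2]
    refine (abs_add_le _ _).trans ?_
    rw [abs_mul, abs_mul]
    have g1 : |v.1| * |c| ≤ ‖v‖ * |c| := mul_le_mul_of_nonneg_right (mat_a1 v) (abs_nonneg _)
    have g2 : |v.2| * |d| ≤ ‖v‖ * |d| := mul_le_mul_of_nonneg_right (mat_a2 v) (abs_nonneg _)
    linarith
  rcases le_total (|c| + |d|) (|a| + |b|) with h | h
  · refine ⟨(-b, a), ?_, ?_⟩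
    · have h1 : ‖B‖ ≤ |a| + |b| := by
        apply ContinuousLinearMap.opNorm_le_bound _ (by positivity)
        intro v
        exact mat_norm_le (hrow1 v)
          ((hrow2 v).trans (mul_le_mul_of_nonneg_right h (norm_nonneg _)))
      have h2 : |b| ≤ ‖((-b, a) : ℝ × ℝ)‖ := by
        have := mat_a1 ((-b, a) : ℝ × ℝ)
        simpa using this
      have h3 : |a| ≤ ‖((-b, a) : ℝ × ℝ)‖ := mat_a2 ((-b, a) : ℝ × ℝ)
      linarith
    · intro v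
      have e : wd (-b, a) v = -(B v).1 := by
        unfold wd
        rw [(mat_apply B v).1]
        ring
      rw [e, abs_neg]
      exact mat_a1 _
  · refine ⟨(-d, c), ?_, ?_⟩
    · have h1 : ‖B‖ ≤ |c| + |d| := by
        apply ContinuousLinearMap.opNorm_le_bound _ (by positivity)
        intro v
        exact mat_norm_le ((hrow1 v).trans (mul_le_mul_of_nonneg_right h (norm_nonneg _)))
          (hrow2 v)
      have h2 : |d| ≤ ‖((-d, c) : ℝ × ℝ)‖ := by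
        have := mat_a1 ((-d, c) : ℝ × ℝ)
        simpa using this
      have h3 : |c| ≤ ‖((-d, c) : ℝ × ℝ)‖ := mat_a2 ((-d, c) : ℝ × ℝ)
      linarith
    · intro v
      have e : wd (-d, c) v = -(B v).2 := by
        unfold wd
        rw [(mat_apply B v).2]
        ring
      rw [e, abs_neg]
      exact mat_a2 _

theorem mat4 (A : ℝ × ℝ →L[ℝ] ℝ × ℝ) : ‖A‖ ≤ ‖A (1, 0)‖ + ‖A (0, 1)‖ := by
  apply ContinuousLinearMap.opNorm_le_bound _ (by positivity)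
  intro v
  have hv : A v = v.1 • A (1, 0) + v.2 • A (0, 1) := by
    rw [← map_smul, ← map_smul, ← map_add]
    congr 1
    ext <;> simp
  rw [hv]
  refine (norm_add_le _ _).trans ?_
  rw [norm_smul, norm_smul, Real.norm_eq_abs, Real.norm_eq_abs]
  have g1 : |v.1| * ‖A (1, 0)‖ ≤ ‖v‖ * ‖A (1, 0)‖ :=
    mul_le_mul_of_nonneg_right (mat_a1 v) (norm_nonneg _)
  have g2 : |v.2| * ‖A (0, 1)‖ ≤ ‖v‖ * ‖A (0, 1)‖ :=
    mul_le_mul_of_nonneg_right (mat_a2 v) (norm_nonneg _)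
  linarith

theorem mat2 {A N : ℝ × ℝ →L[ℝ] ℝ × ℝ} (h : ∀ v, A (N v) = v) : ‖A‖ ≤ 2 * |A.det| * ‖N‖ := by
  obtain ⟨n1, n2, n3, n4⟩ := mat_entries N
  have e1 := h (1, 0)
  have e2 := h (0, 1)
  have k1 := congrArg Prod.fst e1
  have k2 := congrArg Prod.snd e1
  have k3 := congrArg Prod.fst e2
  have k4 := congrArg Prod.snd e2
  rw [(mat_apply A _).1] at k1 k3
  rw [(mat_apply A _).2] at k2 k4
  simp only at k1 k2 k3 k4
  have hD := det_formula A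
  have a1 : (A (1, 0)).1 = A.det * (N (0, 1)).2 := by
    rw [hD]
    linear_combination (-(A (1, 0)).1) * k4 + (A (1, 0)).2 * k3
  have a2 : (A (1, 0)).2 = -(A.det * (N (1, 0)).2) := by
    rw [hD]
    linear_combination (-(A (1, 0)).2) * k1 + (A (1, 0)).1 * k2
  have a3 : (A (0, 1)).1 = -(A.det * (N (0, 1)).1) := by
    rw [hD]
    linear_combination (-(A (0, 1)).1) * k4 + (A (0, 1)).2 * k3
  have a4 : (A (0, 1)).2 = A.det * (N (1, 0)).1 := by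
    rw [hD]
    linear_combination (-(A (0, 1)).2) * k1 + (A (0, 1)).1 * k2
  have hΔ := abs_nonneg A.det
  have b1 : ‖A (1, 0)‖ ≤ |A.det| * ‖N‖ := by
    apply mat_norm_le
    · rw [a1, abs_mul]; exact mul_le_mul_of_nonneg_left n4 hΔ
    · rw [a2, abs_neg, abs_mul]; exact mul_le_mul_of_nonneg_left n2 hΔ
  have b2 : ‖A (0, 1)‖ ≤ |A.det| * ‖N‖ := by
    apply mat_norm_le
    · rw [a3, abs_neg, abs_mul]; exact mul_le_mul_of_nonneg_left n3 hΔ
    · rw [a4, abs_mul]; exact mul_le_mul_of_nonneg_left n1 hΔ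
  have := mat4 A
  linarith

theorem mat3 (A : ℝ × ℝ →L[ℝ] ℝ × ℝ) (p p' : ℝ × ℝ) :
    ‖p‖ * ‖A p'‖ ≤ ‖p'‖ * ‖A p‖ + ‖A‖ * |wd p p'| := by
  have b1 : ‖A (1, 0)‖ ≤ ‖A‖ := by have := A.le_opNorm (1, 0); rwa [mat_e1, mul_one] at this
  have b2 : ‖A (0, 1)‖ ≤ ‖A‖ := by have := A.le_opNorm (0, 1); rwa [mat_e2, mul_one] at this
  rcases le_total |p.1| |p.2| with h | h
  · -- the second coordinate is dominant
    have hp : ‖p‖ = |p.2| := by
      rw [Prod.norm_def, Real.norm_eq_abs, Real.norm_eq_abs, max_eq_right h]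
    have e : p.2 • A p' = p'.2 • A p + (-(wd p p')) • A (1, 0) := by
      rw [← map_smul, ← map_smul, ← map_smul, ← map_add]
      congr 1
      unfold wd
      ext
      · simp only [Prod.smul_fst, Prod.fst_add, smul_eq_mul]; ring
      · simp only [Prod.smul_snd, Prod.snd_add, smul_eq_mul]; ring
    have n1 : |p.2| * ‖A p'‖ = ‖p.2 • A p'‖ := by rw [norm_smul, Real.norm_eq_abs]
    rw [hp, n1, e]
    refine (norm_add_le _ _).trans ?_
    rw [norm_smul, norm_smul, Real.norm_eq_abs, Real.norm_eq_abs, abs_neg]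
    have g1 : |p'.2| * ‖A p‖ ≤ ‖p'‖ * ‖A p‖ := mul_le_mul_of_nonneg_right (mat_a2 p') (norm_nonneg _)
    have g2 : |wd p p'| * ‖A (1, 0)‖ ≤ |wd p p'| * ‖A‖ := mul_le_mul_of_nonneg_left b1 (abs_nonneg _)
    linarith
  · have hp : ‖p‖ = |p.1| := by
      rw [Prod.norm_def, Real.norm_eq_abs, Real.norm_eq_abs, max_eq_left h]
    have e : p.1 • A p' = p'.1 • A p + (wd p p') • A (0, 1) := by
      rw [← map_smul, ← map_smul, ← map_smul, ← map_add]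
      congr 1
      unfold wd
      ext
      · simp only [Prod.smul_fst, Prod.fst_add, smul_eq_mul]; ring
      · simp only [Prod.smul_snd, Prod.snd_add, smul_eq_mul]; ring
    have n1 : |p.1| * ‖A p'‖ = ‖p.1 • A p'‖ := by rw [norm_smul, Real.norm_eq_abs]
    rw [hp, n1, e]
    refine (norm_add_le _ _).trans ?_
    rw [norm_smul, norm_smul, Real.norm_eq_abs, Real.norm_eq_abs]
    have g1 : |p'.1| * ‖A p‖ ≤ ‖p'‖ * ‖A p‖ := mul_le_mul_of_nonneg_right (mat_a1 p') (norm_nonneg _)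
    have g2 : |wd p p'| * ‖A (0, 1)‖ ≤ |wd p p'| * ‖A‖ := mul_le_mul_of_nonneg_left b2 (abs_nonneg _)
    linarith

end Pool.Agent.ERG
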