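import Pool.Agent.ERG.Brb
import Pool.Agent.ERG.Mat

/-!
# Module Rat (size 4): the ratio estimate `(R)`

Fix `X`, write `M_i = Dn H i X`, so `M_{i+1} = A M_i` with `A = H' (H^[i] X)` (`Dn_add` with `1 + i`, or `Dn H 1 x = H' x`),
`‖A‖ ≤ K` and `‖p‖ ≤ K ‖A p‖` (`p = DG(..) (A p)`, `D.up`). Let `q ≠ 0`, `p = M_i q ≠ 0`, `p' = M_i q'`. `mat3` divided by
`‖p‖ ‖A p‖ > 0` gives, with `r_i = ‖M_i q'‖ / ‖M_i q‖`,
`r_{i+1} ≤ r_i + K |wd p p'| / (‖p‖ ‖A p‖) ≤ r_i + K ^ 2 |wd p p'| / ‖p‖ ^ 2`, and `|wd p p'| = wt H i X * |wd q q'|` (`wd_map`) with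
`wt H i X ≤ lam ^ (-8 i)` (`D.wt_le`). This is `rat1`. `rat2`: sum over `i < j`.
`rat3`: raise to the power `s / 2 ∈ (0, 1/2]` (`Real.rpow` is subadditive for exponents in `[0,1]`: `Real.add_rpow_le_rpow_add` or
`NNReal.rpow_add_le_add_rpow`, for a finite sum by induction), with `(‖p‖ ^ 2) ^ (s/2) = ‖p‖ ^ s`.
`rat4`: apply `Sm j` to `rat3` (`Sm_mono`, `Sm_add_fun`, `Sm_sum`, `Sm_mul`, `Sm_const`); for `i < j` the function
`X ↦ ‖Dn H i X q‖ ^ (-s)` is periodic modulo `M ^ i` (`D.perDH`), so `Sm_low` and `Sm_mom` give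
`Sm j (‖Dn H i X q‖ ^ (-s)) z ≤ C ‖q‖ ^ (-s)`. The geometric series: `∑_i (lam ^ (-8 i)) ^ (s/2) ≤ 1 / (1 - lam ^ (-4 s))`, here written with
`g = lam ^ (-4 s) < 1`. With `|wd q q'| ≤ 2 ‖q‖ ‖q'‖` and after multiplication by `(‖q‖/‖q'‖) ^ (s/2)`: use `q' = (1,0)` and `q' = (0,1)`
(`‖q'‖ = 1`, `|wd q q'| ≤ 2 ‖q‖`): `Sm j ((‖q‖ ‖M_j q'‖ / ‖M_j q‖) ^ (s/2)) z ≤ 1 + (2 K ^ 2) ^ (s/2) C / (1 - g) ≤ 1 + 2 K ^ 2 C / (1 - g)`
(the powers of `‖q‖` cancel: `(2 K ^ 2 ‖q‖) ^ (s/2) * ‖q‖ ^ (-s) * ‖q‖ ^ (s/2) = (2 K ^ 2) ^ (s/2)`), and `mat4` with the subadditivity of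
the power gives the claim with `CR`, twice this constant.
-/

set_option autoImplicit false

namespace Pool.Agent.ERG

open Pool.Agent.NUH MeasureTheory Filter Topology
open scoped ENNReal ContDiff NNReal

variable {M : Mt} {R : Finset (ℤ × ℤ)} {G H : ℝ × ℝ → ℝ × ℝ}
  {H' : ℝ × ℝ → (ℝ × ℝ →L[ℝ] ℝ × ℝ)} {K K₂ lam s C : ℝ}

/-- the constant of the ratio estimate -/
noncomputable def CR (K lam s C : ℝ) : ℝ := 2 * (1 + 2 * K ^ 2 * C / (1 - lam ^ (-(4 * s))))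

private theorem rat_g (D : Dat M R G H H' K K₂ lam s C) :
    0 < lam ^ (-(4 * s)) ∧ lam ^ (-(4 * s)) < 1 :=
  ⟨Real.rpow_pos_of_pos (by linarith [D.lam1]) _,
    Real.rpow_lt_one_of_one_lt_of_neg D.lam1 (by linarith [D.s0])⟩

theorem CR_pos (D : Dat M R G H H' K K₂ lam s C) : 2 ≤ CR K lam s C := by
  obtain ⟨h0, h1⟩ := rat_g D
  have hC := D.C1
  have : 0 ≤ 2 * K ^ 2 * C / (1 - lam ^ (-(4 * s))) :=
    div_nonneg (by positivity) (by linarith)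
  unfold CR
  linarith

private theorem rat_succ (D : Dat M R G H H' K K₂ lam s C) (X q : ℝ × ℝ) (i : ℕ) :
    Dn H (i + 1) X q = H' (H^[i] X) (Dn H i X q) := by
  rw [add_comm i 1, Dn_add D.diffH 1 i]
  have e : Dn H 1 (H^[i] X) = H' (H^[i] X) := by
    unfold Dn
    rw [Function.iterate_one, D.fderivH]
  rw [e]
  rfl

private theorem rat_low (D : Dat M R G H H' K K₂ lam s C) (x p : ℝ × ℝ) : ‖p‖ ≤ K * ‖H' x p‖ := by
  have h := D.DGDH 1 x p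
  have e : Dn H 1 x = H' x := by
    unfold Dn
    rw [Function.iterate_one, D.fderivH]
  have e2 : Dn G 1 (H^[1] x) = fderiv ℝ G (H x) := rfl
  rw [e, e2] at h
  calc ‖p‖ = ‖fderiv ℝ G (H x) (H' x p)‖ := by rw [h]
    _ ≤ ‖fderiv ℝ G (H x)‖ * ‖H' x p‖ := ContinuousLinearMap.le_opNorm _ _
    _ ≤ K * ‖H' x p‖ := mul_le_mul_of_nonneg_right (D.up _) (norm_nonneg _)

theorem rat1 (D : Dat M R G H H' K K₂ lam s C) (X q q' : ℝ × ℝ) (hq : q ≠ 0) (i : ℕ) :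
    ‖Dn H (i + 1) X q'‖ / ‖Dn H (i + 1) X q‖ ≤ ‖Dn H i X q'‖ / ‖Dn H i X q‖ +
      K ^ 2 * (|wd q q'| / lam ^ (8 * i)) / ‖Dn H i X q‖ ^ 2 := by
  rw [rat_succ D, rat_succ D]
  set p := Dn H i X q with hp
  set p' := Dn H i X q' with hp'
  set A := H' (H^[i] X) with hA
  have hK := D.K1
  have hp0 : 0 < ‖p‖ := norm_pos_iff.mpr (D.DH_ne i X hq)
  have hlow : ‖p‖ ≤ K * ‖A p‖ := rat_low D _ _
  have hA0 : 0 < ‖A p‖ := by
    by_contra h
    have : ‖A p‖ = 0 := le_antisymm (not_lt.mp h) (norm_nonneg _)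
    rw [this] at hlow
    linarith
  have h3 := mat3 A p p'
  have hAK : ‖A‖ ≤ K := D.upH _
  have hw : |wd p p'| ≤ |wd q q'| / lam ^ (8 * i) := by
    rw [hp, hp', wd_map, abs_mul]
    have hl : 0 < lam ^ (8 * i) := pow_pos (by linarith [D.lam1]) _
    rw [le_div_iff₀ hl]
    have := D.wt_le i X
    unfold wt at this
    calc |(Dn H i X).det| * |wd q q'| * lam ^ (8 * i)
        = (|(Dn H i X).det| * lam ^ (8 * i)) * |wd q q'| := by ring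
      _ ≤ 1 * |wd q q'| := mul_le_mul_of_nonneg_right this (abs_nonneg _)
      _ = |wd q q'| := one_mul _
  have h4 : ‖A‖ * |wd p p'| ≤ K * (|wd q q'| / lam ^ (8 * i)) :=
    mul_le_mul hAK hw (abs_nonneg _) (by linarith)
  set W := |wd q q'| / lam ^ (8 * i) with hW
  have hW0 : 0 ≤ W := (abs_nonneg _).trans hw
  rw [div_add_div _ _ hp0.ne' (by positivity), div_le_div_iff₀ hA0 (by positivity)]
  have h5 : ‖p‖ * ‖A p'‖ ≤ ‖p'‖ * ‖A p‖ + K * W := by linarith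
  have h6 : K * W * ‖p‖ ≤ K ^ 2 * W * ‖A p‖ := by
    calc K * W * ‖p‖ ≤ K * W * (K * ‖A p‖) :=
          mul_le_mul_of_nonneg_left hlow (by positivity)
      _ = K ^ 2 * W * ‖A p‖ := by ring
  have h7 : ‖p‖ ^ 2 * (‖p‖ * ‖A p'‖) ≤ ‖p‖ ^ 2 * (‖p'‖ * ‖A p‖ + K * W) :=
    mul_le_mul_of_nonneg_left h5 (by positivity)
  have h8 : ‖p‖ * (K * W * ‖p‖) ≤ ‖p‖ * (K ^ 2 * W * ‖A p‖) :=
    mul_le_mul_of_nonneg_left h6 hp0.le
  nlinarith [h7, h8]

theorem rat2 (D : Dat M R G H H' K K₂ lam s C) (X q q' : ℝ × ℝ) (hq : q ≠ 0) (j : ℕ) :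
    ‖Dn H j X q'‖ / ‖Dn H j X q‖ ≤ ‖q'‖ / ‖q‖ +
      ∑ i ∈ Finset.range j, K ^ 2 * (|wd q q'| / lam ^ (8 * i)) / ‖Dn H i X q‖ ^ 2 := by
  induction j with
  | zero =>
    rw [Dn_zero]
    simp
  | succ j ih =>
    rw [Finset.sum_range_succ]
    have := rat1 D X q q' hq j
    linarith

private theorem rat_sum {t : ℝ} (ht : 0 ≤ t) (ht1 : t ≤ 1) (a : ℝ) (ha : 0 ≤ a) (c : ℕ → ℝ)
    (hc : ∀ i, 0 ≤ c i) (j : ℕ) :
    (a + ∑ i ∈ Finset.range j, c i) ^ t ≤ a ^ t + ∑ i ∈ Finset.range j, c i ^ t := by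
  induction j with
  | zero => simp
  | succ j ih =>
    rw [Finset.sum_range_succ, Finset.sum_range_succ, ← add_assoc, ← add_assoc]
    have h0 : 0 ≤ a + ∑ i ∈ Finset.range j, c i :=
      add_nonneg ha (Finset.sum_nonneg fun i _ => hc i)
    have := Real.rpow_add_le_add_rpow h0 (hc j) ht ht1
    linarith

theorem rat3 (D : Dat M R G H H' K K₂ lam s C) (X q q' : ℝ × ℝ) (hq : q ≠ 0) (j : ℕ) :
    (‖Dn H j X q'‖ / ‖Dn H j X q‖) ^ (s / 2) ≤ (‖q'‖ / ‖q‖) ^ (s / 2) +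
      ∑ i ∈ Finset.range j, (K ^ 2 * |wd q q'|) ^ (s / 2) * (lam ^ (-(4 * s))) ^ i *
        ‖Dn H i X q‖ ^ (-s) := by
  have hs0 := D.s0
  have hs1 := D.s1
  have hl : 0 < lam := by linarith [D.lam1]
  have h1 := Real.rpow_le_rpow (by positivity) (rat2 D X q q' hq j) (by positivity : 0 ≤ s / 2)
  refine h1.trans ?_
  have h2 := rat_sum (t := s / 2) (by positivity) (by linarith) (‖q'‖ / ‖q‖) (by positivity)
    (fun i => K ^ 2 * (|wd q q'| / lam ^ (8 * i)) / ‖Dn H i X q‖ ^ 2)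
    (fun i => by positivity) j
  refine h2.trans (le_of_eq ?_)
  congr 1
  refine Finset.sum_congr rfl fun i _ => ?_
  have hp0 : 0 < ‖Dn H i X q‖ := norm_pos_iff.mpr (D.DH_ne i X hq)
  have e1 : K ^ 2 * (|wd q q'| / lam ^ (8 * i)) / ‖Dn H i X q‖ ^ 2 =
      (K ^ 2 * |wd q q'|) * (lam ^ (8 * i))⁻¹ * (‖Dn H i X q‖ ^ 2)⁻¹ := by
    ring
  rw [e1, Real.mul_rpow (by positivity) (by positivity),
    Real.mul_rpow (by positivity) (by positivity)]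
  congr 1
  · congr 1
    rw [← Real.rpow_natCast lam (8 * i), ← Real.rpow_neg hl.le, ← Real.rpow_mul hl.le,
      ← Real.rpow_natCast (lam ^ (-(4 * s))) i, ← Real.rpow_mul hl.le]
    congr 1
    push_cast
    ring
  · rw [← Real.rpow_natCast ‖Dn H i X q‖ 2, ← Real.rpow_neg hp0.le, ← Real.rpow_mul hp0.le]
    congr 1
    push_cast
    ring

private theorem rat_one (D : Dat M R G H H' K K₂ lam s C) (j : ℕ) (z q q' : ℝ × ℝ) (hq : q ≠ 0)
    (hq' : ‖q'‖ = 1) :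
    Sm M R H j (fun X => ENNReal.ofReal ((‖q‖ * (‖Dn H j X q'‖ / ‖Dn H j X q‖)) ^ (s / 2))) z ≤
      ENNReal.ofReal (1 + 2 * K ^ 2 * C / (1 - lam ^ (-(4 * s)))) := by
  have hs0 := D.s0
  have hs1 := D.s1
  have hK := D.K1
  have hC := D.C1
  obtain ⟨hg0, hg1⟩ := rat_g D
  set g := lam ^ (-(4 * s)) with hg
  have hq0 : 0 < ‖q‖ := norm_pos_iff.mpr hq
  have hK2 : 1 ≤ 2 * K ^ 2 := by nlinarith
  have hwd : |wd q q'| ≤ 2 * ‖q‖ := by
    unfold wd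
    have a1 : |q.1| ≤ ‖q‖ := norm_fst_le q
    have a2 : |q.2| ≤ ‖q‖ := norm_snd_le q
    have b1 : |q'.1| ≤ 1 := by rw [← hq']; exact norm_fst_le q'
    have b2 : |q'.2| ≤ 1 := by rw [← hq']; exact norm_snd_le q'
    calc |q.1 * q'.2 - q.2 * q'.1| ≤ |q.1 * q'.2| + |q.2 * q'.1| := abs_sub _ _
      _ = |q.1| * |q'.2| + |q.2| * |q'.1| := by rw [abs_mul, abs_mul]
      _ ≤ ‖q‖ * 1 + ‖q‖ * 1 :=
          add_le_add (mul_le_mul a1 b2 (abs_nonneg _) (norm_nonneg _))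
            (mul_le_mul a2 b1 (abs_nonneg _) (norm_nonneg _))
      _ = 2 * ‖q‖ := by ring
  have hpt : ∀ X : ℝ × ℝ, (‖q‖ * (‖Dn H j X q'‖ / ‖Dn H j X q‖)) ^ (s / 2) ≤
      1 + ∑ i ∈ Finset.range j, (2 * K ^ 2 * ‖q‖ ^ s * g ^ i) * ‖Dn H i X q‖ ^ (-s) := by
    intro X
    rw [Real.mul_rpow (by positivity) (by positivity)]
    have h1 := mul_le_mul_of_nonneg_left (rat3 D X q q' hq j)
      (by positivity : (0 : ℝ) ≤ ‖q‖ ^ (s / 2))
    refine h1.trans ?_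
    rw [mul_add, Finset.mul_sum]
    refine add_le_add ?_ (Finset.sum_le_sum fun i _ => ?_)
    · rw [hq', ← Real.mul_rpow (by positivity) (by positivity)]
      rw [mul_one_div_cancel hq0.ne', Real.one_rpow]
    · have e : ‖q‖ ^ (s / 2) * ((K ^ 2 * |wd q q'|) ^ (s / 2) * g ^ i * ‖Dn H i X q‖ ^ (-s)) =
          (‖q‖ * (K ^ 2 * |wd q q'|)) ^ (s / 2) * g ^ i * ‖Dn H i X q‖ ^ (-s) := by
        rw [Real.mul_rpow (x := ‖q‖) (y := K ^ 2 * |wd q q'|) (by positivity) (by positivity)]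
        ring
      rw [e]
      refine mul_le_mul_of_nonneg_right (mul_le_mul_of_nonneg_right ?_ (by positivity))
        (by positivity)
      have h2 : ‖q‖ * (K ^ 2 * |wd q q'|) ≤ (2 * K ^ 2) * ‖q‖ ^ 2 := by
        have := mul_le_mul_of_nonneg_left hwd (by positivity : 0 ≤ ‖q‖ * K ^ 2)
        nlinarith
      calc (‖q‖ * (K ^ 2 * |wd q q'|)) ^ (s / 2) ≤ ((2 * K ^ 2) * ‖q‖ ^ 2) ^ (s / 2) :=
            Real.rpow_le_rpow (by positivity) h2 (by positivity)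
        _ = (2 * K ^ 2) ^ (s / 2) * ‖q‖ ^ s := by
            rw [Real.mul_rpow (by positivity) (by positivity), ← Real.rpow_natCast ‖q‖ 2,
              ← Real.rpow_mul hq0.le]
            congr 2
            push_cast
            ring
        _ ≤ (2 * K ^ 2) ^ (1 : ℝ) * ‖q‖ ^ s :=
            mul_le_mul_of_nonneg_right
              (Real.rpow_le_rpow_of_exponent_le hK2 (by linarith)) (by positivity)
        _ = 2 * K ^ 2 * ‖q‖ ^ s := by rw [Real.rpow_one]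
  have hE : ∀ X : ℝ × ℝ, ENNReal.ofReal ((‖q‖ * (‖Dn H j X q'‖ / ‖Dn H j X q‖)) ^ (s / 2)) ≤
      1 + ∑ i ∈ Finset.range j, ENNReal.ofReal (2 * K ^ 2 * ‖q‖ ^ s * g ^ i) *
        ENNReal.ofReal (‖Dn H i X q‖ ^ (-s)) := by
    intro X
    refine (ENNReal.ofReal_le_ofReal (hpt X)).trans (le_of_eq ?_)
    rw [ENNReal.ofReal_add zero_le_one (Finset.sum_nonneg fun i _ => by positivity),
      ENNReal.ofReal_one, ENNReal.ofReal_sum_of_nonneg fun i _ => by positivity]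
    congr 1
    exact Finset.sum_congr rfl fun i _ => ENNReal.ofReal_mul (by positivity)
  calc Sm M R H j (fun X => ENNReal.ofReal
        ((‖q‖ * (‖Dn H j X q'‖ / ‖Dn H j X q‖)) ^ (s / 2))) z
      ≤ Sm M R H j (fun X => 1 + ∑ i ∈ Finset.range j,
          ENNReal.ofReal (2 * K ^ 2 * ‖q‖ ^ s * g ^ i) *
            ENNReal.ofReal (‖Dn H i X q‖ ^ (-s))) z := Sm_mono j fun k => hE _
    _ = 1 + ∑ i ∈ Finset.range j, ENNReal.ofReal (2 * K ^ 2 * ‖q‖ ^ s * g ^ i) *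
          Sm M R H j (fun X => ENNReal.ofReal (‖Dn H i X q‖ ^ (-s))) z := by
        rw [Sm_add_fun j (fun _ => 1), Sm_one D]
        congr 1
        rw [Sm_sum j (Finset.range j) (fun i X => ENNReal.ofReal (2 * K ^ 2 * ‖q‖ ^ s * g ^ i) *
            ENNReal.ofReal (‖Dn H i X q‖ ^ (-s)))]
        exact Finset.sum_congr rfl fun i _ => Sm_mul j _ _ z
    _ ≤ 1 + ∑ i ∈ Finset.range j, ENNReal.ofReal (2 * K ^ 2 * C * g ^ i) := by
        refine add_le_add le_rfl (Finset.sum_le_sum fun i hi => ?_)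
        rw [Sm_low D (Finset.mem_range.mp hi).le
          (Ψ := fun X => ENNReal.ofReal (‖Dn H i X q‖ ^ (-s)))
          (fun X k => by rw [D.perDH])]
        refine (mul_le_mul_right (Sm_mom D i z hq) _).trans (le_of_eq ?_)
        rw [← ENNReal.ofReal_mul (by positivity)]
        congr 1
        have : ‖q‖ ^ s * ‖q‖ ^ (-s) = 1 := by
          rw [← Real.rpow_add hq0, add_neg_cancel, Real.rpow_zero]
        calc 2 * K ^ 2 * ‖q‖ ^ s * g ^ i * (C * ‖q‖ ^ (-s))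
            = 2 * K ^ 2 * C * g ^ i * (‖q‖ ^ s * ‖q‖ ^ (-s)) := by ring
          _ = 2 * K ^ 2 * C * g ^ i := by rw [this, mul_one]
    _ = ENNReal.ofReal (1 + ∑ i ∈ Finset.range j, 2 * K ^ 2 * C * g ^ i) := by
        rw [ENNReal.ofReal_add zero_le_one (Finset.sum_nonneg fun i _ => by positivity),
          ENNReal.ofReal_one, ENNReal.ofReal_sum_of_nonneg fun i _ => by positivity]
    _ ≤ ENNReal.ofReal (1 + 2 * K ^ 2 * C / (1 - g)) := by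
        apply ENNReal.ofReal_le_ofReal
        rw [← Finset.mul_sum, div_eq_mul_inv]
        have h1 : ∑ i ∈ Finset.range j, g ^ i ≤ (1 - g)⁻¹ := by
          rw [← tsum_geometric_of_lt_one hg0.le hg1]
          exact (summable_geometric_of_lt_one hg0.le hg1).sum_le_tsum _
            fun i _ => by positivity
        have := mul_le_mul_of_nonneg_left h1 (by positivity : 0 ≤ 2 * K ^ 2 * C)
        linarith

theorem rat4 (D : Dat M R G H H' K K₂ lam s C) (j : ℕ) (z q : ℝ × ℝ) (hq : q ≠ 0) :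
    Sm M R H j (fun X => ENNReal.ofReal ((‖Dn H j X‖ * ‖q‖ / ‖Dn H j X q‖) ^ (s / 2))) z ≤
      ENNReal.ofReal (CR K lam s C) := by
  have hs0 := D.s0
  have hs1 := D.s1
  have hC := D.C1
  obtain ⟨hg0, hg1⟩ := rat_g D
  have hq0 : 0 < ‖q‖ := norm_pos_iff.mpr hq
  have n1 : ‖((1, 0) : ℝ × ℝ)‖ = 1 := by rw [Prod.norm_def]; simp
  have n2 : ‖((0, 1) : ℝ × ℝ)‖ = 1 := by rw [Prod.norm_def]; simp
  have hpt : ∀ X : ℝ × ℝ, ENNReal.ofReal ((‖Dn H j X‖ * ‖q‖ / ‖Dn H j X q‖) ^ (s / 2)) ≤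
      ENNReal.ofReal ((‖q‖ * (‖Dn H j X (1, 0)‖ / ‖Dn H j X q‖)) ^ (s / 2)) +
      ENNReal.ofReal ((‖q‖ * (‖Dn H j X (0, 1)‖ / ‖Dn H j X q‖)) ^ (s / 2)) := by
    intro X
    have hp0 : 0 < ‖Dn H j X q‖ := norm_pos_iff.mpr (D.DH_ne j X hq)
    rw [← ENNReal.ofReal_add (by positivity) (by positivity)]
    apply ENNReal.ofReal_le_ofReal
    have h1 : ‖Dn H j X‖ * ‖q‖ / ‖Dn H j X q‖ ≤
        ‖q‖ * (‖Dn H j X (1, 0)‖ / ‖Dn H j X q‖) + ‖q‖ * (‖Dn H j X (0, 1)‖ / ‖Dn H j X q‖) := by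
      have := mul_le_mul_of_nonneg_right (mat4 (Dn H j X)) (norm_nonneg q)
      have h2 := div_le_div_of_nonneg_right this hp0.le
      refine h2.trans (le_of_eq ?_)
      ring
    refine (Real.rpow_le_rpow (by positivity) h1 (by positivity)).trans ?_
    exact Real.rpow_add_le_add_rpow (by positivity) (by positivity) (by positivity) (by linarith)
  calc Sm M R H j (fun X => ENNReal.ofReal ((‖Dn H j X‖ * ‖q‖ / ‖Dn H j X q‖) ^ (s / 2))) z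
      ≤ Sm M R H j (fun X =>
          ENNReal.ofReal ((‖q‖ * (‖Dn H j X (1, 0)‖ / ‖Dn H j X q‖)) ^ (s / 2)) +
          ENNReal.ofReal ((‖q‖ * (‖Dn H j X (0, 1)‖ / ‖Dn H j X q‖)) ^ (s / 2))) z :=
        Sm_mono j fun k => hpt _
    _ = Sm M R H j (fun X =>
          ENNReal.ofReal ((‖q‖ * (‖Dn H j X (1, 0)‖ / ‖Dn H j X q‖)) ^ (s / 2))) z +
        Sm M R H j (fun X =>
          ENNReal.ofReal ((‖q‖ * (‖Dn H j X (0, 1)‖ / ‖Dn H j X q‖)) ^ (s / 2))) z :=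
        Sm_add_fun j _ _ z
    _ ≤ ENNReal.ofReal (1 + 2 * K ^ 2 * C / (1 - lam ^ (-(4 * s)))) +
        ENNReal.ofReal (1 + 2 * K ^ 2 * C / (1 - lam ^ (-(4 * s)))) :=
        add_le_add (rat_one D j z q _ hq n1) (rat_one D j z q _ hq n2)
    _ = ENNReal.ofReal (CR K lam s C) := by
        have hnn : 0 ≤ 1 + 2 * K ^ 2 * C / (1 - lam ^ (-(4 * s))) :=
          add_nonneg zero_le_one (div_nonneg (by positivity) (by linarith))
        rw [← ENNReal.ofReal_add hnn hnn]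
        congr 1
        unfold CR
        ring

end Pool.Agent.ERG
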