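import Pool.Agent.ERG.Cvv
import Pool.Agent.ERG.Crs
import Pool.Agent.ERG.Img

/-!
# Module Slc (size 4): the slice bound

(`cv0` ... `cv4`, `cvH`, `gd_large`, `norm_dir` are in Cvv.)

`slc1` (the points of the third kind). Let `X = {x ∈ closedBall x0 ρ | Pair, ¬ (x ∈ A ↔ z ∈ A), ¬ Ek k x, ¬ Ek k' z}`. By `int4` (measurability: Msr)
`∫⁻ x in closedBall, ofReal (wt (x + zc k)) * ind (x ∈ X) = volume {y | G^[n] y - zc k ∈ X}`. Claim: this set of `y` is contained in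
`{y | ∃ s ∈ S, ∃ σ, |σ| ≤ 2 r / ‖Vb k a (c s)‖ ∧ y = β s - σ • w}`, where `c s = cv G H n k' a' z s`, `β s = H^[n] (c s + zc k)`, `S = {s ∈ [-r, r] | Dis k k' (c s)}`, `w = wv a`. Let
`x = G^[n] y - zc k ∈ X`; `y = H^[n] (x + zc k)`. By `crs` for the curves `cv k a x` and `c` (`‖x - z‖ ≤ 2 ρ`, `16 · 2 ρ ≤ θ r`; `e = V/‖V‖`, `e' = V'/‖V'‖`, `θ ≤ |wd e e'|` by
`Pair`) there are `|t|, |s| ≤ r` with `x1 := cv k a x t = c s`. By `cvH`, `β s = H^[n] (x1 + zc k) = y + (t/‖V‖) w`, so `y = β s - σ w` with `σ = t/‖V‖`, `|σ| ≤ r/‖V‖ ≤ 2 r/‖Vb k a x1‖`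
(`cv3`). Finally `Dis k k' (c s)`: `|σ| ‖w‖ ≤ r/‖V‖ ≤ 2 r / (κ lam^(3n)) ≤ om`, so `|φ (H^[n] (x1 + zc k)) - φ (H^[n] (x + zc k))| ≤ 1/8`, the same for `k'` and `z` (the curve `c` through `z`,
`gd_large`), `|inR A x - φ (..x..)| < 1/4`, `|inR A z - φ (..z..)| < 1/4` and `|inR A x - inR A z| = 1`; so the difference at `x1` is at least `1 - 1/4 - 1/4 - 1/8 - 1/8 = 1/4`.
Then `img`: with `β' s = Dn H n (c s + zc k) (c' s)`, `‖c' s‖ ≤ 2` for `|s| ≤ r`, and `w = Dn H n (x1 + zc k) (Vb k a x1)` (`D.DHDG'`):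
`|wd (β' s) w| = wt H n (x1 + zc k) |wd (c' s) (Vb k a x1)| ≤ wt · 2 · 2 · ‖Vb k a x1‖` (`wd_map`, `abs_wd_le`), so `2 · (2 r/‖Vb‖) · |wd (β' s) w| ≤ 16 r wt H n (c s + zc k)`.

`slc`: if the branch `k'` is not good at `z` both the left side and the last term vanish. Otherwise for every `x`:
`ind (Pair ∧ ¬(..)) ≤ ind (Ek k x) + ind (Ek k' z) + ind (x ∈ X)`, multiply by the weight and integrate.
-/

set_option autoImplicit false

namespace Pool.Agent.ERG

open Pool.Agent.NUH MeasureTheory Filter Topology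
open scoped ENNReal ContDiff NNReal

variable {M : Mt} {R : Finset (ℤ × ℤ)} {G H : ℝ × ℝ → ℝ × ℝ}
  {H' : ℝ × ℝ → (ℝ × ℝ →L[ℝ] ℝ × ℝ)} {K K₂ lam s C κ θ r ρ : ℝ}

/-- measurability of the points of the third kind -/
private theorem slc_meas (D : Dat M R G H H' K K₂ lam s C) {A : Set (ℝ × ℝ)}
    (hA : MeasurableSet A) {φ : ℝ × ℝ → ℝ} (hφ : Continuous φ) (κ θ : ℝ) (n : ℕ) (k k' : ℤ × ℤ)
    (a a' : ℝ) (z : ℝ × ℝ) :
    MeasurableSet {x | Pair G H lam κ θ n k k' a a' x z ∧ ¬ (x ∈ A ↔ z ∈ A) ∧ ¬ Ek H A φ n k x ∧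
        ¬ Ek H A φ n k' z} := by
  have h1 : MeasurableSet {x | Pair G H lam κ θ n k k' a a' x z} := by
    have hc : Continuous (fun x : ℝ × ℝ => (((a, a'), (x, z)) : (ℝ × ℝ) × ((ℝ × ℝ) × (ℝ × ℝ)))) := by
      fun_prop
    exact ((D.closed_pair κ θ n k k').preimage hc).measurableSet
  have h2 : MeasurableSet {x | ¬ (x ∈ A ↔ z ∈ A)} := by
    by_cases hz : z ∈ A
    · have : {x | ¬ (x ∈ A ↔ z ∈ A)} = Aᶜ := by
        ext x
        simp only [Set.mem_ofPred_eq, Set.mem_compl_iff, hz, iff_true]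
      rw [this]
      exact hA.compl
    · have : {x | ¬ (x ∈ A ↔ z ∈ A)} = A := by
        ext x
        simp only [Set.mem_ofPred_eq, hz, iff_false, not_not]
      rw [this]
      exact hA
  have h3 : MeasurableSet {x | ¬ Ek H A φ n k x} := (D.meas_Ek hA hφ n k).compl
  have h4 : MeasurableSet {x : ℝ × ℝ | ¬ Ek H A φ n k' z} := MeasurableSet.const _
  exact h1.inter (h2.inter (h3.inter h4))

/-- the derivative of the curve is bounded by `2` -/
private theorem slc_d (D : Dat M R G H H' K K₂ lam s C) (P : Par G lam κ θ r ρ) (n : ℕ) (k : ℤ × ℤ)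
    {a : ℝ} (ha : a ∈ Set.Icc (0 : ℝ) 1) {x : ℝ × ℝ} (hg : Good G lam κ n a (H^[n] (x + zc k)))
    {t : ℝ} (ht : |t| ≤ r) :
    ‖‖Vb G H n k a x‖⁻¹ • Vv G n a (H^[n] (x + zc k) + (t / ‖Vb G H n k a x‖) • wv a)‖ ≤ 2 := by
  have h2 := cv2 D P n k ha hg ht
  have h3 := norm_dir D n k a x
  have h4 := norm_le_norm_add_norm_sub' (‖Vb G H n k a x‖⁻¹ •
    Vv G n a (H^[n] (x + zc k) + (t / ‖Vb G H n k a x‖) • wv a))
    (‖Vb G H n k a x‖⁻¹ • Vb G H n k a x)
  have := P.θ1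
  linarith

/-- the displacement along the curve is small -/
private theorem slc_om (D : Dat M R G H H' K K₂ lam s C) (P : Par G lam κ θ r ρ) {φ : ℝ × ℝ → ℝ}
    {om : ℝ} (hU : ∀ y y' : ℝ × ℝ, ‖y' - y‖ ≤ om → |φ y' - φ y| ≤ 1 / 8) (n : ℕ)
    (hn : 2 * r ≤ om * (κ * lam ^ (3 * n))) (k : ℤ × ℤ) {a : ℝ}
    (ha : a ∈ Set.Icc (0 : ℝ) 1) {x : ℝ × ℝ} (hg : Good G lam κ n a (H^[n] (x + zc k)))
    {t : ℝ} (ht : |t| ≤ r) :
    |φ (H^[n] (cv G H n k a x t + zc k)) - φ (H^[n] (x + zc k))| ≤ 1 / 8 := by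
  apply hU
  rw [cvH D, add_sub_cancel_left, norm_smul, norm_wv ha, mul_one, Real.norm_eq_abs]
  have hV : 0 < ‖Vb G H n k a x‖ := D.Vv_pos n a _
  have hκ := P.κ0
  have hl : 0 < κ * lam ^ (3 * n) := mul_pos hκ (pow_pos (by linarith [D.lam1]) _)
  have hr := P.r0
  have hom : 0 < om := by
    by_contra hc
    push Not at hc
    have : om * (κ * lam ^ (3 * n)) ≤ 0 := mul_nonpos_of_nonpos_of_nonneg hc hl.le
    linarith
  have h1 : κ * lam ^ (3 * n) ≤ 2 * ‖Vb G H n k a x‖ := gd_large D hκ n ha hg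
  have h2 : om * (κ * lam ^ (3 * n)) ≤ om * (2 * ‖Vb G H n k a x‖) :=
    mul_le_mul_of_nonneg_left h1 hom.le
  rw [abs_div, abs_of_pos hV, div_le_iff₀ hV]
  linarith

theorem slc1 (D : Dat M R G H H' K K₂ lam s C) (P : Par G lam κ θ r ρ) {A : Set (ℝ × ℝ)}
    (hA : MeasurableSet A) {φ : ℝ × ℝ → ℝ} (hφ : Continuous φ) {om : ℝ}
    (hU : ∀ y y' : ℝ × ℝ, ‖y' - y‖ ≤ om → |φ y' - φ y| ≤ 1 / 8) (n : ℕ)
    (hn : 2 * r ≤ om * (κ * lam ^ (3 * n))) (k k' : ℤ × ℤ) {a a' : ℝ}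
    (ha : a ∈ Set.Icc (0 : ℝ) 1) (ha' : a' ∈ Set.Icc (0 : ℝ) 1) (x0 z : ℝ × ℝ)
    (hz : z ∈ Metric.closedBall x0 ρ) (hgz : Good G lam κ n a' (H^[n] (z + zc k'))) :
    ∫⁻ x in Metric.closedBall x0 ρ, ENNReal.ofReal (wt H n (x + zc k)) *
      ind (Pair G H lam κ θ n k k' a a' x z ∧ ¬ (x ∈ A ↔ z ∈ A) ∧ ¬ Ek H A φ n k x ∧
        ¬ Ek H A φ n k' z) ≤
      ENNReal.ofReal (16 * r) * ∫⁻ t in Set.Icc (-r) r,
        ENNReal.ofReal (wt H n (cv G H n k' a' z t + zc k)) *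
          ind (Dis H φ n k k' (cv G H n k' a' z t)) := by
  have hmeas := slc_meas D hA hφ κ θ n k k' a a' z
  have hr := P.r0
  rw [int4 D n k Metric.isClosed_closedBall.measurableSet hmeas]
  set c : ℝ → ℝ × ℝ := fun t => cv G H n k' a' z t with hcdef
  set c' : ℝ → ℝ × ℝ := fun t => ‖Vb G H n k' a' z‖⁻¹ •
      Vv G n a' (H^[n] (z + zc k') + (t / ‖Vb G H n k' a' z‖) • wv a') with hc'def
  set β : ℝ → ℝ × ℝ := fun t => H^[n] (c t + zc k) with hβdef
  set β' : ℝ → ℝ × ℝ := fun t => Dn H n (c t + zc k) (c' t) with hβ'def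
  have hcc : Continuous c := (D.contcv n k' a').comp
    (by fun_prop : Continuous fun t : ℝ => ((z, t) : (ℝ × ℝ) × ℝ))
  have hcc' : Continuous c' := by
    have h1 : Continuous fun t : ℝ => ((a', H^[n] (z + zc k') +
        (t / ‖Vb G H n k' a' z‖) • wv a') : ℝ × (ℝ × ℝ)) := by fun_prop
    have h2 : Continuous fun t : ℝ => Vv G n a' (H^[n] (z + zc k') +
        (t / ‖Vb G H n k' a' z‖) • wv a') := (D.contVv n).comp h1
    exact h2.const_smul (‖Vb G H n k' a' z‖⁻¹)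
  have hcd : ∀ t, HasDerivAt c (c' t) t := fun t => cv1 D n k' a' z t
  have hβd : ∀ t, HasDerivAt β (β' t) t := by
    intro t
    have h1 : HasFDerivAt (H^[n]) (Dn H n (c t + zc k)) (c t + zc k) :=
      ((D.diffH.iterate n) (c t + zc k)).hasFDerivAt
    exact h1.comp_hasDerivAt t ((hcd t).add_const (zc k))
  have hβc : Continuous β' :=
    ((D.contDH n).comp (hcc.add continuous_const)).clm_apply hcc'
  have hDm : MeasurableSet {t : ℝ | Dis H φ n k k' (c t)} :=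
    ((D.closed_Dis hφ n k k').preimage hcc).measurableSet
  have hVb : Continuous fun t => ‖Vb G H n k a (c t)‖ :=
    ((D.contVb n k).comp (by fun_prop : Continuous fun t : ℝ => ((a, c t) : ℝ × (ℝ × ℝ)))).norm
  have hVp : ∀ x, 0 < ‖Vb G H n k a x‖ := fun x => D.Vv_pos n a _
  have hVp' : ∀ x, 0 < ‖Vb G H n k' a' x‖ := fun x => D.Vv_pos n a' _
  have himg := img hβd hβc (wv a) (S := {t : ℝ | Dis H φ n k k' (c t)} ∩ Set.Icc (-r) r)
    (hDm.inter measurableSet_Icc) (ρ := fun t => 2 * r / ‖Vb G H n k a (c t)‖)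
    (measurable_const.div hVb.measurable) (fun t => by have := hVp (c t); positivity)
  refine le_trans (measure_mono ?_) (le_trans himg ?_)
  · rintro y ⟨hyB, hyP, hyA, hyE, hyE'⟩
    set x : ℝ × ℝ := G^[n] y - zc k with hxdef
    have hxy : H^[n] (x + zc k) = y := by rw [hxdef, sub_add_cancel, D.HG]
    obtain ⟨hgx, -, hwd⟩ := hyP
    obtain ⟨t, u, ht, hu, htu⟩ := crs (c := fun t => cv G H n k a x t)
      (c' := fun t => ‖Vb G H n k a x‖⁻¹ •
        Vv G n a (H^[n] (x + zc k) + (t / ‖Vb G H n k a x‖) • wv a)) (d := c) (d' := c')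
      (e := ‖Vb G H n k a x‖⁻¹ • Vb G H n k a x) (e' := ‖Vb G H n k' a' z‖⁻¹ • Vb G H n k' a' z)
      hr P.θ0 (fun t _ => cv1 D n k a x t) (fun t _ => hcd t)
      (fun t ht => cv2 D P n k ha hgx ht) (fun t ht => cv2 D P n k' ha' hgz ht)
      (norm_dir D n k a x) (norm_dir D n k' a' z)
      (by
        rw [wd_smul_left, wd_smul_right, abs_mul, abs_mul, abs_of_pos (inv_pos.mpr (hVp x)),
          abs_of_pos (inv_pos.mpr (hVp' z))]
        have h1 := hVp x
        have h2 := hVp' z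
        rw [← mul_assoc, ← mul_inv, le_inv_mul_iff₀ (mul_pos h1 h2)]
        linarith [hwd])
      (by
        have h1 : cv G H n k a x 0 = x := cv0 D n k a x
        have h2 : c 0 = z := cv0 D n k' a' z
        have h3 : ‖x - z‖ ≤ 2 * ρ := by
          rw [← dist_eq_norm]
          have h4 := Metric.mem_closedBall.mp hyB
          have h5 := Metric.mem_closedBall.mp hz
          have h6 := dist_triangle_right x z x0
          linarith
        rw [h1, h2]
        linarith [P.ρ1])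
    have htu' : cv G H n k a x t = c u := htu
    have hb1 : β u = y + (t / ‖Vb G H n k a x‖) • wv a := by
      change H^[n] (c u + zc k) = _
      rw [← htu', cvH D, hxy]
    refine ⟨u, ⟨?_, abs_le.mp hu⟩, t / ‖Vb G H n k a x‖, ?_, ?_⟩
    · have e1 := slc_om D P hU n hn k ha hgx ht
      have e2 := slc_om D P hU n hn k' ha' hgz hu
      rw [htu'] at e1
      change |φ (H^[n] (c u + zc k')) - φ (H^[n] (z + zc k'))| ≤ 1 / 8 at e2
      have e3 : |inR A x - φ (H^[n] (x + zc k))| < 1 / 4 := not_le.mp hyE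
      have e4 : |inR A z - φ (H^[n] (z + zc k'))| < 1 / 4 := not_le.mp hyE'
      have e5 : |inR A x - inR A z| = 1 := by
        unfold inR
        by_cases hzA : z ∈ A
        · have hxA : x ∉ A := fun h => hyA ⟨fun _ => hzA, fun _ => h⟩
          rw [Set.indicator_of_mem hzA, Set.indicator_of_notMem hxA]
          norm_num
        · have hxA : x ∈ A := by
            by_contra h
            exact hyA ⟨fun h' => absurd h' h, fun h' => absurd h' hzA⟩
          rw [Set.indicator_of_mem hxA, Set.indicator_of_notMem hzA]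
          norm_num
      change 1 / 4 ≤ |φ (H^[n] (c u + zc k)) - φ (H^[n] (c u + zc k'))|
      rw [abs_le] at e1 e2
      rw [abs_lt] at e3 e4
      obtain ⟨e1a, e1b⟩ := e1
      obtain ⟨e2a, e2b⟩ := e2
      obtain ⟨e3a, e3b⟩ := e3
      obtain ⟨e4a, e4b⟩ := e4
      rcases (abs_eq (by norm_num : (0 : ℝ) ≤ 1)).mp e5 with h | h
      · rw [le_abs]
        left
        linarith
      · rw [le_abs]
        right
        linarith
    · have h1 := hVp x
      have h2 : ‖Vb G H n k a (c u)‖ ≤ 2 * ‖Vb G H n k a x‖ := by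
        rw [← htu']
        exact cv3 D P n k ha hgx ht
      have h3 := hVp (c u)
      change |t / ‖Vb G H n k a x‖| ≤ 2 * r / ‖Vb G H n k a (c u)‖
      rw [abs_div, abs_of_pos h1, div_le_div_iff₀ h1 h3]
      calc |t| * ‖Vb G H n k a (c u)‖ ≤ r * (2 * ‖Vb G H n k a x‖) :=
            mul_le_mul ht h2 h3.le hr.le
        _ = 2 * r * ‖Vb G H n k a x‖ := by ring
    · rw [hb1, add_sub_cancel_right]
  · have hpt : ∀ t ∈ {t : ℝ | Dis H φ n k k' (c t)} ∩ Set.Icc (-r) r,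
        ENNReal.ofReal (2 * (2 * r / ‖Vb G H n k a (c t)‖) * |wd (β' t) (wv a)|) ≤
          ENNReal.ofReal (16 * r) * ENNReal.ofReal (wt H n (c t + zc k)) := by
      rintro t ⟨-, ht⟩
      rw [← ENNReal.ofReal_mul (by linarith)]
      apply ENNReal.ofReal_le_ofReal
      have hV := hVp (c t)
      have h1 : Dn H n (c t + zc k) (Vb G H n k a (c t)) = wv a := D.DHDG' n (c t + zc k) (wv a)
      have h2 : wd (β' t) (wv a) = (Dn H n (c t + zc k)).det * wd (c' t) (Vb G H n k a (c t)) := by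
        rw [← wd_map, h1]
      have h3 : ‖c' t‖ ≤ 2 := slc_d D P n k' ha' hgz (abs_le.mpr ht)
      have h4 : |wd (c' t) (Vb G H n k a (c t))| ≤ 4 * ‖Vb G H n k a (c t)‖ := by
        refine (abs_wd_le _ _).trans ?_
        have : 2 * ‖c' t‖ ≤ 4 := by linarith
        exact mul_le_mul_of_nonneg_right this hV.le
      have h5 : |wd (β' t) (wv a)| ≤ wt H n (c t + zc k) * (4 * ‖Vb G H n k a (c t)‖) := by
        rw [h2, abs_mul]
        exact mul_le_mul_of_nonneg_left h4 (abs_nonneg _)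
      calc 2 * (2 * r / ‖Vb G H n k a (c t)‖) * |wd (β' t) (wv a)|
          ≤ 2 * (2 * r / ‖Vb G H n k a (c t)‖) *
            (wt H n (c t + zc k) * (4 * ‖Vb G H n k a (c t)‖)) :=
            mul_le_mul_of_nonneg_left h5 (by positivity)
        _ = 16 * r * wt H n (c t + zc k) := by field_simp; ring
    refine le_trans (setLIntegral_mono' (hDm.inter measurableSet_Icc) hpt) ?_
    rw [lintegral_const_mul' _ _ ENNReal.ofReal_ne_top, ← setLIntegral_indicator hDm]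
    refine mul_le_mul_right (lintegral_mono fun t => ?_) _
    by_cases h : Dis H φ n k k' (c t)
    · rw [Set.indicator_of_mem (show t ∈ {t : ℝ | Dis H φ n k k' (c t)} from h), ind_pos h, mul_one]
    · rw [Set.indicator_of_notMem (show t ∉ {t : ℝ | Dis H φ n k k' (c t)} from h)]
      exact zero_le

theorem slc (D : Dat M R G H H' K K₂ lam s C) (P : Par G lam κ θ r ρ) {A : Set (ℝ × ℝ)}
    (hA : MeasurableSet A) {φ : ℝ × ℝ → ℝ} (hφ : Continuous φ) {om : ℝ}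
    (hU : ∀ y y' : ℝ × ℝ, ‖y' - y‖ ≤ om → |φ y' - φ y| ≤ 1 / 8) (n : ℕ)
    (hn : 2 * r ≤ om * (κ * lam ^ (3 * n))) (k k' : ℤ × ℤ) {a a' : ℝ}
    (ha : a ∈ Set.Icc (0 : ℝ) 1) (ha' : a' ∈ Set.Icc (0 : ℝ) 1) (x0 z : ℝ × ℝ)
    (hz : z ∈ Metric.closedBall x0 ρ) :
    ∫⁻ x in Metric.closedBall x0 ρ, ENNReal.ofReal (wt H n (x + zc k)) *
      ind (Pair G H lam κ θ n k k' a a' x z ∧ ¬ (x ∈ A ↔ z ∈ A)) ≤
      (∫⁻ x in Metric.closedBall x0 ρ, ENNReal.ofReal (wt H n (x + zc k)) * ind (Ek H A φ n k x)) +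
      ind (Ek H A φ n k' z) * (∫⁻ x in Metric.closedBall x0 ρ, ENNReal.ofReal (wt H n (x + zc k))) +
      ind (Good G lam κ n a' (H^[n] (z + zc k'))) * (ENNReal.ofReal (16 * r) *
        ∫⁻ t in Set.Icc (-r) r, ENNReal.ofReal (wt H n (cv G H n k' a' z t + zc k)) *
          ind (Dis H φ n k k' (cv G H n k' a' z t))) := by
  by_cases hgz : Good G lam κ n a' (H^[n] (z + zc k'))
  · rw [ind_pos hgz, one_mul]
    have h1 := slc1 D P hA hφ hU n hn k k' ha ha' x0 z hz hgz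
    refine le_trans ?_ (add_le_add (le_refl _) h1)
    have hm1 : Measurable fun x : ℝ × ℝ => ENNReal.ofReal (wt H n (x + zc k)) *
        ind (Ek H A φ n k x) := (D.meas_wt n k).mul (measurable_ind (D.meas_Ek hA hφ n k))
    have hm2 : Measurable fun x : ℝ × ℝ => ind (Ek H A φ n k' z) *
        ENNReal.ofReal (wt H n (x + zc k)) := (D.meas_wt n k).const_mul _
    have hm3 : Measurable fun x : ℝ × ℝ => ENNReal.ofReal (wt H n (x + zc k)) *
        ind (Ek H A φ n k x) + ind (Ek H A φ n k' z) * ENNReal.ofReal (wt H n (x + zc k)) :=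
      hm1.add hm2
    rw [← lintegral_const_mul _ (D.meas_wt n k), ← lintegral_add_left hm1, ← lintegral_add_left hm3]
    refine lintegral_mono fun x => ?_
    change ENNReal.ofReal (wt H n (x + zc k)) *
      ind (Pair G H lam κ θ n k k' a a' x z ∧ ¬ (x ∈ A ↔ z ∈ A)) ≤
      ENNReal.ofReal (wt H n (x + zc k)) *
        ind (Ek H A φ n k x) + ind (Ek H A φ n k' z) * ENNReal.ofReal (wt H n (x + zc k)) +
      ENNReal.ofReal (wt H n (x + zc k)) * ind (Pair G H lam κ θ n k k' a a' x z ∧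
        ¬ (x ∈ A ↔ z ∈ A) ∧ ¬ Ek H A φ n k x ∧ ¬ Ek H A φ n k' z)
    rw [mul_comm (ind (Ek H A φ n k' z)), ← mul_add, ← mul_add]
    refine mul_le_mul_right ?_ _
    by_cases hp : Pair G H lam κ θ n k k' a a' x z ∧ ¬ (x ∈ A ↔ z ∈ A)
    · rw [ind_pos hp]
      by_cases e1 : Ek H A φ n k x
      · rw [ind_pos e1]
        exact le_add_right (le_add_right (le_refl _))
      · by_cases e2 : Ek H A φ n k' z
        · rw [ind_pos e2]
          exact le_add_right (le_add_left (le_refl _))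
        · rw [ind_pos (p := Pair G H lam κ θ n k k' a a' x z ∧
            ¬ (x ∈ A ↔ z ∈ A) ∧ ¬ Ek H A φ n k x ∧ ¬ Ek H A φ n k' z) ⟨hp.1, hp.2, e1, e2⟩]
          exact le_add_left (le_refl _)
    · rw [ind_neg hp]
      exact zero_le
  · have h0 : ∫⁻ x in Metric.closedBall x0 ρ, ENNReal.ofReal (wt H n (x + zc k)) *
        ind (Pair G H lam κ θ n k k' a a' x z ∧ ¬ (x ∈ A ↔ z ∈ A)) = 0 := by
      rw [← lintegral_zero (μ := volume.restrict (Metric.closedBall x0 ρ))]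
      refine lintegral_congr fun x => ?_
      rw [ind_neg (fun h => hgz h.1.2.1), mul_zero]
    rw [h0]
    exact zero_le

end Pool.Agent.ERG
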