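import Pool.Agent.ERG.Defs

/-!
# Module Tre (size 3): the transfer identity

This is `transfer` of NUH/Transfer.lean (read its proof) with `=` instead of `≤`, using in addition the uniqueness of the residues. In that proof the only
inequality is the pointwise one: `φ z * iQ z ≤ ∑ m ∈ R, ∑' k, φ z * iQ z * iQ (Φ (z + zc k) - zc m)`. Now
`Φ (z + zc k) - zc m = Φ z - zc (m - mv M k)`, so by `iQ_sub` the terms are `1` exactly when `m - mv M k = fl (Φ z)`, i.e. `fl (Φ z) = m + mv M (-k)`; such a pair
`(m, k)` exists (`res.ex`) and is unique (`uniq`, and injectivity of `mv M`: `mvL_inj` in NUH/Resid.lean). So the double sum is `φ z * iQ z`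
(`Finset.sum_eq_single`, `tsum_eq_single`).
-/

set_option autoImplicit false

namespace Pool.Agent.ERG

open Pool.Agent.NUH MeasureTheory Filter Topology
open scoped ENNReal ContDiff NNReal

theorem transfer_eq {M : Mt} {Φ H : ℝ × ℝ → ℝ × ℝ} {H' : ℝ × ℝ → (ℝ × ℝ →L[ℝ] ℝ × ℝ)}
    (L : Lift M Φ H H') (det0 : M.det ≠ 0) {R : Finset (ℤ × ℤ)} (hR : Res M R)
    (uniq : ∀ m ∈ R, ∀ m' ∈ R, ∀ j, m = m' + mv M j → m = m')
    {φ : ℝ × ℝ → ℝ≥0∞} (hφ : Measurable φ) (hper : ∀ z k, φ (z + zc k) = φ z) :
    ∫⁻ z in Q, φ z = ∫⁻ x in Q, ∑ m ∈ R, ENNReal.ofReal |(H' (x + zc m)).det| *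
      φ (H (x + zc m)) := by
  have hiQ := iQ_meas
  have hQ : ∀ g : ℝ × ℝ → ℝ≥0∞, ∫⁻ z in Q, g z = ∫⁻ z, g z * iQ z := by
    intro g
    rw [← lintegral_indicator Q_meas]
    congr 1
    funext z
    unfold iQ
    by_cases hz : z ∈ Q
    · rw [Set.indicator_of_mem hz, Set.indicator_of_mem hz]; simp
    · rw [Set.indicator_of_notMem hz, Set.indicator_of_notMem hz]; simp
  have hdet := L.det_meas
  have hcH := L.contH
  have hmeasΦ := L.contΦ.measurable
  rw [hQ, hQ]
  -- pointwise identity
  have h1 : ∀ z, φ z * iQ z = ∑ m ∈ R, ∑' k : ℤ × ℤ, φ z * iQ z * iQ (Φ (z + zc k) - zc m) := by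
    intro z
    obtain ⟨m, hm, j, hj⟩ := hR.ex (fl (Φ z))
    have e : ∀ m' k : ℤ × ℤ, Φ (z + zc k) - zc m' = Φ z - zc (m' - mv M k) := by
      intro m' k
      rw [L.per]
      have : zc (m' - mv M k) = zc m' - zc (mv M k) := by
        unfold zc; ext <;> simp
      rw [this]; abel
    have hmv : ∀ k : ℤ × ℤ, mv M (-k) = - mv M k := by
      intro k
      unfold mv; ext <;> simp <;> ring
    have hval : ∀ m' ∈ R, ∀ k : ℤ × ℤ,
        iQ (Φ (z + zc k) - zc m') = if m' = m ∧ k = -j then 1 else 0 := by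
      intro m' hm' k
      rw [e, iQ_sub]
      have hiff : (m' - mv M k = fl (Φ z)) ↔ (m' = m ∧ k = -j) := by
        constructor
        · intro h
          have hadd : mv M (j + k) = mv M j + mv M k := by
            have := (mvL M).map_add j k
            simpa only [mvL_apply] using this
          have h2 : m' = m + mv M (j + k) := by
            rw [hadd, ← add_assoc, ← hj, ← h]; abel
          have h3 := uniq m' hm' m hm (j + k) h2
          refine ⟨h3, ?_⟩
          have h4 : mvL M (j + k) = mvL M 0 := by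
            rw [mvL_apply, map_zero]
            rw [h3] at h2
            exact (left_eq_add.mp h2)
          have h5 := mvL_inj det0 h4
          exact eq_neg_of_add_eq_zero_right h5
        · rintro ⟨rfl, rfl⟩
          rw [hmv, hj]; abel
      by_cases h : m' = m ∧ k = -j
      · rw [if_pos h, if_pos (hiff.mpr h)]
      · rw [if_neg h, if_neg (fun h' => h (hiff.mp h'))]
    rw [Finset.sum_eq_single_of_mem m hm]
    · rw [tsum_eq_single (-j)]
      · rw [hval m hm, if_pos ⟨rfl, rfl⟩, mul_one]
      · intro k hk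
        rw [hval m hm, if_neg (fun h => hk h.2), mul_zero]
    · intro m' hm' hne
      rw [ENNReal.tsum_eq_zero]
      intro k
      rw [hval m' hm', if_neg (fun h => hne h.1), mul_zero]
  rw [lintegral_congr h1]
  have hm1 : ∀ (m k : ℤ × ℤ), Measurable fun z => φ z * iQ z * iQ (Φ (z + zc k) - zc m) := by
    intro m k
    exact (hφ.mul hiQ).mul (hiQ.comp ((hmeasΦ.comp (measurable_add_const _)).sub_const _))
  rw [lintegral_finsetSum _ fun m _ => Measurable.tsum fun k => hm1 m k]
  have h3 : ∀ m ∈ R, ∫⁻ z, ∑' k : ℤ × ℤ, φ z * iQ z * iQ (Φ (z + zc k) - zc m) =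
      ∫⁻ x, ENNReal.ofReal |(H' (x + zc m)).det| * φ (H (x + zc m)) * iQ x := by
    intro m _
    rw [lintegral_tsum fun k => (hm1 m k).aemeasurable]
    have h4 : ∀ k : ℤ × ℤ, ∫⁻ z, φ z * iQ z * iQ (Φ (z + zc k) - zc m) =
        ∫⁻ z, φ z * iQ (z - zc k) * iQ (Φ z - zc m) := by
      intro k
      rw [← lintegral_sub_right_eq_self (fun z => φ z * iQ z * iQ (Φ (z + zc k) - zc m)) (zc k)]
      congr 1
      funext z
      rw [sub_add_cancel]
      have : φ (z - zc k) = φ z := by
        have := hper (z - zc k) k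
        rw [sub_add_cancel] at this
        exact this.symm
      rw [this]
    simp_rw [h4]
    have hm2 : ∀ k : ℤ × ℤ, Measurable fun z => φ z * iQ (z - zc k) * iQ (Φ z - zc m) := fun k =>
      (hφ.mul (hiQ.comp (measurable_id.sub_const _))).mul (hiQ.comp (hmeasΦ.sub_const _))
    rw [← lintegral_tsum fun k => (hm2 k).aemeasurable]
    have h5 : ∀ z, ∑' k : ℤ × ℤ, φ z * iQ (z - zc k) * iQ (Φ z - zc m) =
        φ z * iQ (Φ z - zc m) := by
      intro z
      rw [ENNReal.tsum_mul_right, ENNReal.tsum_mul_left, tsum_iQ, mul_one]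
    simp_rw [h5]
    have h6 := lintegral_image_eq_lintegral_abs_det_fderiv_mul (volume : Measure (ℝ × ℝ))
      (s := Set.univ) (f := H) (f' := H') MeasurableSet.univ
      (fun x _ => (L.deriv x).hasFDerivWithinAt)
      (fun x _ y _ h => by rw [← L.right x, ← L.right y, h])
      (fun z => φ z * iQ (Φ z - zc m))
    have h7 : H '' Set.univ = Set.univ := by
      rw [Set.image_univ]
      exact Set.eq_univ_of_forall fun z => ⟨Φ z, L.left z⟩
    rw [h7, Measure.restrict_univ] at h6
    rw [h6]
    simp_rw [L.right]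
    rw [← lintegral_add_right_eq_self _ (zc m)]
    congr 1
    funext x
    rw [add_sub_cancel_right, mul_assoc]
  rw [Finset.sum_congr rfl h3, ← lintegral_finsetSum]
  · congr 1
    funext x
    rw [Finset.sum_mul]
  · intro m _
    have hd : Measurable fun x => ENNReal.ofReal |(H' (x + zc m)).det| :=
      ENNReal.measurable_ofReal.comp
        ((hdet.measurable.comp (measurable_add_const _)).abs)
    exact (hd.mul (hφ.comp (hcH.measurable.comp (measurable_add_const _)))).mul hiQ

end Pool.Agent.ERG
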