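import Pool.Agent.ERG.Defs

/-!
# Module Trl (size 3): the translation lemma

For fixed `y`, the substitution `s = τ N(y)`: `∫⁻ s in [-r, r], ψ (y + (s / N y) w) = N(y) ∫⁻ τ, 1(|τ| N(y) ≤ r) ψ (y + τ w)` (scaling of `volume` on `ℝ`, e.g.
`MeasureTheory.Measure.addHaar_smul`/`lintegral_comp_mul_left`-like lemmas, `Real.map_volume_mul_left`, or
`lintegral_image_eq_lintegral_abs_deriv_mul`). So, with `1_G` the indicator of `Gd`, by Tonelli and the translation `y = y' - τ w`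
(`lintegral_sub_right_eq_self` for fixed `τ`) the left side is
`∫⁻ y' ψ(y') ∫⁻ τ, 1_G(y' - τ w) 1(|τ| N(y' - τ w) ≤ r) N(y' - τ w)`. If the integrand is nonzero, then `y = y' - τ w ∈ Gd`, `|τ| N(y) ≤ r`, so `N(y) ≤ 2 N(y')` and
`N(y') ≤ 2 N(y)`, `|τ| N(y') ≤ 2 r`: the inner integral is at most `2 N(y') · volume {τ | |τ| ≤ 2 r / N(y')} = 2 N(y') · 4 r / N(y') = 8 r`.
-/

set_option autoImplicit false

namespace Pool.Agent.ERG

open Pool.Agent.NUH MeasureTheory Filter Topology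
open scoped ENNReal ContDiff NNReal

private lemma trl_scale {a : ℝ} (ha : 0 < a) {f : ℝ → ℝ≥0∞} (hf : Measurable f) :
    ∫⁻ s, f s = ENNReal.ofReal a * ∫⁻ τ, f (a * τ) := by
  have h1 : (volume : Measure ℝ) = ENNReal.ofReal |a| • Measure.map (a * ·) volume :=
    (Real.smul_map_volume_mul_left ha.ne').symm
  calc ∫⁻ s, f s = ∫⁻ s, f s ∂(ENNReal.ofReal |a| • Measure.map (a * ·) volume) := by
        rw [← h1]
    _ = ENNReal.ofReal |a| * ∫⁻ s, f s ∂(Measure.map (a * ·) volume) := by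
        rw [lintegral_smul_measure, smul_eq_mul]
    _ = ENNReal.ofReal a * ∫⁻ τ, f (a * τ) := by
        rw [lintegral_map hf (measurable_const_mul a), abs_of_pos ha]

private lemma trl_inner {n : ℝ} (hn : 0 < n) (w y : ℝ × ℝ) (r : ℝ)
    {ψ : ℝ × ℝ → ℝ≥0∞} (hψ : Measurable ψ) :
    ∫⁻ s in Set.Icc (-r) r, ψ (y + (s / n) • w) =
      ENNReal.ofReal n * ∫⁻ τ : ℝ, Set.indicator {τ : ℝ | |τ| * n ≤ r}
        (fun τ : ℝ => ψ (y + τ • w)) τ := by
  have hm : Measurable (fun s : ℝ => ψ (y + (s / n) • w)) := by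
    apply hψ.comp
    fun_prop
  rw [← lintegral_indicator measurableSet_Icc,
    trl_scale hn (hm.indicator measurableSet_Icc)]
  congr 1
  apply lintegral_congr
  intro τ
  have h1 : n * τ / n = τ := by field_simp
  have h2 : (n * τ ∈ Set.Icc (-r) r) ↔ (τ ∈ {τ : ℝ | |τ| * n ≤ r}) := by
    have h3 : |τ| * n = |n * τ| := by
      rw [abs_mul, abs_of_pos hn, mul_comm]
    simp only [Set.mem_Icc, Set.mem_ofPred_eq, h3, abs_le]
  by_cases hτ : τ ∈ {τ : ℝ | |τ| * n ≤ r}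
  · rw [Set.indicator_of_mem hτ, Set.indicator_of_mem (h2.2 hτ), h1]
  · rw [Set.indicator_of_notMem hτ, Set.indicator_of_notMem (fun h => hτ (h2.1 h))]

theorem trl {N : ℝ × ℝ → ℝ} (hN : Measurable N) (hN0 : ∀ y, 0 < N y) {Gd : Set (ℝ × ℝ)}
    (hG : MeasurableSet Gd) (w : ℝ × ℝ) {r : ℝ} (hr : 0 < r)
    (h : ∀ y ∈ Gd, ∀ τ : ℝ, |τ| * N y ≤ r → N y ≤ 2 * N (y + τ • w) ∧ N (y + τ • w) ≤ 2 * N y)
    {ψ : ℝ × ℝ → ℝ≥0∞} (hψ : Measurable ψ) :
    ∫⁻ y in Gd, ∫⁻ s in Set.Icc (-r) r, ψ (y + (s / N y) • w) ≤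
      ENNReal.ofReal (8 * r) * ∫⁻ y, ψ y := by
  -- the kernel
  set S : Set ((ℝ × ℝ) × ℝ) := {p | p.1 ∈ Gd ∧ |p.2| * N p.1 ≤ r} with hS
  have hSm : MeasurableSet S := by
    apply MeasurableSet.inter
    · exact measurable_fst hG
    · have hmm : Measurable (fun p : (ℝ × ℝ) × ℝ => |p.2| * N p.1) :=
        (measurable_snd.abs).mul (hN.comp measurable_fst)
      exact measurableSet_le hmm measurable_const
  set K : (ℝ × ℝ) × ℝ → ℝ≥0∞ :=
    S.indicator (fun p => ENNReal.ofReal (N p.1) * ψ (p.1 + p.2 • w)) with hK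
  have hKm : Measurable K := by
    apply Measurable.indicator _ hSm
    apply Measurable.mul
    · exact (hN.comp measurable_fst).ennreal_ofReal
    · apply hψ.comp
      fun_prop
  have e1 : ∫⁻ y in Gd, ∫⁻ s in Set.Icc (-r) r, ψ (y + (s / N y) • w) =
      ∫⁻ y, ∫⁻ τ : ℝ, K (y, τ) := by
    rw [← lintegral_indicator hG]
    apply lintegral_congr
    intro y
    by_cases hy : y ∈ Gd
    · rw [Set.indicator_of_mem hy, trl_inner (hN0 y) w y r hψ]
      rw [← lintegral_const_mul']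
      · apply lintegral_congr
        intro τ
        simp only [hK]
        by_cases hτ : |τ| * N y ≤ r
        · rw [Set.indicator_of_mem (show τ ∈ {τ : ℝ | |τ| * N y ≤ r} from hτ),
            Set.indicator_of_mem (show (y, τ) ∈ S from ⟨hy, hτ⟩)]
        · rw [Set.indicator_of_notMem (show τ ∉ {τ : ℝ | |τ| * N y ≤ r} from hτ),
            Set.indicator_of_notMem (show (y, τ) ∉ S from fun hh => hτ hh.2), mul_zero]
      · exact ENNReal.ofReal_ne_top
    · rw [Set.indicator_of_notMem hy]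
      symm
      have hz : ∀ τ : ℝ, K (y, τ) = 0 := by
        intro τ
        simp only [hK]
        exact Set.indicator_of_notMem (fun hh => hy hh.1) _
      simp only [hz, lintegral_zero]
  have e2 : ∫⁻ y, ∫⁻ τ : ℝ, K (y, τ) = ∫⁻ τ : ℝ, ∫⁻ y, K (y, τ) :=
    lintegral_lintegral_swap hKm.aemeasurable
  have e3 : ∀ τ : ℝ, ∫⁻ y, K (y, τ) = ∫⁻ y, K (y - τ • w, τ) := fun τ =>
    (lintegral_sub_right_eq_self (μ := (volume : Measure (ℝ × ℝ))) (fun y => K (y, τ)) (τ • w)).symm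
  have e4 : ∫⁻ τ : ℝ, ∫⁻ y, K (y - τ • w, τ) = ∫⁻ y, ∫⁻ τ : ℝ, K (y - τ • w, τ) := by
    apply lintegral_lintegral_swap
    apply Measurable.aemeasurable
    apply hKm.comp
    fun_prop
  have e5 : ∀ y : ℝ × ℝ, ∫⁻ τ : ℝ, K (y - τ • w, τ) ≤ ENNReal.ofReal (8 * r) * ψ y := by
    intro y
    have hb : ∀ τ : ℝ, K (y - τ • w, τ) ≤
        (Set.Icc (-(2 * r / N y)) (2 * r / N y)).indicator
          (fun _ => ENNReal.ofReal (2 * N y) * ψ y) τ := by
      intro τ
      simp only [hK]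
      by_cases hτ : (y - τ • w, τ) ∈ S
      · obtain ⟨h1, h2⟩ := hτ
        have h3 := h _ h1 τ h2
        simp only [sub_add_cancel] at h3
        rw [Set.indicator_of_mem (show (y - τ • w, τ) ∈ S from ⟨h1, h2⟩)]
        have h4 : |τ| ≤ 2 * r / N y := by
          rw [le_div_iff₀ (hN0 y)]
          have h5 : |τ| * N y ≤ |τ| * (2 * N (y - τ • w)) :=
            mul_le_mul_of_nonneg_left h3.2 (abs_nonneg τ)
          simp only at h2
          nlinarith
        rw [Set.indicator_of_mem (show τ ∈ Set.Icc (-(2 * r / N y)) (2 * r / N y) from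
          abs_le.1 h4)]
        simp only [sub_add_cancel]
        gcongr
        exact h3.1
      · rw [Set.indicator_of_notMem hτ]
        exact bot_le
    calc ∫⁻ τ : ℝ, K (y - τ • w, τ) ≤ ∫⁻ τ : ℝ,
        (Set.Icc (-(2 * r / N y)) (2 * r / N y)).indicator
          (fun _ => ENNReal.ofReal (2 * N y) * ψ y) τ := lintegral_mono hb
      _ = (ENNReal.ofReal (2 * N y) * ψ y) *
          volume (Set.Icc (-(2 * r / N y)) (2 * r / N y)) := by
          rw [lintegral_indicator_const measurableSet_Icc]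
      _ = ENNReal.ofReal (8 * r) * ψ y := by
          rw [Real.volume_Icc]
          have h6 : ENNReal.ofReal (8 * r) =
              ENNReal.ofReal (2 * N y) * ENNReal.ofReal (2 * r / N y - -(2 * r / N y)) := by
            rw [← ENNReal.ofReal_mul (by have := hN0 y; positivity)]
            congr 1
            have := (hN0 y).ne'
            field_simp
            ring
          rw [h6]
          ring
  calc ∫⁻ y in Gd, ∫⁻ s in Set.Icc (-r) r, ψ (y + (s / N y) • w)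
      = ∫⁻ τ : ℝ, ∫⁻ y, K (y, τ) := by rw [e1, e2]
    _ = ∫⁻ τ : ℝ, ∫⁻ y, K (y - τ • w, τ) := lintegral_congr e3
    _ = ∫⁻ y, ∫⁻ τ : ℝ, K (y - τ • w, τ) := e4
    _ ≤ ∫⁻ y, ENNReal.ofReal (8 * r) * ψ y := lintegral_mono e5
    _ = ENNReal.ofReal (8 * r) * ∫⁻ y, ψ y := lintegral_const_mul _ hψ

end Pool.Agent.ERG
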