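import Pool.Agent.ERG.Inta
import Pool.Agent.ERG.Intb

/-!
# Module Upa (size 3): the two simple terms of the upper bound

`upa2`: the sum is `∫⁻ x in B, Sm n (fun _ => 1) x = ∫⁻ x in B, 1 = volume B ≤ 1` (`lintegral_finsetSum`, `Sm_one`, `vol_ball`). `upa1`: `A` is invariant and periodic, so
`inR A x = inR A (H^[n] (x + zc k))` (`G^[n] y = x + zc k` for `y = H^[n] (x + zc k)`, `y ∈ A ↔ G^[n] y ∈ A`, induction over `n` from `G ⁻¹' A = A`: `upa0`). So with `ψ y = ofReal |inR A y - φ y|`: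
`ind (Ek k x) ≤ 4 * ψ (H^[n] (x + zc k))`, and the sum is at most `4 ∫⁻ x in B, Sm n (fun X => ψ (H^[n] X)) x ≤ 4 ∫⁻ x in Q, Sm n (..) x = 4 ∫⁻ y in Q, ψ y` by `int2`
(periodicity `Sm_perz`, measurability `meas_Sm`) and `int1`.
-/

set_option autoImplicit false

namespace Pool.Agent.ERG

open Pool.Agent.NUH MeasureTheory Filter Topology
open scoped ENNReal ContDiff NNReal

variable {M : Mt} {R : Finset (ℤ × ℤ)} {G H : ℝ × ℝ → ℝ × ℝ}
  {H' : ℝ × ℝ → (ℝ × ℝ →L[ℝ] ℝ × ℝ)} {K K₂ lam s C κ θ r ρ : ℝ}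

theorem upa0 (D : Dat M R G H H' K K₂ lam s C) {A : Set (ℝ × ℝ)}
    (hper : ∀ z k, z + zc k ∈ A ↔ z ∈ A) (hinv : G ⁻¹' A = A) (n : ℕ) (k : ℤ × ℤ) (x : ℝ × ℝ) :
    inR A (H^[n] (x + zc k)) = inR A x := by
  have h1 : ∀ (n : ℕ) (y : ℝ × ℝ), G^[n] y ∈ A ↔ y ∈ A := by
    intro n
    induction n with
    | zero => intro y; rfl
    | succ n ih =>
      intro y
      rw [Function.iterate_succ_apply, ih]
      exact Set.ext_iff.mp hinv y
  have h2 : H^[n] (x + zc k) ∈ A ↔ x ∈ A := by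
    rw [← h1 n (H^[n] (x + zc k)), D.GH, hper]
  unfold inR
  by_cases hx : x ∈ A
  · rw [Set.indicator_of_mem hx, Set.indicator_of_mem (h2.mpr hx)]
  · rw [Set.indicator_of_notMem hx, Set.indicator_of_notMem (fun h => hx (h2.mp h))]

private theorem upa_meas {A : Set (ℝ × ℝ)} (hA : MeasurableSet A) {φ : ℝ × ℝ → ℝ}
    (hφ : Continuous φ) : Measurable fun y => ENNReal.ofReal |inR A y - φ y| :=
  ENNReal.measurable_ofReal.comp
    (continuous_abs.measurable.comp ((meas_inR hA).sub hφ.measurable))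

private theorem upa_per {A : Set (ℝ × ℝ)} (hper : ∀ z k, z + zc k ∈ A ↔ z ∈ A) {φ : ℝ × ℝ → ℝ}
    (hφp : ∀ z k, φ (z + zc k) = φ z) (z : ℝ × ℝ) (k : ℤ × ℤ) :
    ENNReal.ofReal |inR A (z + zc k) - φ (z + zc k)| = ENNReal.ofReal |inR A z - φ z| := by
  have : inR A (z + zc k) = inR A z := by
    unfold inR
    by_cases hz : z ∈ A
    · rw [Set.indicator_of_mem hz, Set.indicator_of_mem ((hper z k).mpr hz)]
    · rw [Set.indicator_of_notMem hz, Set.indicator_of_notMem (fun h => hz ((hper z k).mp h))]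
  rw [this, hφp]

/-- the integral of the approximation error over a branch sum -/
theorem upa3 (D : Dat M R G H H' K K₂ lam s C) {A : Set (ℝ × ℝ)} (hA : MeasurableSet A)
    (hper : ∀ z k, z + zc k ∈ A ↔ z ∈ A) (hinv : G ⁻¹' A = A) {φ : ℝ × ℝ → ℝ}
    (hφ : Continuous φ) (hφp : ∀ z k, φ (z + zc k) = φ z) (n : ℕ) (x0 : ℝ × ℝ) {ρ' : ℝ}
    (hρ : 2 * ρ' < 1) :
    ∑ k ∈ Rn M R n, ∫⁻ x in Metric.closedBall x0 ρ', ENNReal.ofReal (wt H n (x + zc k)) *
      ENNReal.ofReal |inR A x - φ (H^[n] (x + zc k))| ≤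
      ∫⁻ y in Q, ENNReal.ofReal |inR A y - φ y| := by
  have hm := upa_meas hA hφ
  have hp := upa_per hper hφp
  have hmn : ∀ k : ℤ × ℤ, Measurable fun x : ℝ × ℝ => ENNReal.ofReal (wt H n (x + zc k)) *
      ENNReal.ofReal |inR A (H^[n] (x + zc k)) - φ (H^[n] (x + zc k))| := fun k =>
    (D.meas_wt n k).mul (hm.comp ((D.contHn n).measurable.comp (measurable_add_const _)))
  have e1 : ∑ k ∈ Rn M R n, ∫⁻ x in Metric.closedBall x0 ρ', ENNReal.ofReal (wt H n (x + zc k)) *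
      ENNReal.ofReal |inR A x - φ (H^[n] (x + zc k))| =
      ∫⁻ x in Metric.closedBall x0 ρ',
        Sm M R H n (fun X => ENNReal.ofReal |inR A (H^[n] X) - φ (H^[n] X)|) x := by
    unfold Sm
    rw [lintegral_finsetSum _ fun k _ => hmn k]
    refine Finset.sum_congr rfl fun k _ => ?_
    congr 1
    funext x
    rw [upa0 D hper hinv]
  rw [e1, ← int1 D n hm hp]
  exact int2 (meas_Sm D n hm)
    (Sm_perz D n (φ := fun y => ENNReal.ofReal |inR A y - φ y|) hp) x0 hρ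

theorem upa1 (D : Dat M R G H H' K K₂ lam s C) {A : Set (ℝ × ℝ)} (hA : MeasurableSet A)
    (hper : ∀ z k, z + zc k ∈ A ↔ z ∈ A) (hinv : G ⁻¹' A = A) {φ : ℝ × ℝ → ℝ}
    (hφ : Continuous φ) (hφp : ∀ z k, φ (z + zc k) = φ z) (n : ℕ) (x0 : ℝ × ℝ) {ρ' : ℝ}
    (hρ : 2 * ρ' < 1) :
    ∑ k ∈ Rn M R n, ∫⁻ x in Metric.closedBall x0 ρ', ENNReal.ofReal (wt H n (x + zc k)) *
      ind (Ek H A φ n k x) ≤ 4 * ∫⁻ y in Q, ENNReal.ofReal |inR A y - φ y| := by
  refine le_trans ?_ (mul_le_mul_right (upa3 D hA hper hinv hφ hφp n x0 hρ) 4)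
  rw [Finset.mul_sum]
  refine Finset.sum_le_sum fun k _ => ?_
  rw [← lintegral_const_mul' _ _ (by norm_num)]
  refine lintegral_mono fun x => ?_
  have h : ind (Ek H A φ n k x) ≤ 4 * ENNReal.ofReal |inR A x - φ (H^[n] (x + zc k))| := by
    by_cases hE : Ek H A φ n k x
    · rw [ind_pos hE]
      have h1 : (1 : ℝ) ≤ 4 * |inR A x - φ (H^[n] (x + zc k))| := by
        have h0 : (1 : ℝ) / 4 ≤ |inR A x - φ (H^[n] (x + zc k))| := hE
        linarith
      have h2 : (4 : ℝ≥0∞) = ENNReal.ofReal 4 := by norm_num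
      rw [h2, ← ENNReal.ofReal_mul (by norm_num)]
      exact ENNReal.one_le_ofReal.mpr h1
    · rw [ind_neg hE]
      exact zero_le
  calc ENNReal.ofReal (wt H n (x + zc k)) * ind (Ek H A φ n k x)
      ≤ ENNReal.ofReal (wt H n (x + zc k)) *
        (4 * ENNReal.ofReal |inR A x - φ (H^[n] (x + zc k))|) := mul_le_mul_right h _
    _ = 4 * (ENNReal.ofReal (wt H n (x + zc k)) *
        ENNReal.ofReal |inR A x - φ (H^[n] (x + zc k))|) := by ring

theorem upa2 (D : Dat M R G H H' K K₂ lam s C) (n : ℕ) (x0 : ℝ × ℝ) {ρ' : ℝ} (hρ : 2 * ρ' < 1) :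
    ∑ k ∈ Rn M R n, ∫⁻ x in Metric.closedBall x0 ρ', ENNReal.ofReal (wt H n (x + zc k)) ≤ 1 := by
  rw [← lintegral_finsetSum _ fun k _ => D.meas_wt n k]
  have h : ∀ x : ℝ × ℝ, ∑ k ∈ Rn M R n, ENNReal.ofReal (wt H n (x + zc k)) = 1 := by
    intro x
    rw [← Sm_one D n x]
    unfold Sm
    refine Finset.sum_congr rfl fun k _ => ?_
    rw [mul_one]
  simp_rw [h]
  rw [setLIntegral_const, one_mul]
  exact vol_ball x0 hρ

end Pool.Agent.ERG
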