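import Pool.Agent.ERG.Upc
import Pool.Agent.ERG.Slc

/-!
# Module Upb (size 3): the upper bound

For fixed `k, k', z ∈ B`: pull the factor `w_{k'}(z)` out of the integral over `x` and apply `slc`. The three terms, multiplied by `w_{k'}(z)`, integrated over `z ∈ B` and summed over `k, k'`:
first: `(∑_k ∫ w_k ind (Ek k)) (∑_{k'} ∫ w_{k'}) ≤ 4 E · 1` (`upa1`, `upa2`; `E` is the integral on the right); second: `(∑_k ∫ w_k)(∑_{k'} ∫ w_{k'} ind (Ek k')) ≤ 4 E`; third: `upc`, `16 E`. Total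
`24 E`. (`lintegral_add_left`/`_right` need the measurability of one term only; `lintegral_const_mul`; measurability in Msr.) `2 ρ < 1` from `P`.
-/

set_option autoImplicit false

namespace Pool.Agent.ERG

open Pool.Agent.NUH MeasureTheory Filter Topology
open scoped ENNReal ContDiff NNReal

variable {M : Mt} {R : Finset (ℤ × ℤ)} {G H : ℝ × ℝ → ℝ × ℝ}
  {H' : ℝ × ℝ → (ℝ × ℝ →L[ℝ] ℝ × ℝ)} {K K₂ lam s C κ θ r ρ : ℝ}

theorem upb (D : Dat M R G H H' K K₂ lam s C) (P : Par G lam κ θ r ρ) {A : Set (ℝ × ℝ)}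
    (hA : MeasurableSet A) (hper : ∀ z k, z + zc k ∈ A ↔ z ∈ A) (hinv : G ⁻¹' A = A)
    {φ : ℝ × ℝ → ℝ} (hφ : Continuous φ) (hφp : ∀ z k, φ (z + zc k) = φ z) {om : ℝ}
    (hU : ∀ y y' : ℝ × ℝ, ‖y' - y‖ ≤ om → |φ y' - φ y| ≤ 1 / 8) (n : ℕ)
    (hn : 2 * r ≤ om * (κ * lam ^ (3 * n))) {a a' : ℝ}
    (ha : a ∈ Set.Icc (0 : ℝ) 1) (ha' : a' ∈ Set.Icc (0 : ℝ) 1) (x0 : ℝ × ℝ) :
    ∑ k ∈ Rn M R n, ∑ k' ∈ Rn M R n, ∫⁻ z in Metric.closedBall x0 ρ,
      ∫⁻ x in Metric.closedBall x0 ρ, ENNReal.ofReal (wt H n (x + zc k)) *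
        (ENNReal.ofReal (wt H n (z + zc k')) *
          ind (Pair G H lam κ θ n k k' a a' x z ∧ ¬ (x ∈ A ↔ z ∈ A))) ≤
      24 * ∫⁻ y in Q, ENNReal.ofReal |inR A y - φ y| := by
  have hρ : 2 * ρ < 1 := by
    have h1 := P.ρ1
    have h2 : θ * r ≤ 1 * (1 / 8) := mul_le_mul P.θ1 P.r1 P.r0.le (by norm_num)
    linarith
  set B : Set (ℝ × ℝ) := Metric.closedBall x0 ρ with hB
  set E : ℝ≥0∞ := ∫⁻ y in Q, ENNReal.ofReal |inR A y - φ y| with hE
  set I : ℤ × ℤ → ℝ≥0∞ := fun k => ∫⁻ x in B, ENNReal.ofReal (wt H n (x + zc k)) *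
    ind (Ek H A φ n k x) with hI
  set J : ℤ × ℤ → ℝ≥0∞ := fun k => ∫⁻ x in B, ENNReal.ofReal (wt H n (x + zc k)) with hJ
  set T : ℤ × ℤ → ℤ × ℤ → ℝ≥0∞ := fun k k' => ∫⁻ z in B,
      ENNReal.ofReal (wt H n (z + zc k')) * (ind (Good G lam κ n a' (H^[n] (z + zc k'))) *
        (ENNReal.ofReal (16 * r) * ∫⁻ t in Set.Icc (-r) r,
          ENNReal.ofReal (wt H n (cv G H n k' a' z t + zc k)) *
            ind (Dis H φ n k k' (cv G H n k' a' z t)))) with hT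
  have hIs : ∑ k ∈ Rn M R n, I k ≤ 4 * E := upa1 D hA hper hinv hφ hφp n x0 hρ
  have hJs : ∑ k ∈ Rn M R n, J k ≤ 1 := upa2 D n x0 hρ
  have hTs : ∑ k ∈ Rn M R n, ∑ k' ∈ Rn M R n, T k k' ≤ 16 * E :=
    upc D P hA hper hinv hφ hφp n ha' x0
  have key : ∀ k k' : ℤ × ℤ, (∫⁻ z in B, ∫⁻ x in B, ENNReal.ofReal (wt H n (x + zc k)) *
        (ENNReal.ofReal (wt H n (z + zc k')) *
          ind (Pair G H lam κ θ n k k' a a' x z ∧ ¬ (x ∈ A ↔ z ∈ A)))) ≤
      I k * J k' + J k * I k' + T k k' := by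
    intro k k'
    have hmw := D.meas_wt n k'
    have hmE : Measurable fun z : ℝ × ℝ => ind (Ek H A φ n k' z) :=
      measurable_ind (D.meas_Ek hA hφ n k')
    have hin : ∀ z ∈ B, (∫⁻ x in B, ENNReal.ofReal (wt H n (x + zc k)) *
        (ENNReal.ofReal (wt H n (z + zc k')) *
          ind (Pair G H lam κ θ n k k' a a' x z ∧ ¬ (x ∈ A ↔ z ∈ A)))) ≤
        ENNReal.ofReal (wt H n (z + zc k')) * I k +
        (ENNReal.ofReal (wt H n (z + zc k')) * ind (Ek H A φ n k' z) * J k +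
        ENNReal.ofReal (wt H n (z + zc k')) * (ind (Good G lam κ n a' (H^[n] (z + zc k'))) *
        (ENNReal.ofReal (16 * r) * ∫⁻ t in Set.Icc (-r) r,
          ENNReal.ofReal (wt H n (cv G H n k' a' z t + zc k)) *
            ind (Dis H φ n k k' (cv G H n k' a' z t))))) := by
      intro z hz
      have e1 : (∫⁻ x in B, ENNReal.ofReal (wt H n (x + zc k)) *
          (ENNReal.ofReal (wt H n (z + zc k')) *
            ind (Pair G H lam κ θ n k k' a a' x z ∧ ¬ (x ∈ A ↔ z ∈ A)))) =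
          ENNReal.ofReal (wt H n (z + zc k')) * ∫⁻ x in B, ENNReal.ofReal (wt H n (x + zc k)) *
            ind (Pair G H lam κ θ n k k' a a' x z ∧ ¬ (x ∈ A ↔ z ∈ A)) := by
        rw [← lintegral_const_mul' _ _ ENNReal.ofReal_ne_top]
        refine lintegral_congr fun x => ?_
        ring
      rw [e1]
      have e2 := slc D P hA hφ hU n hn k k' ha ha' x0 z hz
      refine (mul_le_mul_right e2 (ENNReal.ofReal (wt H n (z + zc k')))).trans (le_of_eq ?_)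
      simp only [hI, hJ, hB]
      ring
    refine (setLIntegral_mono' Metric.isClosed_closedBall.measurableSet hin).trans (le_of_eq ?_)
    have hm2 : Measurable fun z : ℝ × ℝ => ENNReal.ofReal (wt H n (z + zc k')) *
        ind (Ek H A φ n k' z) := hmw.mul hmE
    have hm3 : Measurable fun z : ℝ × ℝ => ENNReal.ofReal (wt H n (z + zc k')) *
        ind (Ek H A φ n k' z) * J k := hm2.mul_const _
    rw [lintegral_add_left (hmw.mul_const _), lintegral_add_left hm3,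
      lintegral_mul_const _ hmw, lintegral_mul_const _ hm2]
    simp only [hI, hJ, hT, hB]
    ring
  calc ∑ k ∈ Rn M R n, ∑ k' ∈ Rn M R n, ∫⁻ z in B,
      ∫⁻ x in B, ENNReal.ofReal (wt H n (x + zc k)) *
        (ENNReal.ofReal (wt H n (z + zc k')) *
          ind (Pair G H lam κ θ n k k' a a' x z ∧ ¬ (x ∈ A ↔ z ∈ A)))
      ≤ ∑ k ∈ Rn M R n, ∑ k' ∈ Rn M R n, (I k * J k' + J k * I k' + T k k') :=
        Finset.sum_le_sum fun k _ => Finset.sum_le_sum fun k' _ => key k k'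
    _ = (∑ k ∈ Rn M R n, I k) * (∑ k' ∈ Rn M R n, J k') +
        (∑ k ∈ Rn M R n, J k) * (∑ k' ∈ Rn M R n, I k') +
        ∑ k ∈ Rn M R n, ∑ k' ∈ Rn M R n, T k k' := by
        simp only [Finset.sum_add_distrib, Finset.sum_mul_sum]
    _ ≤ (4 * E) * 1 + 1 * (4 * E) + 16 * E := by
        gcongr
    _ = 24 * E := by
        rw [mul_one, one_mul, ← add_mul, ← add_mul]
        norm_num

end Pool.Agent.ERG
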