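import Pool.Agent.ERG.Upa
import Pool.Agent.ERG.Trl
import Pool.Agent.ERG.Cvv

/-!
# Module Upc (size 4): the disagreement term of the upper bound

`upc1` (fixed `k, k', a'`; `w = wv a'`, `N y = ‖Vv G n a' y‖`, `B = closedBall x0 ρ`, `B' = closedBall x0 (ρ + 2 r)`). Let `F x = ofReal (wt H n (x + zc k)) * ind (Dis k k' x)` and
`ψ y = ind (G^[n] y - zc k' ∈ B') * F (G^[n] y - zc k')` (measurable). For `z ∈ B` good and `|t| ≤ r`, with `y = H^[n] (z + zc k')`: `cv .. z t = G^[n] (y + (t/N y) w) - zc k' ∈ B'` (`cv4`), so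
`F (cv .. z t) = ψ (y + (t / N y) w)`. Hence by `int3` (with `φ y = ind (Good y) ∫⁻ t in [-r, r], ψ (y + (t / N y) w)`, the integral over `{y | G^[n] y - zc k' ∈ B}` is at most the integral over
the plane), and `trl` with `Gd = {y | Good G lam κ n a' y}` (hypothesis from `P.geo`: `‖V(y + τ w) - V(y)‖ ≤ θ/16 ‖V(y)‖`):
`∫⁻ z in B, w_{k'}(z) ind (Good) ∫⁻ t, F (cv z t) ≤ ∫⁻ y in Gd, ∫⁻ t in [-r,r], ψ (y + (t/N y) w) ≤ 8 r ∫⁻ y, ψ y`, and by `int3` again
`∫⁻ y, ψ y = ∫⁻ y in {y | G^[n] y - zc k' ∈ B'}, F (G^[n] y - zc k') = ∫⁻ x in B', ofReal (wt H n (x + zc k')) * F x` (`D.GH`).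
`upc2`: `ind (Dis k k' x) ≤ 4 |φ_k - φ_{k'}| ≤ 4 (|inR A x - φ_k| + |inR A x - φ_{k'}|)`, `φ_k = φ (H^[n] (x + zc k))`. Sum over `k, k'` with the weights (`∑ weights = 1`, `Sm_one`):
`∑∑ w_k w_{k'} ind (Dis) ≤ 8 ∑_k w_k |inR A x - φ_k|`, and `upa3` with `ρ' = ρ + 2 r` (`2 ρ' < 1` because `r ≤ 1/8`, `ρ ≤ 1/256`).
`upc`: `16 r · 8 r · 8 ≤ 16` as `r ≤ 1/8`.
-/

set_option autoImplicit false

namespace Pool.Agent.ERG

open Pool.Agent.NUH MeasureTheory Filter Topology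
open scoped ENNReal ContDiff NNReal

variable {M : Mt} {R : Finset (ℤ × ℤ)} {G H : ℝ × ℝ → ℝ × ℝ}
  {H' : ℝ × ℝ → (ℝ × ℝ →L[ℝ] ℝ × ℝ)} {K K₂ lam s C κ θ r ρ : ℝ}

private theorem meas_good (D : Dat M R G H H' K K₂ lam s C) (κ : ℝ) (n : ℕ) (a : ℝ) :
    MeasurableSet {y : ℝ × ℝ | Good G lam κ n a y} := by
  have h : Continuous fun y : ℝ × ℝ => ((a, y) : ℝ × (ℝ × ℝ)) := by fun_prop
  exact ((D.closed_good κ n).preimage h).measurableSet

private theorem meas_F (D : Dat M R G H H' K K₂ lam s C) {φ : ℝ × ℝ → ℝ} (hφ : Continuous φ)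
    (n : ℕ) (k k' : ℤ × ℤ) :
    Measurable fun x : ℝ × ℝ => ENNReal.ofReal (wt H n (x + zc k)) * ind (Dis H φ n k k' x) :=
  (D.meas_wt n k).mul (measurable_ind (D.closed_Dis hφ n k k').measurableSet)

theorem upc1 (D : Dat M R G H H' K K₂ lam s C) (P : Par G lam κ θ r ρ) {φ : ℝ × ℝ → ℝ}
    (hφ : Continuous φ) (n : ℕ) (k k' : ℤ × ℤ) {a' : ℝ} (ha' : a' ∈ Set.Icc (0 : ℝ) 1)
    (x0 : ℝ × ℝ) :
    ∫⁻ z in Metric.closedBall x0 ρ, ENNReal.ofReal (wt H n (z + zc k')) *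
      (ind (Good G lam κ n a' (H^[n] (z + zc k'))) *
        ∫⁻ t in Set.Icc (-r) r, ENNReal.ofReal (wt H n (cv G H n k' a' z t + zc k)) *
          ind (Dis H φ n k k' (cv G H n k' a' z t))) ≤
      ENNReal.ofReal (8 * r) * ∫⁻ x in Metric.closedBall x0 (ρ + 2 * r),
        ENNReal.ofReal (wt H n (x + zc k')) *
          (ENNReal.ofReal (wt H n (x + zc k)) * ind (Dis H φ n k k' x)) := by
  classical
  obtain ⟨F, hFdef⟩ : ∃ F : ℝ × ℝ → ℝ≥0∞, F = fun x =>
      ENNReal.ofReal (wt H n (x + zc k)) * ind (Dis H φ n k k' x) := ⟨_, rfl⟩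
  have hFm : Measurable F := by rw [hFdef]; exact meas_F D hφ n k k'
  have hFx : ∀ x, ENNReal.ofReal (wt H n (x + zc k)) * ind (Dis H φ n k k' x) = F x := by
    intro x; rw [hFdef]
  simp only [hFx]
  set B : Set (ℝ × ℝ) := Metric.closedBall x0 ρ with hB
  set B' : Set (ℝ × ℝ) := Metric.closedBall x0 (ρ + 2 * r) with hB'
  have hBm : MeasurableSet B := Metric.isClosed_closedBall.measurableSet
  have hBm' : MeasurableSet B' := Metric.isClosed_closedBall.measurableSet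
  have hcG : Measurable fun y : ℝ × ℝ => G^[n] y - zc k' :=
    ((D.contGn n).sub continuous_const).measurable
  obtain ⟨ψ, hψdef⟩ : ∃ ψ : ℝ × ℝ → ℝ≥0∞, ψ = fun y =>
      ind (G^[n] y - zc k' ∈ B') * F (G^[n] y - zc k') := ⟨_, rfl⟩
  have hψm : Measurable ψ := by
    rw [hψdef]
    exact (measurable_ind (hcG hBm')).mul (hFm.comp hcG)
  obtain ⟨N, hNdef⟩ : ∃ N : ℝ × ℝ → ℝ, N = fun y => ‖Vv G n a' y‖ := ⟨_, rfl⟩
  have hNc : Continuous N := by
    rw [hNdef]
    have h1 : Continuous fun y : ℝ × ℝ => ((a', y) : ℝ × (ℝ × ℝ)) := by fun_prop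
    exact ((D.contVv n).comp h1).norm
  have hNx : ∀ y, N y = ‖Vv G n a' y‖ := by intro y; rw [hNdef]
  have hN0 : ∀ y, 0 < N y := by intro y; rw [hNx]; exact D.Vv_pos n a' y
  have hGm : MeasurableSet {y : ℝ × ℝ | Good G lam κ n a' y} := meas_good D κ n a'
  obtain ⟨φ0, hφ0⟩ : ∃ φ0 : ℝ × ℝ → ℝ≥0∞, φ0 = fun y =>
      ind (Good G lam κ n a' y) * ∫⁻ t in Set.Icc (-r) r, ψ (y + (t / N y) • wv a') := ⟨_, rfl⟩
  have hθ := P.θ1
  have hθ0 := P.θ0
  have hr0 := P.r0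
  -- step 1
  have h1 : ∀ z ∈ B, ENNReal.ofReal (wt H n (z + zc k')) *
      (ind (Good G lam κ n a' (H^[n] (z + zc k'))) *
        ∫⁻ t in Set.Icc (-r) r, F (cv G H n k' a' z t)) ≤
      ENNReal.ofReal (wt H n (z + zc k')) * φ0 (H^[n] (z + zc k')) := by
    intro z hz
    refine mul_le_mul_right ?_ _
    rw [hφ0]
    simp only []
    by_cases hg : Good G lam κ n a' (H^[n] (z + zc k'))
    · refine mul_le_mul_right ?_ _
      refine setLIntegral_mono' measurableSet_Icc fun t ht => ?_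
      have hcv : G^[n] (H^[n] (z + zc k') + (t / N (H^[n] (z + zc k'))) • wv a') - zc k' =
          cv G H n k' a' z t := by
        rw [hNx]; rfl
      rw [hψdef]
      simp only []
      rw [hcv]
      have hin : cv G H n k' a' z t ∈ B' := by
        have h4 := cv4 D P n k' ha' hg (abs_le.2 ⟨ht.1, ht.2⟩)
        rw [hB', Metric.mem_closedBall]
        rw [hB, Metric.mem_closedBall] at hz
        calc dist (cv G H n k' a' z t) x0 ≤ dist (cv G H n k' a' z t) z + dist z x0 :=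
              dist_triangle _ _ _
          _ ≤ 2 * r + ρ := by rw [dist_eq_norm]; exact add_le_add h4 hz
          _ = ρ + 2 * r := by ring
      rw [ind_pos hin, one_mul]
    · rw [ind_neg hg, zero_mul, zero_mul]
  -- step 2
  have h2 : ∫⁻ y, φ0 y = ∫⁻ y in {y : ℝ × ℝ | Good G lam κ n a' y},
      ∫⁻ t in Set.Icc (-r) r, ψ (y + (t / N y) • wv a') := by
    rw [← lintegral_indicator hGm]
    refine lintegral_congr fun y => ?_
    rw [hφ0]
    simp only []
    by_cases hg : Good G lam κ n a' y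
    · rw [ind_pos hg, one_mul, Set.indicator_of_mem (show y ∈ {y | Good G lam κ n a' y} from hg)]
    · rw [ind_neg hg, zero_mul,
        Set.indicator_of_notMem (show y ∉ {y | Good G lam κ n a' y} from hg)]
  have h3 : ∫⁻ y in {y : ℝ × ℝ | Good G lam κ n a' y},
      ∫⁻ t in Set.Icc (-r) r, ψ (y + (t / N y) • wv a') ≤ ENNReal.ofReal (8 * r) * ∫⁻ y, ψ y := by
    refine trl hNc.measurable hN0 hGm (wv a') hr0 ?_ hψm
    intro y hy τ hτ
    have hg := P.geo n a' y ha' hy τ (by rw [hNx] at hτ; exact hτ)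
    rw [hNx, hNx]
    have hp := D.Vv_pos n a' y
    have hθN : θ / 16 * ‖Vv G n a' y‖ ≤ 1 / 16 * ‖Vv G n a' y‖ := by
      refine mul_le_mul_of_nonneg_right ?_ hp.le
      linarith
    have ha := norm_sub_norm_le (Vv G n a' y) (Vv G n a' (y + τ • wv a'))
    have hb := norm_sub_norm_le (Vv G n a' (y + τ • wv a')) (Vv G n a' y)
    rw [norm_sub_rev] at ha
    constructor <;> linarith
  -- step 3
  have h4 : ∫⁻ y, ψ y = ∫⁻ x in B', ENNReal.ofReal (wt H n (x + zc k')) * F x := by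
    have h5 : ∫⁻ y, ψ y = ∫⁻ y in {y : ℝ × ℝ | G^[n] y - zc k' ∈ B'}, F (G^[n] y - zc k') := by
      have hS : MeasurableSet {y : ℝ × ℝ | G^[n] y - zc k' ∈ B'} := hcG hBm'
      rw [← lintegral_indicator hS]
      refine lintegral_congr fun y => ?_
      rw [hψdef]
      simp only []
      by_cases hg : G^[n] y - zc k' ∈ B'
      · rw [ind_pos hg, one_mul,
          Set.indicator_of_mem (show y ∈ {y : ℝ × ℝ | G^[n] y - zc k' ∈ B'} from hg)]
      · rw [ind_neg hg, zero_mul,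
          Set.indicator_of_notMem (show y ∉ {y : ℝ × ℝ | G^[n] y - zc k' ∈ B'} from hg)]
    have h6 := int3 D n k' hBm' (fun y => F (G^[n] y - zc k'))
    rw [h5]
    refine h6.symm.trans ?_
    refine lintegral_congr fun x => ?_
    rw [D.GH n (x + zc k'), add_sub_cancel_right]
  calc _ ≤ ∫⁻ z in B, ENNReal.ofReal (wt H n (z + zc k')) * φ0 (H^[n] (z + zc k')) :=
        setLIntegral_mono' hBm h1
    _ = ∫⁻ y in {y : ℝ × ℝ | G^[n] y - zc k' ∈ B}, φ0 y := int3 D n k' hBm φ0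
    _ ≤ ∫⁻ y, φ0 y := setLIntegral_le_lintegral _ _
    _ ≤ ENNReal.ofReal (8 * r) * ∫⁻ y, ψ y := by rw [h2]; exact h3
    _ = _ := by rw [h4]

private theorem ind_dis_le {A : Set (ℝ × ℝ)} {φ : ℝ × ℝ → ℝ} (n : ℕ) (k k' : ℤ × ℤ)
    (x : ℝ × ℝ) :
    ind (Dis H φ n k k' x) ≤ 4 * ENNReal.ofReal |inR A x - φ (H^[n] (x + zc k))| +
      4 * ENNReal.ofReal |inR A x - φ (H^[n] (x + zc k'))| := by
  by_cases h : Dis H φ n k k' x
  · rw [ind_pos h]
    have h4 : (4 : ℝ≥0∞) = ENNReal.ofReal 4 := by norm_num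
    rw [h4, ← ENNReal.ofReal_mul (by norm_num), ← ENNReal.ofReal_mul (by norm_num),
      ← ENNReal.ofReal_add (by positivity) (by positivity), ← ENNReal.ofReal_one]
    refine ENNReal.ofReal_le_ofReal ?_
    unfold Dis at h
    have h5 : |φ (H^[n] (x + zc k)) - φ (H^[n] (x + zc k'))| ≤
        |inR A x - φ (H^[n] (x + zc k))| + |inR A x - φ (H^[n] (x + zc k'))| := by
      have := abs_sub_le (φ (H^[n] (x + zc k))) (inR A x) (φ (H^[n] (x + zc k')))
      rw [abs_sub_comm (φ (H^[n] (x + zc k))) (inR A x)] at this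
      exact this
    linarith
  · rw [ind_neg h]; exact zero_le

theorem upc2 (D : Dat M R G H H' K K₂ lam s C) {A : Set (ℝ × ℝ)} (hA : MeasurableSet A)
    (hper : ∀ z k, z + zc k ∈ A ↔ z ∈ A) (hinv : G ⁻¹' A = A) {φ : ℝ × ℝ → ℝ}
    (hφ : Continuous φ) (hφp : ∀ z k, φ (z + zc k) = φ z) (n : ℕ) (x0 : ℝ × ℝ) {ρ' : ℝ}
    (hρ : 2 * ρ' < 1) :
    ∑ k ∈ Rn M R n, ∑ k' ∈ Rn M R n, ∫⁻ x in Metric.closedBall x0 ρ',
        ENNReal.ofReal (wt H n (x + zc k')) *
          (ENNReal.ofReal (wt H n (x + zc k)) * ind (Dis H φ n k k' x)) ≤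
      8 * ∫⁻ y in Q, ENNReal.ofReal |inR A y - φ y| := by
  classical
  obtain ⟨W, hWdef⟩ : ∃ W : ℤ × ℤ → ℝ × ℝ → ℝ≥0∞, W = fun k x =>
      ENNReal.ofReal (wt H n (x + zc k)) := ⟨_, rfl⟩
  obtain ⟨E, hEdef⟩ : ∃ E : ℤ × ℤ → ℝ × ℝ → ℝ≥0∞, E = fun k x =>
      ENNReal.ofReal |inR A x - φ (H^[n] (x + zc k))| := ⟨_, rfl⟩
  have hWx : ∀ k x, ENNReal.ofReal (wt H n (x + zc k)) = W k x := by intro k x; rw [hWdef]
  have hEx : ∀ k x, ENNReal.ofReal |inR A x - φ (H^[n] (x + zc k))| = E k x := by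
    intro k x; rw [hEdef]
  have hWm : ∀ k, Measurable (W k) := by
    intro k; rw [hWdef]; exact D.meas_wt n k
  have hEm : ∀ k, Measurable (E k) := by
    intro k
    rw [hEdef]
    have h1 : Measurable fun x : ℝ × ℝ => φ (H^[n] (x + zc k)) :=
      (hφ.comp ((D.contHn n).comp (continuous_id.add continuous_const))).measurable
    exact ENNReal.measurable_ofReal.comp
      (measurable_norm.comp ((meas_inR hA).sub h1))
  have hW1 : ∀ x, ∑ k ∈ Rn M R n, W k x = 1 := by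
    intro x
    have := Sm_one D n x
    unfold Sm at this
    simp only [mul_one, hWx] at this
    exact this
  have hU := upa3 D hA hper hinv hφ hφp n x0 hρ
  simp only [hWx, hEx] at hU
  have hle : ∀ k k' x, W k' x * (W k x * ind (Dis H φ n k k' x)) ≤
      W k' x * (4 * (W k x * E k x)) + W k x * (4 * (W k' x * E k' x)) := by
    intro k k' x
    have h := ind_dis_le (H := H) (A := A) (φ := φ) n k k' x
    rw [hEx, hEx] at h
    calc W k' x * (W k x * ind (Dis H φ n k k' x))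
        ≤ W k' x * (W k x * (4 * E k x + 4 * E k' x)) := by gcongr
      _ = W k' x * (4 * (W k x * E k x)) + W k x * (4 * (W k' x * E k' x)) := by ring
  simp only [hWx]
  calc ∑ k ∈ Rn M R n, ∑ k' ∈ Rn M R n, ∫⁻ x in Metric.closedBall x0 ρ',
        W k' x * (W k x * ind (Dis H φ n k k' x))
      ≤ ∑ k ∈ Rn M R n, ∑ k' ∈ Rn M R n, ∫⁻ x in Metric.closedBall x0 ρ',
        (W k' x * (4 * (W k x * E k x)) + W k x * (4 * (W k' x * E k' x))) := by
        refine Finset.sum_le_sum fun k _ => Finset.sum_le_sum fun k' _ => ?_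
        exact lintegral_mono fun x => hle k k' x
    _ = ∫⁻ x in Metric.closedBall x0 ρ', ∑ k ∈ Rn M R n, ∑ k' ∈ Rn M R n,
        (W k' x * (4 * (W k x * E k x)) + W k x * (4 * (W k' x * E k' x))) := by
        have hm : ∀ k k', Measurable fun x =>
            W k' x * (4 * (W k x * E k x)) + W k x * (4 * (W k' x * E k' x)) := by
          intro k k'
          exact ((hWm k').mul (((hWm k).mul (hEm k)).const_mul 4)).add
            ((hWm k).mul (((hWm k').mul (hEm k')).const_mul 4))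
        rw [lintegral_finsetSum _ (fun k _ => Finset.measurable_sum _ fun k' _ => hm k k')]
        refine Finset.sum_congr rfl fun k _ => ?_
        rw [lintegral_finsetSum _ (fun k' _ => hm k k')]
    _ = ∫⁻ x in Metric.closedBall x0 ρ', 8 * ∑ k ∈ Rn M R n, W k x * E k x := by
        refine lintegral_congr fun x => ?_
        have h1 : ∑ k ∈ Rn M R n, ∑ k' ∈ Rn M R n,
            (W k' x * (4 * (W k x * E k x)) + W k x * (4 * (W k' x * E k' x))) =
            (∑ k ∈ Rn M R n, W k x) * (4 * ∑ k ∈ Rn M R n, W k x * E k x) +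
            (∑ k ∈ Rn M R n, W k x) * (4 * ∑ k ∈ Rn M R n, W k x * E k x) := by
          simp only [Finset.sum_add_distrib]
          congr 1
          · rw [Finset.sum_comm, Finset.sum_mul]
            refine Finset.sum_congr rfl fun k' _ => ?_
            rw [Finset.mul_sum, Finset.mul_sum]
          · rw [Finset.sum_mul]
            refine Finset.sum_congr rfl fun k _ => ?_
            rw [Finset.mul_sum, Finset.mul_sum]
        rw [h1, hW1, one_mul, ← add_mul]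
        norm_num
    _ = 8 * ∑ k ∈ Rn M R n, ∫⁻ x in Metric.closedBall x0 ρ', W k x * E k x := by
        have hm : ∀ k, Measurable fun x => W k x * E k x := fun k => (hWm k).mul (hEm k)
        rw [lintegral_const_mul' _ _ (by norm_num), lintegral_finsetSum _ (fun k _ => hm k)]
    _ ≤ 8 * ∫⁻ y in Q, ENNReal.ofReal |inR A y - φ y| := by gcongr

theorem upc (D : Dat M R G H H' K K₂ lam s C) (P : Par G lam κ θ r ρ) {A : Set (ℝ × ℝ)}
    (hA : MeasurableSet A) (hper : ∀ z k, z + zc k ∈ A ↔ z ∈ A) (hinv : G ⁻¹' A = A)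
    {φ : ℝ × ℝ → ℝ} (hφ : Continuous φ) (hφp : ∀ z k, φ (z + zc k) = φ z) (n : ℕ) {a' : ℝ}
    (ha' : a' ∈ Set.Icc (0 : ℝ) 1) (x0 : ℝ × ℝ) :
    ∑ k ∈ Rn M R n, ∑ k' ∈ Rn M R n, ∫⁻ z in Metric.closedBall x0 ρ,
      ENNReal.ofReal (wt H n (z + zc k')) * (ind (Good G lam κ n a' (H^[n] (z + zc k'))) *
        (ENNReal.ofReal (16 * r) * ∫⁻ t in Set.Icc (-r) r,
          ENNReal.ofReal (wt H n (cv G H n k' a' z t + zc k)) *
            ind (Dis H φ n k k' (cv G H n k' a' z t)))) ≤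
      16 * ∫⁻ y in Q, ENNReal.ofReal |inR A y - φ y| := by
  have hr0 := P.r0
  have hr1 := P.r1
  have hρ1 := P.ρ1
  have hθ1 := P.θ1
  have h2ρ : 2 * (ρ + 2 * r) < 1 := by nlinarith
  have h2 := upc2 D hA hper hinv hφ hφp n x0 h2ρ
  have h1 : ∀ k k' : ℤ × ℤ, ∫⁻ z in Metric.closedBall x0 ρ,
      ENNReal.ofReal (wt H n (z + zc k')) * (ind (Good G lam κ n a' (H^[n] (z + zc k'))) *
        (ENNReal.ofReal (16 * r) * ∫⁻ t in Set.Icc (-r) r,
          ENNReal.ofReal (wt H n (cv G H n k' a' z t + zc k)) *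
            ind (Dis H φ n k k' (cv G H n k' a' z t)))) ≤
      ENNReal.ofReal (16 * r) * (ENNReal.ofReal (8 * r) *
        ∫⁻ x in Metric.closedBall x0 (ρ + 2 * r), ENNReal.ofReal (wt H n (x + zc k')) *
          (ENNReal.ofReal (wt H n (x + zc k)) * ind (Dis H φ n k k' x))) := by
    intro k k'
    have h3 := upc1 D P hφ n k k' ha' x0
    calc _ = ∫⁻ z in Metric.closedBall x0 ρ, ENNReal.ofReal (16 * r) *
          (ENNReal.ofReal (wt H n (z + zc k')) * (ind (Good G lam κ n a' (H^[n] (z + zc k'))) *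
          ∫⁻ t in Set.Icc (-r) r, ENNReal.ofReal (wt H n (cv G H n k' a' z t + zc k)) *
            ind (Dis H φ n k k' (cv G H n k' a' z t)))) := by
          refine lintegral_congr fun z => ?_
          ring
      _ = ENNReal.ofReal (16 * r) * ∫⁻ z in Metric.closedBall x0 ρ,
          (ENNReal.ofReal (wt H n (z + zc k')) * (ind (Good G lam κ n a' (H^[n] (z + zc k'))) *
          ∫⁻ t in Set.Icc (-r) r, ENNReal.ofReal (wt H n (cv G H n k' a' z t + zc k)) *
            ind (Dis H φ n k k' (cv G H n k' a' z t)))) :=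
          lintegral_const_mul' _ _ ENNReal.ofReal_ne_top
      _ ≤ _ := by gcongr
  have hc : ENNReal.ofReal (16 * r) * ENNReal.ofReal (8 * r) * 8 ≤ 16 := by
    have h8 : (8 : ℝ≥0∞) = ENNReal.ofReal 8 := by norm_num
    have h16 : (16 : ℝ≥0∞) = ENNReal.ofReal 16 := by norm_num
    rw [h8, h16, ← ENNReal.ofReal_mul (by positivity), ← ENNReal.ofReal_mul (by positivity)]
    refine ENNReal.ofReal_le_ofReal ?_
    nlinarith
  calc _ ≤ ∑ k ∈ Rn M R n, ∑ k' ∈ Rn M R n, ENNReal.ofReal (16 * r) * (ENNReal.ofReal (8 * r) *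
        ∫⁻ x in Metric.closedBall x0 (ρ + 2 * r), ENNReal.ofReal (wt H n (x + zc k')) *
          (ENNReal.ofReal (wt H n (x + zc k)) * ind (Dis H φ n k k' x))) :=
        Finset.sum_le_sum fun k _ => Finset.sum_le_sum fun k' _ => h1 k k'
    _ = ENNReal.ofReal (16 * r) * ENNReal.ofReal (8 * r) * ∑ k ∈ Rn M R n, ∑ k' ∈ Rn M R n,
        ∫⁻ x in Metric.closedBall x0 (ρ + 2 * r), ENNReal.ofReal (wt H n (x + zc k')) *
          (ENNReal.ofReal (wt H n (x + zc k)) * ind (Dis H φ n k k' x)) := by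
        simp only [Finset.mul_sum, mul_assoc]
    _ ≤ ENNReal.ofReal (16 * r) * ENNReal.ofReal (8 * r) *
        (8 * ∫⁻ y in Q, ENNReal.ofReal |inR A y - φ y|) := by gcongr
    _ = (ENNReal.ofReal (16 * r) * ENNReal.ofReal (8 * r) * 8) *
        ∫⁻ y in Q, ENNReal.ofReal |inR A y - φ y| := by ring
    _ ≤ _ := by gcongr

end Pool.Agent.ERG
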